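import Pool.Agent.Y106.One.Defs
import Pool.Agent.R907.CritDefs

/-!
# Cancellation of a factor in the Lefschetz standard conjecture: definitions
-/

open CategoryTheory AlgebraicGeometry

universe u v

namespace Run7.h756.Can

section Alg

variable {K : Type*} [Field K] {V : Type*} [AddCommGroup V] [Module K V]

/-- The span of the products `p(a) q(b)`, for `a` in `U` and `b` in `U'`. -/
def productSpan {A B C : Type*} [Ring A] [Algebra K A] [Ring B] [Algebra K B] [Ring C]
    [Algebra K C] (p : A →ₐ[K] C) (q : B →ₐ[K] C) (U : Submodule K A) (U' : Submodule K B) :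
    Submodule K C :=
  Submodule.span K {c | ∃ a ∈ U, ∃ b ∈ U', c = p a * q b}

/-- The sum of the subspaces `f a b`, for `(a, b) ≠ (i, j)`. -/
def otherParts (f : ℕ → ℕ → Submodule K V) (i j : ℕ) : Submodule K V :=
  ⨆ (p : ℕ × ℕ) (_ : p ≠ (i, j)), f p.1 p.2

/-- The operator `T` maps no nonzero element of `U` to `U'`. -/
def InjectiveModulo (U U' : Submodule K V) (T : Module.End K V) : Prop :=
  ∀ c ∈ U, T c ∈ U' → c = 0

end Alg

open Pool.Agent.H914 Pool.Agent.Y106.One Pool.Agent.H914.VarClass Pool.Agent.H914.VarClass.Obj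
  Pool.Agent.H914.WeilCohomology

variable {k : Type u} [Field k] {𝒱 : VarClass k} {ops : CycleOps 𝒱}

/-- The projector of `H(Z)` onto `H^j(Z)` is induced by a linear combination of classes of cycles of
codimension `dim Z` on `Z × Z`, with coefficients in the coefficient field of `W`. -/
def AlgebraicProjector (W : WeilCohomology.{u, v} ops) (Z : 𝒱.Obj) (j : ℕ) : Prop :=
  ∃ γ ∈ spanCycles W (Z.prod Z) (Z.dim : ℤ), IsProjector (W.gr Z) j (W.corr γ)

/-- The Künneth component `H^i(X) ⊗ H^j(Z)` of the cohomology of `X × Z`. -/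
noncomputable def kunnethPart (W : WeilCohomology.{u, v} ops) (X Z : 𝒱.Obj) (i j : ℕ) :
    Submodule W.K (W.H (X.prod Z)) :=
  productSpan (W.map (fst X Z)) (W.map (snd X Z)) (W.gr X i) (W.gr Z j)

/-- The sum of the Künneth components `H^a(X) ⊗ H^b(Z)` of the cohomology of `X × Z`, for
`(a, b) ≠ (i, j)`. -/
noncomputable def kunnethRest (W : WeilCohomology.{u, v} ops) (X Z : 𝒱.Obj) (i j : ℕ) :
    Submodule W.K (W.H (X.prod Z)) :=
  otherParts (kunnethPart W X Z) i j

/-- The operator `ξ ^ m ⊗ 1` on the cohomology of `X × Z`, where `ξ` is the class of the divisor `D`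
on `X`. -/
noncomputable def tensLef (W : WeilCohomology.{u, v} ops) (X Z : 𝒱.Obj) (D : X.Cycles) (m : ℕ) :
    Module.End W.K (W.H (X.prod Z)) :=
  LinearMap.mulLeft W.K (W.map (fst X Z) (W.cl X D) ^ m)

/-- The operator `γ ∘ (ξ ^ m ⊗ 1)` on the cohomology of `X × Z`, where `ξ` is the class of the
divisor `D` on `X` and `γ` is a class on `(X × Z) × (X × Z)`. -/
noncomputable def tensOp (W : WeilCohomology.{u, v} ops) (X Z : 𝒱.Obj) (D : X.Cycles) (m : ℕ)
    (γ : W.H ((X.prod Z).prod (X.prod Z))) : Module.End W.K (W.H (X.prod Z)) :=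
  W.corr γ ∘ₗ tensLef W X Z D m

/-- The combination `γ` of classes of cycles of codimension `dim Z + i` on `(X × Z) × (X × Z)`, with
coefficients in the coefficient field of `W`, is such that the component
`H^i(X) ⊗ H^j(Z) → H^i(X) ⊗ H^j(Z)` of the operator `γ ∘ (ξ ^ (n - i) ⊗ 1)` is injective. Here
`n = dim X`, and `ξ` is the class of the divisor `D` on `X`. -/
def InjectsComponent (W : WeilCohomology.{u, v} ops) (X Z : 𝒱.Obj) (D : X.Cycles) (i j : ℕ)
    (γ : W.H ((X.prod Z).prod (X.prod Z))) : Prop :=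
  γ ∈ spanCycles W ((X.prod Z).prod (X.prod Z)) ((Z.dim + i : ℕ) : ℤ) ∧
    InjectiveModulo (kunnethPart W X Z i j) (kunnethRest W X Z i j)
      (tensOp W X Z D (X.dim - i) γ)

end Run7.h756.Can
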