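import Pool.Agent.R907.Part
import Pool.Agent.N190.CB.Tr
import Pool.Agent.H914R2.GConv
import Pool.Agent.Run7.h756.CanDefs

/-!
# Cancellation of a factor in the Lefschetz standard conjecture
-/

open CategoryTheory AlgebraicGeometry Finset Polynomial

set_option linter.unusedSectionVars false

universe u₁ v₁ u v

namespace Run7.h756.Can

open Pool.Agent.H914 Pool.Agent.W537 Pool.Agent.Y106.One Pool.Agent.R907 Pool.Agent.N190.CB
  Pool.Agent.H914.VarClass Pool.Agent.H914.VarClass.Obj Pool.Agent.H914.WeilCohomology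

variable {k : Type u} [Field k] {𝒱 : VarClass k} {ops : CycleOps 𝒱} {X Z : 𝒱.Obj}
  {W : WeilCohomology.{u, v} ops}

lemma proj_mul_par (i : ℕ) : proj (W.isInternal X) i * par (W.isInternal X) =
    (-1 : W.K) ^ i • proj (W.isInternal X) i := by
  rw [← par_mul_proj]
  rw [proj, par, scal_mul, scal_mul]
  congr 1
  funext j
  exact mul_comm _ _

/-- The supertrace of an operator on one degree. -/
lemma str_mul_proj (y : Module.End W.K (W.H X)) (i : ℕ) :
    str W X (y * proj (W.isInternal X) i) =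
      (-1 : W.K) ^ i * LinearMap.trace W.K _ (y * proj (W.isInternal X) i) := by
  rw [str_apply, LinearMap.trace_mul_comm, mul_assoc, proj_mul_par, mul_smul_comm, map_smul,
    smul_eq_mul]

/-- The partial trace over the second factor, for operators. -/
lemma exists_ptrace_op {d e : ℤ} {A : Module.End W.K (W.H (X.prod Z))}
    (hA : A ∈ KOp W (X.prod Z) (X.prod Z) d) {ψ : Module.End W.K (W.H Z)}
    (hψ : ψ ∈ KOp W Z Z e) :
    ∃ T ∈ KOp W X X (d + e), ∀ g : Module.End W.K (W.H X),
      str W (X.prod Z) (A * extOp W g ψ) = str W X (T * g) := by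
  obtain ⟨T, hT, h⟩ := exists_ptrace hA hψ
  refine ⟨T, hT, fun g => ?_⟩
  obtain ⟨f, rfl⟩ := (corr_bijective (W := W) (X := X)).2 g
  exact h f

/-- The supertrace of an external product, for operators. -/
lemma str_extOp_op (g : Module.End W.K (W.H X)) {ψ : Module.End W.K (W.H Z)}
    (hψ : ψ ∈ KOp W Z Z 0) : str W (X.prod Z) (extOp W g ψ) = str W X g * str W Z ψ := by
  obtain ⟨f, rfl⟩ := (corr_bijective (W := W) (X := X)).2 g
  obtain ⟨γ, hγ, rfl⟩ := mem_KOp_iff.1 hψ
  rw [add_zero] at hγ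
  exact str_extOp f (Pool.Agent.H447.span_gr hγ)

lemma LL_mem (D : X.Cycles) (hD : X.IsCyc 1 D) : LL D W ∈ KOp W X X 1 := by
  rw [← mem_KS_iff]
  exact Submodule.subset_span (LL_rop hD)

lemma KOp.pow {y : Module.End W.K (W.H X)} {d : ℤ} (hy : y ∈ KOp W X X d) (m : ℕ) :
    y ^ m ∈ KOp W X X (m * d) := by
  induction m with
  | zero =>
    rw [pow_zero]
    exact KOp.cast (KOp.id X) (by simp)
  | succ m ih =>
    rw [pow_succ]
    exact KOp.cast (KOp.comp ih hy) (by push_cast; ring)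

lemma LL_pow_mem {D : X.Cycles} (hD : X.IsCyc 1 D) (m : ℕ) :
    LL D W ^ m ∈ KOp W X X m :=
  KOp.cast (KOp.pow (LL_mem D hD) m) (by ring)

/-- The elements of the left ideal of the Lefschetz operator. -/
lemma mem_KJ_of_KOp {D : X.Cycles} (hD : X.IsCyc 1 D) {i : ℕ} (hi : i ≤ X.dim) {a : ℕ}
    (ha : X.dim - i ≤ a) {T : Module.End W.K (W.H X)} (hT : T ∈ KOp W X X (-(a : ℤ))) :
    T * LL D W ^ a ∈ KJ (lefIdeal.{u, v} ops X D i) W := by
  have h1 : T * LL D W ^ (a - (X.dim - i)) ∈ KOp W X X (-((X.dim - i : ℕ) : ℤ)) :=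
    KOp.cast (KOp.comp hT (LL_pow_mem hD _)) (by rw [Nat.cast_sub ha]; ring)
  obtain ⟨γ, hγ, hγ2⟩ := mem_KOp_iff.1 h1
  have h2 : ((X.dim : ℤ) + -((X.dim - i : ℕ) : ℤ)) = i := by omega
  rw [h2] at hγ
  have h3 := corrLef_mem (D := D) hγ
  rw [corrLef_eq, hγ2, mul_assoc, ← pow_add, Nat.sub_add_cancel ha] at h3
  exact h3

/-- Orthogonality to the left ideal of the Lefschetz operator. -/
lemma str_eq_zero_of_unit {D : X.Cycles} (hD : X.IsCyc 1 D) {i : ℕ} (hi : i ≤ X.dim)
    {E : Fam.{u, v} ops X} (hE : IsUnit' (lefIdeal.{u, v} ops X D i) i E W) {a : ℕ}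
    (ha : X.dim - i ≤ a) {T : Module.End W.K (W.H X)} (hT : T ∈ KOp W X X (-(a : ℤ))) :
    str W X (T * (LL D W ^ a * ((1 - E W) * proj (W.isInternal X) i))) = 0 := by
  have h1 := hE.trace_zero (lefIdeal_isLeftIdeal hD hi) (mem_KJ_of_KOp (W := W) hD hi ha hT)
    (Submodule.subset_span one_mem_corrOps)
  have h2 : T * (LL D W ^ a * ((1 - E W) * proj (W.isInternal X) i)) =
      (T * LL D W ^ a * (1 - E W) * 1) * proj (W.isInternal X) i := by
    rw [mul_one]
    simp only [mul_assoc]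
  rw [h2, str_mul_proj, h1, mul_zero]

/-- If the complement of a maximal idempotent has trace zero, then there is one cycle. -/
lemma oneCycle_of_trace {k₀ : Type u₁} [Field k₀] {𝒱₀ : VarClass k₀} {ops₀ : CycleOps 𝒱₀}
    (R : Reduction X 𝒱₀) (hW : Reduction.Pure.{u₁, v₁} R ops₀ W) {D : X.Cycles}
    (hD : X.IsCyc 1 D) {i : ℕ} (hi : i ≤ X.dim) {E : Fam.{u, v} ops X}
    (hEJ : E ∈ lefIdeal.{u, v} ops X D i) (hE : IsUnit' (lefIdeal.{u, v} ops X D i) i E W)
    (h : LinearMap.trace W.K _ ((1 - E W) * proj (W.isInternal X) i) = 0) :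
    OneCycleForAll.{u, v} (ops := ops) (Reduction.Pure.{u₁, v₁} R ops₀) X D i := by
  have hJ := lefIdeal_isLeftIdeal.{u, v} (ops := ops) hD hi
  have hEr := hJ.real E hEJ
  set P := proj (W.isInternal X) i with hP
  have hidem : ((1 - E W) * P) * ((1 - E W) * P) = (1 - E W) * P := by
    have hc : P * (1 - E W) = (1 - E W) * P := by
      rw [mul_sub, sub_mul, mul_one, one_mul, real_comm hEr W i]
    have h1 : (1 - E W) * (1 - E W) * P = (1 - E W) * P := by
      apply LinearMap.ext
      intro x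
      have h2 := hE.idem (P x) (proj_mem _ i x)
      simp only [Module.End.mul_apply, LinearMap.sub_apply, Module.End.one_apply, map_sub, h2]
      abel
    calc ((1 - E W) * P) * ((1 - E W) * P) = (1 - E W) * (P * (1 - E W)) * P := by
          simp only [mul_assoc]
      _ = (1 - E W) * (1 - E W) * (P * P) := by rw [hc]; simp only [mul_assoc]
      _ = (1 - E W) * P := by rw [proj_mul_proj, h1]
  have h0 := eq_zero_of_idem_of_trace_eq_zero hidem h
  have hid : ∀ a ∈ W.gr X i, E W a = a := by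
    intro a ha
    have h2 := congrArg (fun F => F a) h0
    beta_reduce at h2
    rw [Module.End.mul_apply, hP, proj_same _ ha, LinearMap.sub_apply, Module.End.one_apply,
      LinearMap.zero_apply, sub_eq_zero] at h2
    exact h2.symm
  obtain ⟨z', hz', hz2⟩ := common_of_id hJ hEJ hid
  exact oneCycle_of_common hD hi hz'
    (fun W' hW' => hz2 W' (sameTraces_of_reduction R hW hW' i))

end Run7.h756.Can
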