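import Pool.Agent.Run7.h756.Can

/-!
# Cancellation of a factor in the Lefschetz standard conjecture: the theorem
-/

open CategoryTheory AlgebraicGeometry Finset Polynomial

set_option linter.unusedSectionVars false

universe u₁ v₁ u v

namespace Run7.h756.Can

open Pool.Agent.H914 Pool.Agent.W537 Pool.Agent.Y106.One Pool.Agent.R907 Pool.Agent.N190.CB
  Pool.Agent.H914.VarClass Pool.Agent.H914.VarClass.Obj Pool.Agent.H914.WeilCohomology

variable {k : Type u} [Field k] {𝒱 : VarClass k} {ops : CycleOps 𝒱} {X Z : 𝒱.Obj}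
  {W : WeilCohomology.{u, v} ops}

lemma part_le (i j : ℕ) : kunnethPart W X Z i j ≤ W.gr (X.prod Z) (i + j) := by
  rw [kunnethPart, productSpan, Submodule.span_le]
  rintro _ ⟨a, ha, b, hb, rfl⟩
  exact W.mul_mem (W.map_mem _ ha) (W.map_mem _ hb)

lemma ext_part {i j : ℕ} {c : W.H (X.prod Z)} (hc : c ∈ kunnethPart W X Z i j) :
    extOp W (proj (W.isInternal X) i) (proj (W.isInternal Z) j) c = c := by
  induction hc using Submodule.span_induction with
  | mem c hc =>
    obtain ⟨a, ha, b, hb, rfl⟩ := hc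
    rw [extOp_tmul, proj_same _ ha, proj_same _ hb]
  | zero => rw [map_zero]
  | add x y _ _ hx hy => rw [map_add, hx, hy]
  | smul r x _ hx => rw [map_smul, hx]

lemma ext_mem_part (i j : ℕ) (c : W.H (X.prod Z)) :
    extOp W (proj (W.isInternal X) i) (proj (W.isInternal Z) j) c ∈ kunnethPart W X Z i j := by
  refine W.kunneth_induction (p := fun c => extOp W (proj (W.isInternal X) i)
    (proj (W.isInternal Z) j) c ∈ kunnethPart W X Z i j) ?_ ?_ c
  · intro a b ha hb
    rw [map_add]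
    exact Submodule.add_mem _ ha hb
  · intro i' j' a _ b _
    rw [extOp_tmul]
    exact Submodule.subset_span ⟨_, proj_mem _ i a, _, proj_mem _ j b, rfl⟩

lemma tmul_mem_part {i j : ℕ} {a : W.H X} (ha : a ∈ W.gr X i) {b : W.H Z} (hb : b ∈ W.gr Z j) :
    W.map (fst X Z) a * W.map (snd X Z) b ∈ kunnethPart W X Z i j :=
  Submodule.subset_span ⟨a, ha, b, hb, rfl⟩

lemma sub_mem_rest (i j : ℕ) (c : W.H (X.prod Z)) :
    c - extOp W (proj (W.isInternal X) i) (proj (W.isInternal Z) j) c ∈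
      kunnethRest W X Z i j := by
  refine W.kunneth_induction (p := fun c => c - extOp W (proj (W.isInternal X) i)
    (proj (W.isInternal Z) j) c ∈ kunnethRest W X Z i j) ?_ ?_ c
  · intro a b ha hb
    rw [map_add, add_sub_add_comm]
    exact Submodule.add_mem _ ha hb
  · intro i' j' a ha b hb
    by_cases h : (i', j') = (i, j)
    · obtain ⟨rfl, rfl⟩ := Prod.mk.inj h
      rw [ext_part (tmul_mem_part ha hb), sub_self]
      exact Submodule.zero_mem _
    · have h0 : extOp W (proj (W.isInternal X) i) (proj (W.isInternal Z) j)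
          (W.map (fst X Z) a * W.map (snd X Z) b) = 0 := by
        rw [extOp_tmul]
        by_cases hi : i' = i
        · have hj : j' ≠ j := fun hj => h (by rw [hi, hj])
          rw [proj_ne _ hb hj, map_zero, mul_zero]
        · rw [proj_ne _ ha hi, map_zero, zero_mul]
      rw [h0, sub_zero]
      exact Submodule.mem_iSup_of_mem (i', j') (Submodule.mem_iSup_of_mem h (tmul_mem_part ha hb))

lemma ext_rest {i j : ℕ} {c : W.H (X.prod Z)} (hc : c ∈ kunnethRest W X Z i j) :
    extOp W (proj (W.isInternal X) i) (proj (W.isInternal Z) j) c = 0 := by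
  have h1 : kunnethRest W X Z i j ≤
      LinearMap.ker (extOp W (proj (W.isInternal X) i) (proj (W.isInternal Z) j)) := by
    refine iSup_le fun p => iSup_le fun hp => ?_
    rw [kunnethPart, productSpan, Submodule.span_le]
    rintro _ ⟨a, ha, b, hb, rfl⟩
    change _ = _
    rw [extOp_tmul]
    by_cases hi : p.1 = i
    · have hj : p.2 ≠ j := fun hj => hp (Prod.ext hi hj)
      rw [proj_ne _ hb hj, map_zero, mul_zero]
    · rw [proj_ne _ ha hi, map_zero, zero_mul]
  exact h1 hc

/-- In the total degree `i + j` the projector of the second factor suffices. -/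
lemma ext_one_proj {i j : ℕ} {c : W.H (X.prod Z)} (hc : c ∈ W.gr (X.prod Z) (i + j)) :
    extOp W 1 (proj (W.isInternal Z) j) c =
      extOp W (proj (W.isInternal X) i) (proj (W.isInternal Z) j) c := by
  have h1 : extOp W 1 (proj (W.isInternal Z) j) ∘ₗ proj (W.isInternal (X.prod Z)) (i + j) =
      extOp W (proj (W.isInternal X) i) (proj (W.isInternal Z) j) ∘ₗ
        proj (W.isInternal (X.prod Z)) (i + j) := by
    have key : ∀ c : W.H (X.prod Z),
        extOp W 1 (proj (W.isInternal Z) j) (proj (W.isInternal (X.prod Z)) (i + j) c) =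
        extOp W (proj (W.isInternal X) i) (proj (W.isInternal Z) j)
          (proj (W.isInternal (X.prod Z)) (i + j) c) := by
      intro c
      refine W.kunneth_induction (p := fun c =>
        extOp W 1 (proj (W.isInternal Z) j) (proj (W.isInternal (X.prod Z)) (i + j) c) =
        extOp W (proj (W.isInternal X) i) (proj (W.isInternal Z) j)
          (proj (W.isInternal (X.prod Z)) (i + j) c)) ?_ ?_ c
      · intro a b ha hb
        rw [map_add, map_add, map_add, ha, hb]
      · intro i' j' a ha b hb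
        have hmem : W.map (fst X Z) a * W.map (snd X Z) b ∈ W.gr (X.prod Z) (i' + j') :=
          W.mul_mem (W.map_mem _ ha) (W.map_mem _ hb)
        by_cases hij : i' + j' = i + j
        · rw [hij] at hmem
          rw [proj_same _ hmem, extOp_tmul, extOp_tmul]
          by_cases hj : j' = j
          · obtain rfl : i' = i := by omega
            rw [proj_same _ ha]
            rfl
          · rw [proj_ne _ hb hj, map_zero, mul_zero, mul_zero]
        · rw [proj_ne _ hmem hij, map_zero, map_zero]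
    exact LinearMap.ext key
  have h2 := congrArg (fun F => F c) h1
  beta_reduce at h2
  rw [LinearMap.comp_apply, LinearMap.comp_apply, proj_same _ hc] at h2
  exact h2

lemma proj_mem_KOp {j : ℕ} (hZ : AlgebraicProjector W Z j) :
    proj (W.isInternal Z) j ∈ KOp W Z Z 0 := by
  obtain ⟨γ, hγ, h⟩ := hZ
  rw [← (isProjector_iff (W.isInternal Z) j).1 h]
  exact mem_KOp_iff.2 ⟨γ, by rwa [add_zero], rfl⟩

lemma ext_LL (D : X.Cycles) (m : ℕ) (c : W.H (X.prod Z)) :
    extOp W (LL D W ^ m) 1 c = (W.map (fst X Z) (W.cl X D)) ^ m * c := by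
  have h : extOp W (LL D W ^ m) 1 =
      LinearMap.mulLeft W.K ((W.map (fst X Z) (W.cl X D)) ^ m : W.H (X.prod Z)) := by
    apply ext_kunneth_lin
    intro a b
    rw [extOp_tmul, LinearMap.mulLeft_apply, LinearMap.pow_mulLeft, LinearMap.mulLeft_apply,
      map_mul, map_pow, Module.End.one_apply, mul_assoc]
  rw [h, LinearMap.mulLeft_apply]

lemma aeval_mem_KOp {T : Module.End W.K (W.H X)} (hT : T ∈ KOp W X X 0) (g : W.K[X]) :
    aeval T g ∈ KOp W X X 0 := by
  induction g using Polynomial.induction_on' with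
  | add a b ha hb => rw [map_add]; exact Submodule.add_mem _ ha hb
  | monomial r κ =>
    rw [aeval_monomial, Algebra.algebraMap_eq_smul_one, smul_mul_assoc, one_mul]
    exact Submodule.smul_mem _ _ (KOp.cast (KOp.pow hT r) (by ring))

lemma KOp.gr_mem {T : Module.End W.K (W.H X)} (hT : T ∈ KOp W X X 0) {i : ℕ} {a : W.H X}
    (ha : a ∈ W.gr X i) : T a ∈ W.gr X i := by
  have := KOp.isHom hT i a (by rwa [grZ_natCast])
  rwa [mul_zero, add_zero, grZ_natCast] at this

/-- The final step: an algebraic operator on `Z` with nonzero supertrace. -/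
lemma oneCycle_of_ext {k₀ : Type u₁} [Field k₀] {𝒱₀ : VarClass k₀} {ops₀ : CycleOps 𝒱₀}
    (R : Reduction X 𝒱₀) (hW : Reduction.Pure.{u₁, v₁} R ops₀ W) {D : X.Cycles}
    (hD : X.IsCyc 1 D) {i : ℕ} (hi : i ≤ X.dim) {E : Fam.{u, v} ops X}
    (hEJ : E ∈ lefIdeal.{u, v} ops X D i) (hE : IsUnit' (lefIdeal.{u, v} ops X D i) i E W)
    {ψ : Module.End W.K (W.H Z)} (hψ : ψ ∈ KOp W Z Z 0) (hψ0 : str W Z ψ ≠ 0)
    (h : str W (X.prod Z) (extOp W ((1 - E W) * proj (W.isInternal X) i) ψ) = 0) :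
    OneCycleForAll.{u, v} (ops := ops) (Reduction.Pure.{u₁, v₁} R ops₀) X D i := by
  rw [str_extOp_op _ hψ, str_mul_proj] at h
  apply oneCycle_of_trace R hW hD hi hEJ hE
  have h1 := (mul_eq_zero.1 h).resolve_right hψ0
  exact (mul_eq_zero.1 h1).resolve_left (pow_ne_zero _ (by norm_num))

lemma str_proj_ne {j : ℕ} (hj : W.gr Z j ≠ ⊥) : str W Z (proj (W.isInternal Z) j) ≠ 0 := by
  have h := str_mul_proj (W := W) (X := Z) 1 j
  rw [one_mul, trace_proj] at h
  rw [h]
  apply mul_ne_zero (pow_ne_zero _ (by norm_num))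
  rw [Nat.cast_ne_zero]
  intro h0
  exact hj (Submodule.finrank_eq_zero.1 h0)

/-- **Cancellation.** -/
theorem oneCycle_of_component {k₀ : Type u₁} [Field k₀] {𝒱₀ : VarClass k₀} {ops₀ : CycleOps 𝒱₀}
    (R : Reduction X 𝒱₀) (hW : Reduction.Pure.{u₁, v₁} R ops₀ W) {D : X.Cycles}
    (hD : X.IsCyc 1 D) {i : ℕ} (hi : i ≤ X.dim) {j : ℕ} (hj : W.gr Z j ≠ ⊥)
    (hZ : AlgebraicProjector W Z j) {γ : W.H ((X.prod Z).prod (X.prod Z))}
    (hγ : InjectsComponent W X Z D i j γ) :
    OneCycleForAll.{u, v} (ops := ops) (Reduction.Pure.{u₁, v₁} R ops₀) X D i := by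
  obtain ⟨hγ1, hγ2⟩ := hγ
  have hJ := lefIdeal_isLeftIdeal.{u, v} (ops := ops) hD hi
  obtain ⟨E, hEJ, hE⟩ := exists_maximal hJ (sameTraces_of_reduction R hW hW i)
  have hEu := hE W (sameTraces_of_reduction R hW hW i)
  have hEr := hJ.real E hEJ
  have hPj := proj_mem_KOp hZ
  set Pi := proj (W.isInternal X) i with hPi
  set Pj := proj (W.isInternal Z) j with hPj'
  set G := W.corr γ with hG
  have hGm : G ∈ KOp W (X.prod Z) (X.prod Z) (-((X.dim - i : ℕ) : ℤ)) := by
    refine mem_KOp_iff.2 ⟨γ, ?_, rfl⟩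
    rw [show (((X.prod Z).dim : ℤ) + -((X.dim - i : ℕ) : ℤ)) = ((Z.dim + i : ℕ) : ℤ) by
      rw [dim_prod]; push_cast; omega]
    exact hγ1
  set p : Module.End W.K (W.H (X.prod Z)) := extOp W 1 Pj with hp
  have hpm : p ∈ KOp W (X.prod Z) (X.prod Z) 0 :=
    KOp.cast (KOp.ext (KOp.id X) hPj) (by ring)
  have hLm : extOp W (LL D W ^ (X.dim - i)) (1 : Module.End W.K (W.H Z)) ∈
      KOp W (X.prod Z) (X.prod Z) ((X.dim - i : ℕ) : ℤ) :=
    KOp.cast (KOp.ext (LL_pow_mem hD _) (KOp.id Z)) (by ring)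
  set T₀ := G * extOp W (LL D W ^ (X.dim - i)) (1 : Module.End W.K (W.H Z)) with hT₀
  have hT₀m : T₀ ∈ KOp W (X.prod Z) (X.prod Z) 0 :=
    KOp.cast (KOp.comp hGm hLm) (by ring)
  set T := p * T₀ * p with hT
  have hTm : T ∈ KOp W (X.prod Z) (X.prod Z) 0 :=
    KOp.cast (KOp.comp (KOp.comp hpm hT₀m) hpm) (by ring)
  have hp_part : ∀ c ∈ kunnethPart W X Z i j, p c = c := by
    intro c hc
    rw [hp, ext_one_proj (i := i) (part_le i j hc), ext_part hc]
  have hT_part : ∀ c ∈ kunnethPart W X Z i j, T c = extOp W Pi Pj (T₀ c) := by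
    intro c hc
    rw [hT, Module.End.mul_apply, Module.End.mul_apply, hp_part c hc, hp,
      ext_one_proj (i := i) (KOp.gr_mem hT₀m (part_le i j hc))]
  have hinj : ∀ c ∈ kunnethPart W X Z i j, T c = 0 → c = 0 := by
    intro c hc h0
    rw [hT_part c hc] at h0
    apply hγ2 c hc
    have h1 := sub_mem_rest (W := W) i j (T₀ c)
    rw [h0, sub_zero, hT₀, Module.End.mul_apply, ext_LL] at h1
    exact h1
  obtain ⟨q, hq⟩ := exists_inv_on (E := T) (S := kunnethPart W X Z i j)
    (fun c hc => by rw [hT_part c hc]; exact ext_mem_part i j _) hinj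
  set N := extOp W ((1 - E W) * Pi) Pj with hN
  have hPE : Pi * ((1 - E W) * Pi) = (1 - E W) * Pi := by
    have hc : Pi * (1 - E W) = (1 - E W) * Pi := by
      rw [mul_sub, sub_mul, mul_one, one_mul, real_comm hEr W i]
    rw [← mul_assoc, hc, mul_assoc, proj_mul_proj]
  have hNN : extOp W Pi Pj * N = N := by
    rw [hN, extOp_mul, hPE, proj_mul_proj]
  have hNpart : ∀ x, N x ∈ kunnethPart W X Z i j := by
    intro x
    rw [← hNN, Module.End.mul_apply]
    exact ext_mem_part i j _
  have hpN : p * N = N := by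
    rw [hp, hN, extOp_mul, one_mul, proj_mul_proj]
  have hkey : N = (aeval T q * p * G) * extOp W (LL D W ^ (X.dim - i) * ((1 - E W) * Pi)) Pj := by
    have h1 : N = aeval T q * (T * N) := by
      apply LinearMap.ext
      intro x
      rw [Module.End.mul_apply, Module.End.mul_apply, hq _ (hNpart x)]
    have h2 : T * N = p * G * (extOp W (LL D W ^ (X.dim - i)) 1 * N) := by
      rw [hT, mul_assoc, hpN, hT₀]
      simp only [mul_assoc]
    have h3 : extOp W (LL D W ^ (X.dim - i)) 1 * N =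
        extOp W (LL D W ^ (X.dim - i) * ((1 - E W) * Pi)) Pj := by
      rw [hN, extOp_mul, one_mul]
    rw [h1, h2, h3]
    simp only [mul_assoc]
  have hA : aeval T q * p * G ∈ KOp W (X.prod Z) (X.prod Z) (-((X.dim - i : ℕ) : ℤ)) :=
    KOp.cast (KOp.comp (KOp.comp (aeval_mem_KOp hTm q) hpm) hGm) (by ring)
  obtain ⟨S, hS, hS2⟩ := exists_ptrace_op hA hPj
  rw [add_zero] at hS
  refine oneCycle_of_ext R hW hD hi hEJ hEu hPj (str_proj_ne hj) ?_
  change str W (X.prod Z) N = 0
  rw [hkey, hS2]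
  exact str_eq_zero_of_unit hD hi hEu le_rfl hS

/-- The converse. -/
theorem component_of_oneCycle {P : WeilCohomology.{u, v} ops → Prop} (hW : P W) {D : X.Cycles}
    (hD : X.IsCyc 1 D) {i : ℕ} (hi : i ≤ X.dim) (Z : 𝒱.Obj) (j : ℕ)
    (h : OneCycleForAll.{u, v} (ops := ops) P X D i) : ∃ γ, InjectsComponent W X Z D i j γ := by
  obtain ⟨z, hz⟩ := h
  have h2 := (inverts_iff hD W hi).1 (hz W hW)
  rw [show X.dim - (X.dim - i) = i by omega] at h2
  have hφ : W.corr (W.cl _ z) ∈ KOp W X X (-((X.dim - i : ℕ) : ℤ)) :=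
    KOp.gen (p := i) (by omega) h2.1
  obtain ⟨γ, hγ, hγ2⟩ := mem_KOp_iff.1 (KOp.ext hφ (KOp.id Z))
  refine ⟨γ, ?_, fun c hc hr => ?_⟩
  · rwa [show (((X.prod Z).dim : ℤ) + (-((X.dim - i : ℕ) : ℤ) + 0)) = ((Z.dim + i : ℕ) : ℤ) by
      rw [dim_prod]; push_cast; omega] at hγ
  · have h3 : ∀ c ∈ kunnethPart W X Z i j,
        (W.corr γ) ((W.map (fst X Z) (W.cl X D)) ^ (X.dim - i) * c) = c := by
      intro c hc
      rw [hγ2, ← ext_LL]
      induction hc using Submodule.span_induction with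
      | mem c hc =>
        obtain ⟨a, ha, b, hb, rfl⟩ := hc
        rw [extOp_tmul, extOp_tmul, h2.2 a ha]
        rfl
      | zero => rw [map_zero, map_zero]
      | add x y _ _ hx hy => rw [map_add, map_add, hx, hy]
      | smul r x _ hx => rw [map_smul, map_smul, hx]
    have hr' : (W.corr γ) ((W.map (fst X Z) (W.cl X D)) ^ (X.dim - i) * c) ∈
      kunnethRest W X Z i j := hr
    rw [h3 c hc] at hr'
    rw [← ext_part hc, ext_rest hr']

end Run7.h756.Can
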