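import Pool.Agent.Run7.h756.GD3

set_option autoImplicit false

/-! Many points at which all the densities are not small; the final form. -/

namespace Run7.h756.GD

open Finset Filter Topology
open Pool.Agent.H373R2.T7
open Pool.Agent.W301.SS
open Pool.Agent.TH646 Pool.Agent.TH646.TT

/-- the number of points with too many primes to their right -/
noncomputable def tau (N : ℕ) (δ : ℝ) (y : ℕ) : ℝ :=
  (3 * (N : ℝ) ^ (1 - δ) + (2 * N / y) * (2 * Real.log N) ^ 16) * (4 * Real.log N ^ 2 / δ ^ 2) +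
    (N : ℝ) ^ (1 / 4 : ℝ) * (2 * Real.log N / δ)

lemma bad_few (δ : ℝ) (hδ : 0 < δ) (hδ1 : δ ≤ 1 / 4) : ∀ᶠ N : ℕ in atTop,
    ∀ A : Finset ℕ, (∀ a ∈ A, a ≤ N) → ∀ b ∈ Icc 1 N, ∀ y : ℕ, 1 ≤ y →
    (∀ a ∈ A, (4 / (1 - 2 * δ) + δ) * y < (pn (a + b) y : ℝ) * Real.log N) → (A.card : ℝ) ≤ tau N δ y := by
  filter_upwards [subsets δ hδ hδ1, eventually_ge_atTop 1] with N h hN1 A hA b hb y hy hbad
  by_contra hcon
  rw [not_le] at hcon
  unfold tau at hcon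
  have hℓ : 0 ≤ Real.log (N : ℝ) := Real.log_natCast_nonneg N
  have t1 : 0 ≤ (3 * (N : ℝ) ^ (1 - δ) + (2 * N / y) * (2 * Real.log N) ^ 16) * (4 * Real.log N ^ 2 / δ ^ 2) := by
    positivity
  have t2 : 0 ≤ (N : ℝ) ^ (1 / 4 : ℝ) * (2 * Real.log N / δ) := by positivity
  have h1 := h A hA b hb y hy (by linarith) (by linarith) A (Subset.refl A)
  have hA0 : (0 : ℝ) < A.card := by linarith
  have hAne : A.Nonempty := by
    rw [← card_pos]
    exact_mod_cast hA0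
  have h2 : ∑ _a ∈ A, (4 / (1 - 2 * δ) + δ) * (y : ℝ) < ∑ a ∈ A, (pn (a + b) y : ℝ) * Real.log N :=
    sum_lt_sum_of_nonempty hAne hbad
  rw [sum_const, nsmul_eq_mul, ← sum_mul] at h2
  have e : (A.card : ℝ) * ((4 / (1 - 2 * δ) + δ) * (y : ℝ)) = (4 / (1 - 2 * δ) * A.card + δ * A.card) * y := by ring
  linarith

/-- the constants -/
lemma consts (k : ℕ) (ε : ℝ) (hε : 0 < ε) : ∃ δ : ℝ, 0 < δ ∧ δ ≤ 1 / 8 ∧ δ ≤ ε ∧
    (1 / 4 : ℝ) ^ k - ε / 2 ≤ (1 - 2 * δ) / ((1 + δ) * (4 / (1 - 2 * δ) + δ)) ^ k := by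
  have hc : Tendsto (fun δ : ℝ => (1 - 2 * δ) / ((1 + δ) * (4 / (1 - 2 * δ) + δ)) ^ k) (𝓝[>] 0)
      (𝓝 ((1 / 4 : ℝ) ^ k)) := by
    have h1 : ContinuousAt (fun δ : ℝ => (1 - 2 * δ) / ((1 + δ) * (4 / (1 - 2 * δ) + δ)) ^ k) 0 := by
      apply ContinuousAt.div
      · fun_prop
      · apply ContinuousAt.pow
        apply ContinuousAt.mul
        · fun_prop
        · apply ContinuousAt.add _ continuousAt_id
          apply ContinuousAt.div
          · fun_prop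
          · fun_prop
          · norm_num
      · norm_num
    have h2 := h1.tendsto
    have e : (1 - 2 * (0 : ℝ)) / ((1 + 0) * (4 / (1 - 2 * 0) + 0)) ^ k = (1 / 4 : ℝ) ^ k := by
      rw [one_div, inv_pow]
      norm_num
    rw [e] at h2
    exact h2.mono_left nhdsWithin_le_nhds
  have h1 := hc.eventually (lt_mem_nhds (show (1 / 4 : ℝ) ^ k - ε / 2 < (1 / 4 : ℝ) ^ k by linarith))
  have h2 : ∀ᶠ δ : ℝ in 𝓝[>] 0, δ < min (1 / 8) ε :=
    (gt_mem_nhds (show (0 : ℝ) < min (1 / 8) ε by positivity)).filter_mono nhdsWithin_le_nhds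
  obtain ⟨δ, h3, h4, h5⟩ := (h1.and (h2.and self_mem_nhdsWithin)).exists
  exact ⟨δ, h5, (h4.le.trans (min_le_left _ _)), h4.le.trans (min_le_right _ _), h3.le⟩

lemma consts2 (k : ℕ) (ε : ℝ) (hε : 0 < ε) : ∃ η : ℝ, 0 < η ∧ η ≤ 1 / 8 ∧
    (1 + η) ^ (k + 1) ≤ 1 + ε ∧ 1 - ε ≤ (1 - 5 * η) ^ k * (1 - 2 * η) := by
  have hc1 : Tendsto (fun η : ℝ => (1 + η) ^ (k + 1)) (𝓝[>] 0) (𝓝 1) := by
    have h1 : ContinuousAt (fun η : ℝ => (1 + η) ^ (k + 1)) 0 := by fun_prop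
    have h2 := h1.tendsto
    rw [show ((1 : ℝ) + 0) ^ (k + 1) = 1 by norm_num] at h2
    exact h2.mono_left nhdsWithin_le_nhds
  have hc2 : Tendsto (fun η : ℝ => (1 - 5 * η) ^ k * (1 - 2 * η)) (𝓝[>] 0) (𝓝 1) := by
    have h1 : ContinuousAt (fun η : ℝ => (1 - 5 * η) ^ k * (1 - 2 * η)) 0 := by fun_prop
    have h2 := h1.tendsto
    rw [show ((1 : ℝ) - 5 * 0) ^ k * (1 - 2 * 0) = 1 by norm_num] at h2
    exact h2.mono_left nhdsWithin_le_nhds
  have h1 := hc1.eventually (gt_mem_nhds (show (1 : ℝ) < 1 + ε by linarith))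
  have h2 := hc2.eventually (lt_mem_nhds (show (1 : ℝ) - ε < 1 by linarith))
  have h3 : ∀ᶠ δ : ℝ in 𝓝[>] 0, δ < 1 / 8 :=
    (gt_mem_nhds (show (0 : ℝ) < 1 / 8 by norm_num)).filter_mono nhdsWithin_le_nhds
  obtain ⟨η, h4, h5, h6, h7⟩ := (h1.and (h2.and (h3.and self_mem_nhdsWithin))).exists
  exact ⟨η, h7, h6.le, h4.le, h5.le⟩

lemma dens_triv (n N : ℕ) (H ℓ : ℝ) (hn : n ≤ 4 * N) (hH : 0 < H)
    (hlog4 : Real.log ((4 * N : ℕ) : ℝ) ≤ ℓ ^ 2) : dens n H ≤ ℓ ^ 2 := by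
  unfold dens
  rw [div_le_iff₀ hH]
  have h1 : (pn n ⌊H⌋₊ : ℝ) ≤ H := by
    have : (pn n ⌊H⌋₊ : ℝ) ≤ (⌊H⌋₊ : ℝ) := by exact_mod_cast pn_le _ _
    exact this.trans (Nat.floor_le hH.le)
  have h2 : Real.log (n : ℝ) ≤ ℓ ^ 2 := by
    rcases Nat.eq_zero_or_pos n with h0 | h0
    · rw [h0, Nat.cast_zero, Real.log_zero]
      positivity
    · refine le_trans (Real.log_le_log (by exact_mod_cast h0) ?_) hlog4
      exact_mod_cast hn
  calc (pn n ⌊H⌋₊ : ℝ) * Real.log n ≤ H * ℓ ^ 2 := by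
        apply mul_le_mul h1 h2 (Real.log_natCast_nonneg n) hH.le
    _ = _ := by ring

/-- many points at which all the densities are not small -/
lemma many_pts {k : ℕ} (N M : ℕ) (u : Fin k → ℕ → ℕ) (t : Fin k → ℕ) (δ ε ℓ : ℝ)
    (hδ : 0 < δ) (hδ1 : δ ≤ 1 / 8) (hε : 0 < ε) (hℓN : ℓ = Real.log N) (hℓ : 1 ≤ ℓ)
    (hu : ∀ j, Set.InjOn (u j) (Icc 1 M)) (hu2 : ∀ j, ∀ i ∈ Icc 1 M, u j i ∈ Icc 1 N)
    (ht : ∀ j, t j ∈ Icc 1 N)
    (h4N : Real.log ((4 * N : ℕ) : ℝ) ≤ (1 + δ) * ℓ) (hlog4 : Real.log ((4 * N : ℕ) : ℝ) ≤ ℓ ^ 2)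
    (hc : (1 / 4 : ℝ) ^ k - ε / 2 ≤ (1 - 2 * δ) / ((1 + δ) * (4 / (1 - 2 * δ) + δ)) ^ k)
    (hbad : ∀ A : Finset ℕ, (∀ a ∈ A, a ≤ N) → ∀ b ∈ Icc 1 N, ∀ y : ℕ, 1 ≤ y →
      (∀ a ∈ A, (4 / (1 - 2 * δ) + δ) * y < (pn (a + b) y : ℝ) * Real.log N) → (A.card : ℝ) ≤ tau N δ y)
    (H : Fin k → ℝ) (hH : ∀ j, 1 ≤ H j)
    (htau : ∀ j, k * tau N δ ⌊H j⌋₊ * ℓ ^ (2 * k) ≤ δ * M)
    (hmean : (1 - δ) * M ≤ ∑ a ∈ Icc 1 M, ∏ j, dens (u j a + t j) (H j)) :
    ((1 / 4 : ℝ) ^ k - ε) * M ≤ (((Icc 1 M).filter (fun a => ∀ j, ε ≤ dens (u j a + t j) (H j))).card : ℝ) := by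
  classical
  have hM0 : (0 : ℝ) ≤ M := Nat.cast_nonneg M
  have hH0 : ∀ j, 0 < H j := fun j => by linarith [hH j]
  have h2δ : 0 < 1 - 2 * δ := by linarith
  obtain ⟨q, hq⟩ : ∃ q, q = 4 / (1 - 2 * δ) + δ := ⟨_, rfl⟩
  obtain ⟨Q, hQ⟩ : ∃ Q, Q = (1 + δ) * q := ⟨_, rfl⟩
  rw [← hq, ← hQ] at hc
  rw [← hq] at hbad
  have hq4 : 4 ≤ q := by
    rw [hq]
    have : 4 ≤ 4 / (1 - 2 * δ) := by
      rw [le_div_iff₀ h2δ]
      linarith
    linarith
  have hQ4 : 4 ≤ Q := by rw [hQ]; nlinarith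
  have hQk : 0 < Q ^ k := by positivity
  have hF0 : ∀ a, 0 ≤ ∏ j, dens (u j a + t j) (H j) := fun a => prod_nonneg fun j _ => dens_nonneg _ (hH0 j).le
  obtain ⟨Gd, hGd⟩ : ∃ Gd, Gd = (Icc 1 M).filter (fun a => ∀ j, ε ≤ dens (u j a + t j) (H j)) := ⟨_, rfl⟩
  rw [← hGd]
  obtain ⟨Bd, hBd⟩ : ∃ Bd : Fin k → Finset ℕ, Bd = fun j => (Icc 1 M).filter (fun a =>
    q * (⌊H j⌋₊ : ℕ) < (pn (u j a + t j) ⌊H j⌋₊ : ℝ) * Real.log N) := ⟨_, rfl⟩
  have hfl : ∀ j, 1 ≤ ⌊H j⌋₊ := fun j => Nat.le_floor (by exact_mod_cast hH j)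
  have hBdc : ∀ j, ((Bd j).card : ℝ) ≤ tau N δ ⌊H j⌋₊ := by
    intro j
    have e1 := hbad ((Bd j).image (u j)) (by
      intro a ha
      rw [mem_image] at ha
      obtain ⟨i, hi, rfl⟩ := ha
      rw [hBd] at hi
      exact (mem_Icc.1 (hu2 j i (mem_filter.1 hi).1)).2) (t j) (ht j) ⌊H j⌋₊ (hfl j) (by
      intro a ha
      rw [mem_image] at ha
      obtain ⟨i, hi, rfl⟩ := ha
      rw [hBd] at hi
      exact (mem_filter.1 hi).2)
    rw [card_image_of_injOn] at e1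
    · exact e1
    · intro a ha b hb hab
      rw [hBd] at ha hb
      exact hu j (mem_coe.2 (mem_filter.1 (mem_coe.1 ha)).1) (mem_coe.2 (mem_filter.1 (mem_coe.1 hb)).1) hab
  obtain ⟨BB, hBB⟩ : ∃ BB : Finset ℕ, BB = univ.biUnion Bd := ⟨_, rfl⟩
  have hBBM : BB ⊆ Icc 1 M := by
    rw [hBB, biUnion_subset]
    intro j _
    rw [hBd]
    exact filter_subset _ _
  have hn4 : ∀ a ∈ Icc 1 M, ∀ j, u j a + t j ≤ 4 * N := by
    intro a ha j
    have h1 := (mem_Icc.1 (hu2 j a ha)).2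
    have h2 := (mem_Icc.1 (ht j)).2
    omega
  have hBBs : ∑ a ∈ BB, ∏ j, dens (u j a + t j) (H j) ≤ δ * M := by
    have e1 : ∀ a ∈ BB, ∏ j, dens (u j a + t j) (H j) ≤ ℓ ^ (2 * k) := by
      intro a ha
      have e2 : ℓ ^ (2 * k) = ∏ _j : Fin k, ℓ ^ 2 := by
        rw [prod_const, card_univ, Fintype.card_fin, pow_mul]
      rw [e2]
      apply Finset.prod_le_prod
      · intro j _
        exact dens_nonneg _ (hH0 j).le
      · intro j _
        exact dens_triv _ N (H j) ℓ (hn4 a (hBBM ha) j) (hH0 j) hlog4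
    refine (sum_le_sum e1).trans ?_
    rw [sum_const, nsmul_eq_mul]
    rcases Nat.eq_zero_or_pos k with hk | hk
    · have : BB = ∅ := by
        rw [hBB]
        subst hk
        simp
      rw [this, card_empty, Nat.cast_zero, zero_mul]
      positivity
    · have hk0 : (0 : ℝ) < k := by exact_mod_cast hk
      have e3 : (BB.card : ℝ) ≤ ∑ j, ((Bd j).card : ℝ) := by
        rw [hBB]
        exact_mod_cast card_biUnion_le
      have e4 : ∑ j, ((Bd j).card : ℝ) * (k * ℓ ^ (2 * k)) ≤ ∑ _j : Fin k, δ * M := by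
        apply sum_le_sum
        intro j _
        refine le_trans ?_ (htau j)
        calc ((Bd j).card : ℝ) * (k * ℓ ^ (2 * k)) ≤ tau N δ ⌊H j⌋₊ * (k * ℓ ^ (2 * k)) :=
              mul_le_mul_of_nonneg_right (hBdc j) (by positivity)
          _ = _ := by ring
      rw [← sum_mul, sum_const, card_univ, Fintype.card_fin, nsmul_eq_mul] at e4
      have e5 : (∑ j, ((Bd j).card : ℝ)) * ℓ ^ (2 * k) ≤ δ * M := by
        have : k * ((∑ j, ((Bd j).card : ℝ)) * ℓ ^ (2 * k)) ≤ k * (δ * M) := by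
          calc _ = (∑ j, ((Bd j).card : ℝ)) * (k * ℓ ^ (2 * k)) := by ring
            _ ≤ _ := e4
        exact le_of_mul_le_mul_left this hk0
      refine le_trans ?_ e5
      exact mul_le_mul_of_nonneg_right e3 (by positivity)
  -- upper bound off the bad points
  have hDQ : ∀ a ∈ Icc 1 M, a ∉ BB → ∀ j, dens (u j a + t j) (H j) ≤ Q := by
    intro a ha haB j
    have h1 : (pn (u j a + t j) ⌊H j⌋₊ : ℝ) * Real.log N ≤ q * (⌊H j⌋₊ : ℕ) := by
      by_contra hcon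
      apply haB
      rw [hBB, mem_biUnion]
      refine ⟨j, mem_univ _, ?_⟩
      rw [hBd]
      exact mem_filter.2 ⟨ha, not_le.1 hcon⟩
    have h2 : Real.log ((u j a + t j : ℕ) : ℝ) ≤ (1 + δ) * ℓ := by
      refine le_trans (Real.log_le_log ?_ ?_) h4N
      · have := (mem_Icc.1 (ht j)).1
        exact_mod_cast (by omega : 0 < u j a + t j)
      · exact_mod_cast hn4 a ha j
    unfold dens
    rw [div_le_iff₀ (hH0 j)]
    have h3 : (0 : ℝ) ≤ (pn (u j a + t j) ⌊H j⌋₊ : ℝ) := Nat.cast_nonneg _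
    have h4 := Nat.floor_le (hH0 j).le
    calc (pn (u j a + t j) ⌊H j⌋₊ : ℝ) * Real.log ((u j a + t j : ℕ) : ℝ) ≤
          (pn (u j a + t j) ⌊H j⌋₊ : ℝ) * ((1 + δ) * ℓ) := mul_le_mul_of_nonneg_left h2 h3
      _ = (1 + δ) * ((pn (u j a + t j) ⌊H j⌋₊ : ℝ) * Real.log N) := by rw [hℓN]; ring
      _ ≤ (1 + δ) * (q * (⌊H j⌋₊ : ℕ)) := mul_le_mul_of_nonneg_left h1 (by linarith)
      _ ≤ (1 + δ) * (q * H j) := by
          apply mul_le_mul_of_nonneg_left _ (by linarith)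
          exact mul_le_mul_of_nonneg_left h4 (by linarith)
      _ = _ := by rw [hQ]; ring
  have hptw : ∀ a ∈ Icc 1 M, a ∉ BB → ∏ j, dens (u j a + t j) (H j) ≤
      (if a ∈ Gd then Q ^ k else 0) + ε / Q * Q ^ k := by
    intro a ha haB
    have hpos : 0 ≤ ε / Q * Q ^ k := by positivity
    split_ifs with hg
    · have : ∏ j, dens (u j a + t j) (H j) ≤ Q ^ k := by
        have e2 : Q ^ k = ∏ _j : Fin k, Q := by rw [prod_const, card_univ, Fintype.card_fin]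
        rw [e2]
        apply Finset.prod_le_prod
        · intro j _
          exact dens_nonneg _ (hH0 j).le
        · intro j _
          exact hDQ a ha haB j
      linarith
    · rw [zero_add]
      rw [hGd, mem_filter, not_and] at hg
      have hg' := hg ha
      push Not at hg'
      obtain ⟨j0, hj0⟩ := hg'
      rw [← mul_prod_erase univ _ (mem_univ j0)]
      have e1 : ∏ j ∈ univ.erase j0, dens (u j a + t j) (H j) ≤ Q ^ (k - 1) := by
        have e2 : Q ^ (k - 1) = ∏ _j ∈ (univ : Finset (Fin k)).erase j0, Q := by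
          rw [prod_const, card_erase_of_mem (mem_univ _), card_univ, Fintype.card_fin]
        rw [e2]
        apply Finset.prod_le_prod
        · intro j _
          exact dens_nonneg _ (hH0 j).le
        · intro j _
          exact hDQ a ha haB j
      have hk : 0 < k := Fin.pos_iff_nonempty.2 ⟨j0⟩
      have e3 : Q ^ k = Q * Q ^ (k - 1) := by
        rw [← pow_succ']
        congr 1
        omega
      calc dens (u j0 a + t j0) (H j0) * ∏ j ∈ univ.erase j0, dens (u j a + t j) (H j) ≤ ε * Q ^ (k - 1) := by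
            apply mul_le_mul hj0.le e1 _ hε.le
            exact prod_nonneg fun j _ => dens_nonneg _ (hH0 j).le
        _ = _ := by
            rw [e3]
            field_simp
  have hmain : ∑ a ∈ Icc 1 M, ∏ j, dens (u j a + t j) (H j) ≤ Gd.card * Q ^ k + M * (ε / Q * Q ^ k) + δ * M := by
    rw [← sum_sdiff hBBM]
    have e1 : ∑ a ∈ Icc 1 M \ BB, ∏ j, dens (u j a + t j) (H j) ≤
        ∑ a ∈ Icc 1 M, ((if a ∈ Gd then Q ^ k else 0) + ε / Q * Q ^ k) := by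
      calc _ ≤ ∑ a ∈ Icc 1 M \ BB, ((if a ∈ Gd then Q ^ k else 0) + ε / Q * Q ^ k) := by
            apply sum_le_sum
            intro a ha
            rw [Finset.mem_sdiff] at ha
            exact hptw a ha.1 ha.2
        _ ≤ _ := by
            apply sum_le_sum_of_subset_of_nonneg sdiff_subset
            intro a _ _
            split_ifs <;> positivity
    have e2 : ∑ a ∈ Icc 1 M, ((if a ∈ Gd then Q ^ k else 0) + ε / Q * Q ^ k) =
        Gd.card * Q ^ k + M * (ε / Q * Q ^ k) := by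
      rw [sum_add_distrib, sum_const, nsmul_eq_mul, Nat.card_Icc, Nat.add_sub_cancel]
      congr 1
      have hGdM : Gd ⊆ Icc 1 M := by rw [hGd]; exact filter_subset _ _
      rw [← sum_filter, filter_mem_eq_inter, inter_eq_right.2 hGdM, sum_const, nsmul_eq_mul]
    linarith
  have h1 : (1 - 2 * δ) * M ≤ (Gd.card + M * (ε / Q)) * Q ^ k := by
    have e : (Gd.card + M * (ε / Q)) * Q ^ k = Gd.card * Q ^ k + M * (ε / Q * Q ^ k) := by ring
    rw [e]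
    linarith
  have h2 : (1 - 2 * δ) / Q ^ k * M ≤ Gd.card + M * (ε / Q) := by
    rw [div_mul_eq_mul_div, div_le_iff₀ hQk]
    exact h1
  have h3 : ε / Q ≤ ε / 4 := div_le_div_of_nonneg_left hε.le (by norm_num) hQ4
  have h4 := mul_le_mul_of_nonneg_right hc hM0
  have h5 := mul_le_mul_of_nonneg_left h3 hM0
  have h6 : 0 ≤ ε * M := by positivity
  linarith

end Run7.h756.GD
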