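import Pool.Agent.Run7.h756.GD4

set_option autoImplicit false

/-! The final form for general families. -/

namespace Run7.h756.GD

open Finset Filter Topology
open Pool.Agent.H373R2.T7
open Pool.Agent.W301.SS
open Pool.Agent.TH646 Pool.Agent.TH646.TT

lemma ev_X (k C : ℕ) (η : ℝ) (hη : 0 < η) : ∀ᶠ N : ℕ in atTop,
    ∀ M : ℕ, (N : ℝ) ≤ M * Real.log N ^ C → k * (N : ℝ) ^ (1 - η) * Real.log N ^ (2 * k) ≤ η * M := by
  filter_upwards [ev_log (2 * k + C) (k / η) η hη, ev_L 1, eventually_ge_atTop 1] with N h1 h2 h3 M hM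
  have hN0 : (0 : ℝ) < N := by exact_mod_cast h3
  have hℓ0 : 0 < Real.log (N : ℝ) := by linarith
  have hpC : 0 < Real.log (N : ℝ) ^ C := by positivity
  have e1 : k * (N : ℝ) ^ (1 - η) * Real.log N ^ (2 * k) * Real.log N ^ C ≤ η * M * Real.log N ^ C := by
    calc k * (N : ℝ) ^ (1 - η) * Real.log N ^ (2 * k) * Real.log N ^ C =
          η * (((k / η) * Real.log N ^ (2 * k + C)) * (N : ℝ) ^ (1 - η)) := by
            rw [pow_add]
            field_simp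
      _ ≤ η * ((N : ℝ) ^ η * (N : ℝ) ^ (1 - η)) := by gcongr
      _ = η * N := by
            rw [← Real.rpow_add hN0]
            norm_num
      _ ≤ η * (M * Real.log N ^ C) := mul_le_mul_of_nonneg_left hM hη.le
      _ = _ := by ring
  exact le_of_mul_le_mul_right e1 hpC

lemma ev_tau (k C : ℕ) (δ : ℝ) (hδ : 0 < δ) : ∀ᶠ N : ℕ in atTop,
    ∀ M : ℕ, (N : ℝ) ≤ M * Real.log N ^ C → ∀ y : ℕ, Real.log N ^ (2 * k + 19 + C) ≤ 2 * y →
        k * tau N δ y * Real.log N ^ (2 * k) ≤ δ * M := by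
  filter_upwards [ev_log (2 * k + 2 + C) (36 * k / δ ^ 3) δ hδ,
    ev_log (2 * k + 1 + C) (6 * k / δ ^ 2) (3 / 4) (by norm_num), ev_L (48 * k * 2 ^ 16 / δ ^ 3 + 1),
    eventually_ge_atTop 1] with N h1 h2 h4 h3 M hM y hy
  have hN0 : (0 : ℝ) < N := by exact_mod_cast h3
  have hc0 : 0 ≤ 48 * k * 2 ^ 16 / δ ^ 3 := by positivity
  obtain ⟨ℓ, hℓ⟩ : ∃ ℓ, ℓ = Real.log (N : ℝ) := ⟨_, rfl⟩
  unfold tau
  rw [← hℓ] at h1 h2 h4 hM hy ⊢
  have hℓ1 : 1 ≤ ℓ := by linarith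
  have hℓ0 : 0 < ℓ := by linarith
  have hy0 : (0 : ℝ) < y := by
    have : 0 < ℓ ^ (2 * k + 19 + C) := by positivity
    linarith
  have hpC : 0 < ℓ ^ C := by positivity
  have e1 : (k : ℝ) * (3 * (N : ℝ) ^ (1 - δ)) * (4 * ℓ ^ 2 / δ ^ 2) * ℓ ^ (2 * k) * ℓ ^ C ≤ (δ / 3) * N := by
    calc (k : ℝ) * (3 * (N : ℝ) ^ (1 - δ)) * (4 * ℓ ^ 2 / δ ^ 2) * ℓ ^ (2 * k) * ℓ ^ C =
          (δ / 3) * (((36 * k / δ ^ 3) * ℓ ^ (2 * k + 2 + C)) * (N : ℝ) ^ (1 - δ)) := by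
            rw [pow_add, pow_add]
            field_simp
            ring
      _ ≤ (δ / 3) * ((N : ℝ) ^ δ * (N : ℝ) ^ (1 - δ)) := by gcongr
      _ = _ := by
            rw [← Real.rpow_add hN0]
            norm_num
  have e2 : (k : ℝ) * ((2 * N / y) * (2 * ℓ) ^ 16) * (4 * ℓ ^ 2 / δ ^ 2) * ℓ ^ (2 * k) * ℓ ^ C ≤ (δ / 3) * N := by
    have e3 : (24 * k * 2 ^ 16 / δ ^ 3) * ℓ ^ (2 * k + 18 + C) ≤ y := by
      have e4 : (48 * k * 2 ^ 16 / δ ^ 3) * ℓ ^ (2 * k + 18 + C) ≤ ℓ ^ (2 * k + 19 + C) := by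
        rw [show 2 * k + 19 + C = (2 * k + 18 + C) + 1 by ring, pow_succ' ℓ (2 * k + 18 + C)]
        apply mul_le_mul_of_nonneg_right _ (by positivity)
        linarith
      have e5 : (48 * k * 2 ^ 16 / δ ^ 3) * ℓ ^ (2 * k + 18 + C) =
          2 * ((24 * k * 2 ^ 16 / δ ^ 3) * ℓ ^ (2 * k + 18 + C)) := by ring
      linarith
    calc (k : ℝ) * ((2 * N / y) * (2 * ℓ) ^ 16) * (4 * ℓ ^ 2 / δ ^ 2) * ℓ ^ (2 * k) * ℓ ^ C =
          (δ / 3) * (((24 * k * 2 ^ 16 / δ ^ 3) * ℓ ^ (2 * k + 18 + C)) / y * N) := by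
            rw [pow_add, pow_add, mul_pow]
            field_simp
            ring
      _ ≤ (δ / 3) * (1 * N) := by
            apply mul_le_mul_of_nonneg_left _ (by positivity)
            apply mul_le_mul_of_nonneg_right _ hN0.le
            rw [div_le_one hy0]
            exact e3
      _ = _ := by ring
  have e3 : (k : ℝ) * ((N : ℝ) ^ (1 / 4 : ℝ) * (2 * ℓ / δ)) * ℓ ^ (2 * k) * ℓ ^ C ≤ (δ / 3) * N := by
    calc (k : ℝ) * ((N : ℝ) ^ (1 / 4 : ℝ) * (2 * ℓ / δ)) * ℓ ^ (2 * k) * ℓ ^ C =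
          (δ / 3) * (((6 * k / δ ^ 2) * ℓ ^ (2 * k + 1 + C)) * (N : ℝ) ^ (1 / 4 : ℝ)) := by
            rw [pow_add, pow_add]
            field_simp
            ring
      _ ≤ (δ / 3) * ((N : ℝ) ^ (3 / 4 : ℝ) * (N : ℝ) ^ (1 / 4 : ℝ)) := by gcongr
      _ = _ := by
            rw [← Real.rpow_add hN0]
            norm_num
  have e4 : (k : ℝ) * ((3 * (N : ℝ) ^ (1 - δ) + 2 * N / y * (2 * ℓ) ^ 16) * (4 * ℓ ^ 2 / δ ^ 2) +
      (N : ℝ) ^ (1 / 4 : ℝ) * (2 * ℓ / δ)) * ℓ ^ (2 * k) * ℓ ^ C ≤ δ * M * ℓ ^ C := by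
    calc _ = (k : ℝ) * (3 * (N : ℝ) ^ (1 - δ)) * (4 * ℓ ^ 2 / δ ^ 2) * ℓ ^ (2 * k) * ℓ ^ C +
          (k : ℝ) * ((2 * N / y) * (2 * ℓ) ^ 16) * (4 * ℓ ^ 2 / δ ^ 2) * ℓ ^ (2 * k) * ℓ ^ C +
          (k : ℝ) * ((N : ℝ) ^ (1 / 4 : ℝ) * (2 * ℓ / δ)) * ℓ ^ (2 * k) * ℓ ^ C := by ring
      _ ≤ δ * N := by linarith
      _ ≤ δ * (M * ℓ ^ C) := mul_le_mul_of_nonneg_left hM hδ.le
      _ = _ := by ring
  exact le_of_mul_le_mul_right e4 hpC

lemma ev_log4 (η : ℝ) (hη : 0 < η) : ∀ᶠ N : ℕ in atTop,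
    Real.log ((4 * N : ℕ) : ℝ) ≤ (1 + η) * Real.log N := by
  filter_upwards [ev_L (3 / η), eventually_ge_atTop 1] with N h1 h2
  have hN0 : (0 : ℝ) < N := by exact_mod_cast h2
  push_cast
  rw [Real.log_mul (by norm_num) hN0.ne']
  have h4 : Real.log (4 : ℝ) ≤ 3 := by
    have := Real.log_le_sub_one_of_pos (show (0 : ℝ) < 4 by norm_num)
    linarith
  rw [div_le_iff₀ hη] at h1
  linarith

/-- the statement for one tuple of translations -/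
def GoodT (k N K M : ℕ) (ε : ℝ) (u : Fin k → ℕ → ℕ) (t : Fin k → ℕ) : Prop :=
  ∀ H : Fin k → ℝ, (∀ j, Real.log N ^ K ≤ H j ∧ H j ≤ N) →
    |∑ a ∈ Icc 1 M, ∏ j, dens (u j a + t j) (H j) - M| ≤ ε * M ∧
    ((1 / 4 : ℝ) ^ k - ε) * M ≤
      (({a : ℕ | a ∈ Icc 1 M ∧ ∀ j, ε ≤ dens (u j a + t j) (H j)} : Set ℕ).ncard : ℝ)

set_option maxHeartbeats 4000000 in
theorem main (B C k : ℕ) (p : Fin k → ℕ) (U : ℕ) (ε : ℝ) (hε : 0 < ε) : ∃ K : ℕ, ∀ N : ℕ, K ≤ N →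
    ∀ (x : Fin k → ℕ) (s : Fin k → ℕ → ℤ),
    (∀ j, ∀ m ∈ Icc 1 (x j), |s j m| ≤ B * N) →
    (∀ j, (energy (p j) (x j) (s j) : ℝ) * N ≤ Real.log N ^ C * (x j : ℝ) ^ (2 * p j)) →
    ∀ (M : ℕ) (u : Fin k → ℕ → ℕ), (∀ j, Set.InjOn (u j) (Icc 1 M)) →
    (∀ j, ∀ i ∈ Icc 1 M, u j i ∈ Icc 1 N) → (N : ℝ) ≤ M * Real.log N ^ C →
    ∀ S : Finset (Fin k → ℕ), (∀ m ∈ S, (∀ j, m j ∈ Icc 1 (x j) ∧ 0 < s j (m j) ∧ s j (m j) ≤ N) ∧
      ¬ GoodT k N K M ε u (fun j => (s j (m j)).toNat)) →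
    (S.card : ℝ) ≤ (∏ j, (x j : ℝ)) / Real.log N ^ U := by
  classical
  obtain ⟨δ, hδ, hδ1, hδε, hconst⟩ := consts k ε hε
  obtain ⟨η, hη, hη1, he1, he2⟩ := consts2 k δ hδ
  obtain ⟨K0, N1, hcore⟩ := core B C k p (U + 2 * k + C + 1)
  have hlr : 0 < Real.log (1 + η) := Real.log_pos (by linarith)
  obtain ⟨N2, h2⟩ := eventually_atTop.1 ((ev_X k C η hη).and ((ev_tau k C δ hδ).and ((ev_log4 η hη).and
    ((ev_log4 δ hδ).and ((ev_L (2 / η + 1 / Real.log (1 + η) + 8)).and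
    (bad_few δ hδ (by linarith)))))))
  refine ⟨K0 + (2 * k + 19 + C) + N1 + N2 + 16, fun N hN x s hs hE M u hu hu2 hM S hS => ?_⟩
  obtain ⟨K, hK⟩ : ∃ K, K = K0 + (2 * k + 19 + C) + N1 + N2 + 16 := ⟨_, rfl⟩
  rw [← hK] at hN hS
  obtain ⟨c1, c2, c3, c4, c5, c6⟩ := h2 N (by omega)
  have hN0 : (0 : ℝ) < N := by exact_mod_cast (by omega : 0 < N)
  have h2η : 0 < 2 / η := by positivity
  have h1r : 0 < 1 / Real.log (1 + η) := by positivity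
  have hlog4 := log4 (N := N) (by omega) (by linarith)
  have c1' := c1 M hM
  have c2' := c2 M hM
  have hcore' := hcore N (by omega) x s hs hE M u hu hu2
  obtain ⟨ℓ, hℓ⟩ : ∃ ℓ, ℓ = Real.log (N : ℝ) := ⟨_, rfl⟩
  have hX : (1 - η) * ℓ ≤ Real.log ((N : ℝ) ^ (1 - η)) := by
    rw [Real.log_rpow hN0, hℓ]
  have hS' : ∀ m ∈ S, (∀ j, m j ∈ Icc 1 (x j) ∧ 0 < s j (m j) ∧ s j (m j) ≤ N) ∧
      ¬ GoodT k N K M ε u (fun j => (s j (m j)).toNat) := hS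
  unfold GoodT at hS'
  rw [← hℓ] at c1' c2' c3 c4 c5 hlog4 hM hcore' hS' ⊢
  have hℓ1 : 1 ≤ ℓ := by linarith
  have hℓ0 : 0 < ℓ := by linarith
  have hpC : 0 < ℓ ^ C := by positivity
  have hM0 : (0 : ℝ) < M := by
    by_contra hcon
    have h7 : (M : ℝ) ≤ 0 := not_lt.1 hcon
    nlinarith
  have hU : (N : ℝ) / ℓ ^ (U + 2 * k + C + 1) ≤ η * M := by
    rw [div_le_iff₀ (by positivity)]
    have e1 : 1 ≤ η * ℓ := by
      have : 1 / η ≤ ℓ := by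
        have : 2 / η = 1 / η + 1 / η := by ring
        have : 0 < 1 / η := by positivity
        linarith
      rw [div_le_iff₀ hη] at this
      linarith
    have e2 : ℓ ^ C * ℓ ≤ ℓ ^ (U + 2 * k + C + 1) := by
      rw [← pow_succ]
      exact pow_le_pow_right₀ hℓ1 (by omega)
    calc (N : ℝ) ≤ M * ℓ ^ C := hM
      _ ≤ M * ℓ ^ C * (η * ℓ) := le_mul_of_one_le_right (by positivity) e1
      _ = η * M * (ℓ ^ C * ℓ) := by ring
      _ ≤ _ := mul_le_mul_of_nonneg_left e2 (by positivity)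
  obtain ⟨J, hJ⟩ : ∃ J : ℕ, J = ⌊ℓ / Real.log (1 + η) + 1⌋₊ + 1 := ⟨_, rfl⟩
  have hJℓ : (J : ℝ) ≤ ℓ ^ 2 := by
    have e1 : (J : ℝ) ≤ ℓ / Real.log (1 + η) + 2 := by
      rw [hJ]; push_cast
      have := Nat.floor_le (show 0 ≤ ℓ / Real.log (1 + η) + 1 by positivity)
      linarith
    have e2 : ℓ / Real.log (1 + η) = ℓ * (1 / Real.log (1 + η)) := by ring
    rw [e2] at e1
    have e3 : ℓ * (1 / Real.log (1 + η)) ≤ ℓ * (ℓ - 8) := by
      apply mul_le_mul_of_nonneg_left _ hℓ0.le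
      linarith
    nlinarith
  obtain ⟨SI, hSI⟩ : ∃ SI : (Fin k → ℕ) → Finset (Fin k → ℕ), SI = fun i => S.filter (fun m =>
    (∀ j, ℓ ^ K0 ≤ gr η (i j) ∧ gr η (i j) ≤ 2 * N) ∧
    N / ℓ ^ (U + 2 * k + C + 1) < |∑ a ∈ Icc 1 M, PR (fun j => gr η (i j)) u (fun j => (s j (m j)).toNat) a - M|) :=
    ⟨_, rfl⟩
  have hSIc : ∀ i, ((SI i).card : ℝ) ≤ (∏ j, (x j : ℝ)) / ℓ ^ (U + 2 * k + C + 1) := by
    intro i
    by_cases hi : ∀ j, ℓ ^ K0 ≤ gr η (i j) ∧ gr η (i j) ≤ 2 * N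
    · apply hcore' (fun j => gr η (i j)) hi
      intro m hm
      rw [hSI] at hm
      have := mem_filter.1 hm
      exact ⟨(hS' m this.1).1, this.2.2⟩
    · have : SI i = ∅ := by
        rw [hSI]
        simp only
        rw [filter_eq_empty_iff]
        intro m _ hm
        exact hi hm.1
      rw [this, card_empty, Nat.cast_zero]
      have : 0 ≤ ∏ j, (x j : ℝ) := prod_nonneg fun _ _ => Nat.cast_nonneg _
      positivity
  have hcov : S ⊆ (Fintype.piFinset fun _ : Fin k => range J).biUnion SI := by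
    intro m hm
    by_contra hcon
    apply (hS' m hm).2
    have hm1 := (hS' m hm).1
    have htN : ∀ j, (s j (m j)).toNat ≤ N := fun j => by have := (hm1 j).2; omega
    have htN1 : ∀ j, (s j (m j)).toNat ∈ Icc 1 N := fun j => by
      have := (hm1 j).2
      rw [mem_Icc]
      omega
    have hgrid : ∀ i : Fin k → ℕ, (∀ j, ℓ ^ K0 ≤ gr η (i j) ∧ gr η (i j) ≤ 2 * N ∧
        (i j : ℝ) ≤ ℓ / Real.log (1 + η) + 1) →
      |∑ a ∈ Icc 1 M, PR (fun j => gr η (i j)) u (fun j => (s j (m j)).toNat) a - M| ≤ η * M := by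
      intro i hi
      by_contra hc
      rw [not_le] at hc
      apply hcon
      rw [mem_biUnion]
      refine ⟨i, ?_, ?_⟩
      · rw [Fintype.mem_piFinset]
        intro j
        rw [mem_range, hJ]
        have := Nat.le_floor (hi j).2.2
        omega
      · rw [hSI]
        exact mem_filter.2 ⟨hm, fun j => ⟨(hi j).1, (hi j).2.1⟩, by linarith⟩
    intro H hH
    have hHK : ∀ j, ℓ ^ (K0 + 1) ≤ H j ∧ H j ≤ N := fun j =>
      ⟨(pow_le_pow_right₀ hℓ1 (by omega)).trans (hH j).1, (hH j).2⟩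
    have hH1 : ∀ j, 1 ≤ H j := fun j => (one_le_pow₀ hℓ1).trans (hH j).1
    have hmean := all_len (ε := δ) K0 N M u (fun j => (s j (m j)).toNat) η ℓ ((N : ℝ) ^ (1 - η)) hη hη1 hℓ
      (by linarith) hu hu2 htN hX (by positivity) c1' c3 hlog4 he1 he2 hgrid H hHK
    refine ⟨hmean.trans (mul_le_mul_of_nonneg_right hδε hM0.le), ?_⟩
    have hm2 := many_pts N M u (fun j => (s j (m j)).toNat) δ ε ℓ hδ hδ1 hε hℓ hℓ1 hu hu2 htN1 c4 hlog4
      hconst (by rw [hℓ] at *; exact c6) H hH1 (by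
      intro j
      apply c2'
      have h1 := (hH j).1
      have h2 : ℓ ^ (2 * k + 19 + C) ≤ ℓ ^ K := pow_le_pow_right₀ hℓ1 (by omega)
      have h3 := Nat.lt_floor_add_one (H j)
      have h4 : (1 : ℝ) ≤ (⌊H j⌋₊ : ℝ) := by exact_mod_cast Nat.le_floor (by exact_mod_cast hH1 j)
      linarith) (by
      have := (abs_le.1 hmean).1
      linarith)
    have e : ({a : ℕ | a ∈ Icc 1 M ∧ ∀ j, ε ≤ dens (u j a + (s j (m j)).toNat) (H j)} : Set ℕ) =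
        (((Icc 1 M).filter (fun a => ∀ j, ε ≤ dens (u j a + (s j (m j)).toNat) (H j)) : Finset ℕ) : Set ℕ) := by
      ext a
      rw [Set.mem_setOf_eq, mem_coe, mem_filter]
    rw [e, Set.ncard_coe_finset]
    exact hm2
  have hX0 : 0 ≤ ∏ j, (x j : ℝ) := prod_nonneg fun _ _ => Nat.cast_nonneg _
  have h1 : (S.card : ℝ) ≤ ∑ i ∈ Fintype.piFinset fun _ : Fin k => range J, ((SI i).card : ℝ) := by
    exact_mod_cast (card_le_card hcov).trans card_biUnion_le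
  calc (S.card : ℝ) ≤ ∑ i ∈ Fintype.piFinset fun _ : Fin k => range J, ((SI i).card : ℝ) := h1
    _ ≤ ∑ _i ∈ Fintype.piFinset fun _ : Fin k => range J, (∏ j, (x j : ℝ)) / ℓ ^ (U + 2 * k + C + 1) :=
        sum_le_sum fun i _ => hSIc i
    _ = (J : ℝ) ^ k * ((∏ j, (x j : ℝ)) / ℓ ^ (U + 2 * k + C + 1)) := by
        rw [sum_const, nsmul_eq_mul, Fintype.card_piFinset]
        simp
    _ ≤ (ℓ ^ 2) ^ k * ((∏ j, (x j : ℝ)) / ℓ ^ (U + 2 * k + C + 1)) := by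
        apply mul_le_mul_of_nonneg_right _ (by positivity)
        exact pow_le_pow_left₀ (Nat.cast_nonneg _) hJℓ k
    _ = (∏ j, (x j : ℝ)) / ℓ ^ (U + C + 1) := by
        rw [← pow_mul, show U + 2 * k + C + 1 = 2 * k + (U + C + 1) by ring, pow_add ℓ (2 * k)]
        field_simp
    _ ≤ _ := by
        apply div_le_div_of_nonneg_left hX0 (by positivity)
        exact pow_le_pow_right₀ hℓ1 (by omega)

end Run7.h756.GD
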