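import Pool.Agent.N490.OW.KT

set_option autoImplicit false

/-! Primes in all intervals `(x, x + x^(1-c)]` from primes in almost all such intervals: the average over a
short window of the discrepancy convolved with `c` is bounded by the product of two mean squares. -/

namespace Run7.h756.HA

open Filter Topology Set MeasureTheory Metric
open scoped Real
open Pool.Agent.W66

/-- the smoothed discrepancy near `e^u` -/
noncomputable def tu (u h : ℝ) (N : ℕ) (x : ℝ) : ℝ := FF u h N {1} (fun _ => 1) x

lemma gg_one (h x : ℝ) : gg h {1} (fun _ => 1) x = tri h x := by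
  unfold gg
  simp

lemma tu_eq (u h : ℝ) (N : ℕ) (x : ℝ) : tu u h N x =
    ∑ n ∈ Finset.Ioc 0 N, ArithmeticFunction.vonMangoldt n / n * hat (u - Real.log n) *
      tri h (x - Real.log n) - ∫ v : ℝ, hat (u - v) * tri h (x - v) := by
  unfold tu FF
  simp only [gg_one]

lemma tu_continuous {h : ℝ} (hh : 0 < h) (u : ℝ) (N : ℕ) : Continuous (tu u h N) :=
  FF_continuous hh u N _ _

lemma tu_compact {h : ℝ} (hh : 0 < h) (u : ℝ) (N : ℕ) : HasCompactSupport (tu u h N) :=
  FF_compact hh u N _ _

lemma hat_tri_integrable {h : ℝ} (hh : 0 < h) (u z : ℝ) : Integrable fun v => hat (u - v) * tri h (z - v) := by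
  have h1 := hat_gg_integrable hh {1} (fun _ => 1) u z
  simpa only [gg_one] using h1

lemma FF_lin {h : ℝ} (hh : 0 < h) (u : ℝ) (N : ℕ) (L : Finset ℕ) (c : ℕ → ℝ) (x : ℝ) :
    FF u h N L c x = ∑ l ∈ L, c l * tu u h N (x - Real.log l) := by
  have e1 : ∫ v : ℝ, hat (u - v) * gg h L c (x - v) =
      ∑ l ∈ L, c l * ∫ v : ℝ, hat (u - v) * tri h (x - Real.log l - v) := by
    have e2 : ∀ v : ℝ, hat (u - v) * gg h L c (x - v) =
        ∑ l ∈ L, c l * (hat (u - v) * tri h (x - Real.log l - v)) := by
      intro v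
      unfold gg
      rw [Finset.mul_sum]
      apply Finset.sum_congr rfl
      intro l _
      rw [show x - v - Real.log l = x - Real.log l - v by ring]
      ring
    simp only [e2]
    rw [integral_finsetSum _ fun (l : ℕ) _ => (hat_tri_integrable hh u (x - Real.log l)).const_mul (c l)]
    apply Finset.sum_congr rfl
    intro l _
    rw [integral_const_mul]
  unfold FF
  rw [e1]
  simp only [tu_eq, mul_sub, Finset.sum_sub_distrib]
  congr 1
  simp only [Finset.mul_sum]
  rw [Finset.sum_comm]
  apply Finset.sum_congr rfl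
  intro n _
  unfold gg
  rw [Finset.mul_sum]
  apply Finset.sum_congr rfl
  intro l _
  rw [show x - Real.log n - Real.log l = x - Real.log l - Real.log n by ring]
  ring

/-- the average of `FF` over a window -/
lemma box_FF {h : ℝ} (hh : 0 < h) (u : ℝ) (N : ℕ) (L : Finset ℕ) (c : ℕ → ℝ) (z : ℝ) :
    ∫ y, box h (z - y) * FF u h N L c y = ∫ x, tu u h N x * bb h L c (z - x) := by
  have htc := tu_continuous hh u N
  have hts := tu_compact hh u N
  have hti : Integrable (tu u h N) := htc.integrable_of_hasCompactSupport hts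
  have hint : ∀ a b : ℝ, Integrable fun y => box h (a - y) * tu u h N (y - b) := by
    intro a b
    refine (hti.comp_sub_right b).bdd_mul (c := 1 / h) ?_ (Eventually.of_forall fun x => ?_)
    · exact ((box_integrable h).comp_sub_left a).aestronglyMeasurable
    · rw [Real.norm_of_nonneg (box_nonneg hh _)]
      exact box_le hh _
  have e1 : ∀ y, box h (z - y) * FF u h N L c y =
      ∑ l ∈ L, c l * (box h (z - y) * tu u h N (y - Real.log l)) := by
    intro y
    rw [FF_lin hh, Finset.mul_sum]
    apply Finset.sum_congr rfl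
    intro l _
    ring
  have e2 : ∀ x, tu u h N x * bb h L c (z - x) =
      ∑ l ∈ L, c l * (box h (z - Real.log l - x) * tu u h N (x - 0)) := by
    intro x
    unfold bb
    rw [Finset.mul_sum]
    apply Finset.sum_congr rfl
    intro l _
    rw [sub_zero, show z - x - Real.log l = z - Real.log l - x by ring]
    ring
  simp only [e1, e2]
  rw [integral_finsetSum _ fun (l : ℕ) _ => (hint z (Real.log l)).const_mul (c l),
    integral_finsetSum _ fun (l : ℕ) _ => (hint (z - Real.log l) 0).const_mul (c l)]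
  apply Finset.sum_congr rfl
  intro l _
  rw [integral_const_mul, integral_const_mul]
  congr 1
  rw [← integral_add_right_eq_self (fun y => box h (z - y) * tu u h N (y - Real.log l)) (Real.log l)]
  congr 1
  ext x
  rw [sub_zero, add_sub_cancel_right, show z - (x + Real.log l) = z - Real.log l - x by ring]

lemma bb_sq_integrable {h : ℝ} (hh : 0 < h) (L : Finset ℕ) (c : ℕ → ℝ) : Integrable fun x => bb h L c x ^ 2 := by
  have hboxL : MemLp (box h) 2 := by
    rw [box_eq]
    exact memLp_indicator_const 2 measurableSet_Icc _ (Or.inr (by simp))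
  have hbL : MemLp (bb h L c) 2 := by
    unfold bb
    apply memLp_finsetSum
    intro l _
    exact (hboxL.comp_measurePreserving (measurePreserving_sub_right volume (Real.log l))).const_mul _
  exact hbL.integrable_sq

/-- the bilinear bound -/
lemma box_FF_le {h : ℝ} (hh : 0 < h) (u : ℝ) (N : ℕ) (L : Finset ℕ) (c : ℕ → ℝ) (z a b s : ℝ) (hs : 0 < s)
    (ha : ∫ x, tu u h N x ^ 2 ≤ a) (hb : ∫ x, bb h L c x ^ 2 ≤ b) :
    |∫ y, box h (z - y) * FF u h N L c y| ≤ s * a + b / s := by
  rw [box_FF hh]
  have hti : Integrable fun x => tu u h N x ^ 2 := FF_sq_integrable hh u N _ _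
  have hbi : Integrable fun x => bb h L c (z - x) ^ 2 := (bb_sq_integrable hh L c).comp_sub_left z
  have e1 : ∫ x, bb h L c (z - x) ^ 2 = ∫ x, bb h L c x ^ 2 :=
    integral_sub_left_eq_self (fun x => bb h L c x ^ 2) volume z
  have h1 : |∫ x, tu u h N x * bb h L c (z - x)| ≤ ∫ x, (s * tu u h N x ^ 2 + bb h L c (z - x) ^ 2 / s) := by
    refine (abs_integral_le_integral_abs).trans ?_
    apply integral_mono_of_nonneg (Eventually.of_forall fun x => abs_nonneg _)
    · exact (hti.const_mul s).add (hbi.div_const s)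
    · apply Eventually.of_forall
      intro x
      show |tu u h N x * bb h L c (z - x)| ≤ s * tu u h N x ^ 2 + bb h L c (z - x) ^ 2 / s
      rw [abs_mul]
      have h2 := sq_nonneg (s * |tu u h N x| - |bb h L c (z - x)|)
      have h3 : 0 ≤ |tu u h N x| * |bb h L c (z - x)| := by positivity
      have h4 : |tu u h N x| * |bb h L c (z - x)| * s ≤ s * (s * tu u h N x ^ 2) + bb h L c (z - x) ^ 2 := by
        have e5 : tu u h N x ^ 2 = |tu u h N x| ^ 2 := (sq_abs _).symm
        have e6 : bb h L c (z - x) ^ 2 = |bb h L c (z - x)| ^ 2 := (sq_abs _).symm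
        rw [e5, e6]
        nlinarith
      have e7 : s * tu u h N x ^ 2 + bb h L c (z - x) ^ 2 / s =
          (s * (s * tu u h N x ^ 2) + bb h L c (z - x) ^ 2) / s := by field_simp
      rw [e7, le_div_iff₀ hs]
      exact h4
  refine h1.trans ?_
  rw [integral_add (hti.const_mul s) (hbi.div_const s), integral_const_mul, integral_div, e1]
  gcongr

lemma integral_tri_shift {h : ℝ} (hh : 0 < h) (x : ℝ) : ∫ v, tri h (x - v) = 1 := by
  rw [integral_sub_left_eq_self (fun v => tri h v) volume x]
  exact integral_tri hh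

/-- pointwise bound for `tu` -/
lemma tu_le {h : ℝ} (hh : 0 < h) (hh1 : h ≤ 1) (u : ℝ) (N : ℕ) (x : ℝ) :
    tu u h N x ^ 2 ≤ 8 * (TT h N x - 1) ^ 2 + 8 * h ^ 2 := by
  have hti : Integrable fun v => tri h (x - v) := (tri_integrable hh).comp_sub_left x
  have h1 : tu u h N x - hat (u - x) * (TT h N x - 1) =
      ∑ n ∈ Finset.Ioc 0 N, ArithmeticFunction.vonMangoldt n / n *
        ((hat (u - Real.log n) - hat (u - x)) * tri h (x - Real.log n)) -
      ∫ v : ℝ, (hat (u - v) - hat (u - x)) * tri h (x - v) := by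
    have e1 : ∫ v : ℝ, (hat (u - v) - hat (u - x)) * tri h (x - v) =
        (∫ v : ℝ, hat (u - v) * tri h (x - v)) - hat (u - x) := by
      have e2 : ∀ v : ℝ, (hat (u - v) - hat (u - x)) * tri h (x - v) =
          hat (u - v) * tri h (x - v) - hat (u - x) * tri h (x - v) := fun v => by ring
      simp only [e2]
      rw [integral_sub (hat_tri_integrable hh u x) (hti.const_mul _), integral_const_mul,
        integral_tri_shift hh, mul_one]
    rw [e1, tu_eq]
    unfold TT
    rw [mul_sub, mul_one, Finset.mul_sum]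
    have e3 : ∀ n ∈ Finset.Ioc 0 N, ArithmeticFunction.vonMangoldt n / n *
        ((hat (u - Real.log n) - hat (u - x)) * tri h (x - Real.log n)) =
        ArithmeticFunction.vonMangoldt n / n * hat (u - Real.log n) * tri h (x - Real.log n) -
        hat (u - x) * (ArithmeticFunction.vonMangoldt n / n * tri h (x - Real.log n)) := fun n _ => by ring
    rw [Finset.sum_congr rfl e3, Finset.sum_sub_distrib]
    ring
  have hlip : ∀ v : ℝ, |(hat (u - v) - hat (u - x)) * tri h (x - v)| ≤ h * tri h (x - v) := by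
    intro v
    rw [abs_mul, abs_of_nonneg (tri_nonneg hh _)]
    rcases le_or_gt h |x - v| with h2 | h2
    · rw [tri_zero_of hh h2, mul_zero, mul_zero]
    · apply mul_le_mul_of_nonneg_right _ (tri_nonneg hh _)
      refine (hat_lip _ _).trans ?_
      rw [show u - v - (u - x) = x - v by ring]
      exact h2.le
  have hTT0 : 0 ≤ TT h N x := by
    unfold TT
    apply Finset.sum_nonneg
    intro n _
    exact mul_nonneg (div_nonneg ArithmeticFunction.vonMangoldt_nonneg (Nat.cast_nonneg _)) (tri_nonneg hh _)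
  have h2 : |tu u h N x - hat (u - x) * (TT h N x - 1)| ≤ h * TT h N x + h := by
    rw [h1]
    refine (abs_sub _ _).trans (add_le_add ?_ ?_)
    · refine (Finset.abs_sum_le_sum_abs _ _).trans ?_
      unfold TT
      rw [Finset.mul_sum]
      apply Finset.sum_le_sum
      intro n _
      have e : 0 ≤ ArithmeticFunction.vonMangoldt n / (n : ℝ) :=
        div_nonneg ArithmeticFunction.vonMangoldt_nonneg (Nat.cast_nonneg _)
      rw [abs_mul, abs_of_nonneg e]
      calc _ ≤ ArithmeticFunction.vonMangoldt n / (n : ℝ) * (h * tri h (x - Real.log n)) :=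
            mul_le_mul_of_nonneg_left (hlip _) e
        _ = _ := by ring
    · refine (abs_integral_le_integral_abs).trans ?_
      calc ∫ v, |(hat (u - v) - hat (u - x)) * tri h (x - v)| ≤ ∫ v, h * tri h (x - v) := by
            apply integral_mono_of_nonneg (Eventually.of_forall fun v => abs_nonneg _) (hti.const_mul h)
            exact Eventually.of_forall hlip
        _ = h := by rw [integral_const_mul, integral_tri_shift hh, mul_one]
  obtain ⟨D, hD⟩ : ∃ D, D = |TT h N x - 1| := ⟨_, rfl⟩
  have hD0 : 0 ≤ D := by rw [hD]; exact abs_nonneg _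
  have h3 : |hat (u - x) * (TT h N x - 1)| ≤ D := by
    rw [abs_mul, abs_of_nonneg (hat_nonneg _), ← hD]
    exact mul_le_of_le_one_left hD0 (hat_le_one _)
  have h4 : TT h N x ≤ D + 1 := by
    have := le_abs_self (TT h N x - 1)
    rw [← hD] at this
    linarith
  have h5 : |tu u h N x| ≤ 2 * D + 2 * h := by
    have h6 := abs_sub_abs_le_abs_sub (tu u h N x) (hat (u - x) * (TT h N x - 1))
    have h7 : h * TT h N x ≤ h * (D + 1) := mul_le_mul_of_nonneg_left h4 hh.le
    have h8 : h * D ≤ 1 * D := mul_le_mul_of_nonneg_right hh1 hD0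
    linarith
  have e9 : (TT h N x - 1) ^ 2 = D ^ 2 := by rw [hD, sq_abs]
  rw [← sq_abs, e9]
  have h10 : |tu u h N x| ^ 2 ≤ (2 * D + 2 * h) ^ 2 := pow_le_pow_left₀ (abs_nonneg _) h5 2
  nlinarith [sq_nonneg (D - h)]

lemma tu_zero {h : ℝ} (hh : 0 < h) (hh1 : h ≤ 1) {u : ℝ} (N : ℕ) {x : ℝ} (hx : 2 ≤ |x - u|) : tu u h N x = 0 := by
  have key : ∀ v : ℝ, hat (u - v) * tri h (x - v) = 0 := by
    intro v
    rcases le_or_gt 1 |u - v| with h1 | h1
    · rw [hat_zero_of h1, zero_mul]
    · rw [tri_zero_of hh, mul_zero]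
      by_contra hc
      rw [not_le] at hc
      have h2 := abs_add_le (x - v) (v - u)
      rw [show x - v + (v - u) = x - u by ring] at h2
      rw [abs_sub_comm v u] at h2
      linarith
  rw [tu_eq]
  have e1 : ∑ n ∈ Finset.Ioc 0 N, ArithmeticFunction.vonMangoldt n / n * hat (u - Real.log n) *
      tri h (x - Real.log n) = 0 := by
    apply Finset.sum_eq_zero
    intro n _
    rw [mul_assoc, key, mul_zero]
  rw [e1]
  simp only [key]
  simp

/-- the mean square of `tu` -/
lemma tu_sq {h : ℝ} (hh : 0 < h) (hh1 : h ≤ 1) (u : ℝ) (N : ℕ) (κ : ℝ)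
    (hκ : ∀ j : ℕ, j < 4 → ∫ x in (u - 2 + j)..(u - 2 + j + 1), (TT h N x - 1) ^ 2 ≤ κ) :
    ∫ x, tu u h N x ^ 2 ≤ 32 * κ + 32 * h ^ 2 := by
  have hTc : Continuous fun x => (TT h N x - 1) ^ 2 := ((TT_continuous h N).sub continuous_const).pow 2
  have e1 : ∫ x, tu u h N x ^ 2 = ∫ x in (u - 2)..(u + 2), tu u h N x ^ 2 := by
    rw [intervalIntegral.integral_of_le (by linarith)]
    symm
    apply setIntegral_eq_integral_of_forall_compl_eq_zero
    intro x hx
    rw [tu_zero hh hh1 N, zero_pow two_ne_zero]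
    rw [Set.mem_Ioc, not_and_or, not_lt, not_le] at hx
    rw [le_abs]
    rcases hx with hx | hx
    · right; linarith
    · left; linarith
  have h1 : ∫ x in (u - 2)..(u + 2), tu u h N x ^ 2 ≤
      ∫ x in (u - 2)..(u + 2), (8 * (TT h N x - 1) ^ 2 + 8 * h ^ 2) := by
    apply intervalIntegral.integral_mono_on (by linarith)
    · exact ((tu_continuous hh u N).pow 2).intervalIntegrable _ _
    · exact ((hTc.const_mul 8).add continuous_const).intervalIntegrable _ _
    · intro x _
      exact tu_le hh hh1 u N x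
  have h2 : ∫ x in (u - 2)..(u + 2), (8 * (TT h N x - 1) ^ 2 + 8 * h ^ 2) =
      8 * (∫ x in (u - 2)..(u + 2), (TT h N x - 1) ^ 2) + 32 * h ^ 2 := by
    rw [intervalIntegral.integral_add ((hTc.const_mul 8).intervalIntegrable _ _) intervalIntegrable_const,
      intervalIntegral.integral_const_mul, intervalIntegral.integral_const, smul_eq_mul]
    ring
  have h3 : ∫ x in (u - 2)..(u + 2), (TT h N x - 1) ^ 2 ≤ 4 * κ := by
    have hi : ∀ a b : ℝ, IntervalIntegrable (fun x => (TT h N x - 1) ^ 2) volume a b :=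
      fun a b => hTc.intervalIntegrable a b
    have k0 := hκ 0 (by norm_num)
    have k1 := hκ 1 (by norm_num)
    have k2 := hκ 2 (by norm_num)
    have k3 := hκ 3 (by norm_num)
    push_cast at k0 k1 k2 k3
    rw [show u - 2 + 0 = u - 2 by ring, show u - 2 + 1 = u - 1 by ring] at k0
    rw [show u - 2 + 1 = u - 1 by ring, show u - 1 + 1 = u by ring] at k1
    rw [show u - 2 + 2 = u by ring] at k2
    rw [show u - 2 + 3 = u + 1 by ring, show u + 1 + 1 = u + 2 by ring] at k3
    have s1 := intervalIntegral.integral_add_adjacent_intervals (hi (u - 2) (u - 1)) (hi (u - 1) u)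
    have s2 := intervalIntegral.integral_add_adjacent_intervals (hi (u - 2) u) (hi u (u + 1))
    have s3 := intervalIntegral.integral_add_adjacent_intervals (hi (u - 2) (u + 1)) (hi (u + 1) (u + 2))
    linarith
  rw [e1]
  linarith

end Run7.h756.HA
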