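import Pool.Agent.Run7.h756.HA1

set_option autoImplicit false

/-! Primes in all intervals: the pointwise form (adapted from `Pool.Agent.N490.OW.kt`). -/

namespace Run7.h756.HA

open Filter Topology Set MeasureTheory Metric
open scoped Real
open Pool.Agent.W66
open Pool.Agent.N176.OW (S_PV S_KT)

lemma ev_pow (D : ℕ) (c : ℝ) : ∀ᶠ Z : ℝ in atTop, c * (Z ^ D * Real.exp (-√Z)) ≤ 1 := by
  have h1 := (Real.tendsto_pow_mul_exp_neg_atTop_nhds_zero (2 * D)).comp Real.tendsto_sqrt_atTop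
  have h2 : ∀ᶠ Z : ℝ in atTop, (√Z) ^ (2 * D) * Real.exp (-√Z) < 1 / (|c| + 1) :=
    h1.eventually_lt_const (by positivity)
  filter_upwards [h2, eventually_ge_atTop 0] with Z h3 h4
  rw [pow_mul, Real.sq_sqrt h4, lt_div_iff₀ (by positivity)] at h3
  have h5 : 0 ≤ Z ^ D * Real.exp (-√Z) := by positivity
  have h6 := le_abs_self c
  nlinarith

lemma ev_half (D : ℕ) : ∀ᶠ Z : ℝ in atTop, 200 * (Z ^ D * Real.exp (-(Z / 2))) ≤ 1 := by
  have h0 : Tendsto (fun Z : ℝ => Z / 2) atTop atTop := tendsto_id.atTop_div_const (by norm_num)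
  have h1 := (Real.tendsto_pow_mul_exp_neg_atTop_nhds_zero D).comp h0
  have h2 : ∀ᶠ Z : ℝ in atTop, (Z / 2) ^ D * Real.exp (-(Z / 2)) < 1 / (200 * 2 ^ D) :=
    h1.eventually_lt_const (by positivity)
  filter_upwards [h2] with Z h3
  rw [div_pow, lt_div_iff₀ (by positivity)] at h3
  have : Z ^ D / 2 ^ D * Real.exp (-(Z / 2)) * (200 * 2 ^ D) =
    200 * (Z ^ D * Real.exp (-(Z / 2))) := by field_simp
  linarith

set_option maxHeartbeats 4000000 in
theorem pw (hKT : S_KT) (A : ℕ) : ∃ c0 Z0 : ℝ, 0 < c0 ∧ 1 ≤ Z0 ∧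
    ∀ Z lam h : ℝ, Z0 ≤ Z → h = Real.exp (-lam) → √(Z + 6) ≤ lam → lam ≤ c0 * Z →
    ∀ N : ℕ, Real.exp (Z + 2) ≤ N →
    |∫ y, box h (Z + 1 / 2 - y) * (TT h N y - 1)| ≤ 1 / Z ^ A := by
  set D := A + 4 with hD
  obtain ⟨c1, Z1, hc1, hZ11, hK⟩ := hKT (2 * A + 16)
  obtain ⟨Cz, hCz, hmz⟩ := m0_bound (2 * D)
  obtain ⟨Cl, hCl, hml⟩ := m1_bound (2 * D)
  set Cd := max Cz Cl with hCd
  have hCd0 : 0 < Cd := lt_of_lt_of_le hCz (le_max_left _ _)
  -- the constants
  set K2 : ℝ := 60 * (Cd + 1) with hK2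
  set Ca : ℝ := 32 * (16 ^ (2 * A + 16) + 1) with hCa
  have hCa0 : 0 < Ca := by positivity
  obtain ⟨Z2, hZ2⟩ := ((ev_pow D 11).and ((ev_half D).and (ev_pow (2 * A + 16) 1))).exists_forall_of_atTop
  refine ⟨min (1 / 16) (c1 / 16), max (max Z2 (16 * Z1)) (K2 + 224 + 2 * Ca + 100), by positivity, by
    refine le_trans ?_ (le_max_right _ _); have : 0 < K2 := by positivity
    linarith, fun Z lam h hZ hh hlam1 hlam2 N hN => ?_⟩
  have hZK : K2 + 224 + 2 * Ca + 100 ≤ Z := (le_max_right _ _).trans hZ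
  have hK20 : 0 < K2 := by positivity
  have hZ100 : 100 ≤ Z := by linarith
  have hZ16 : 16 * Z1 ≤ Z := ((le_max_right _ _).trans (le_max_left _ _)).trans hZ
  obtain ⟨hE1, hE2, hE3⟩ := hZ2 Z (((le_max_left _ _).trans (le_max_left _ _)).trans hZ)
  have hZ0 : 0 < Z := by linarith
  have hZD0 : 0 < Z ^ D := by positivity
  have hh0 : 0 < h := by rw [hh]; exact Real.exp_pos _
  have hlamZ : √Z ≤ lam := (Real.sqrt_le_sqrt (by linarith)).trans hlam1
  have hsq1 : 1 ≤ √Z := by rw [Real.one_le_sqrt]; linarith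
  have hlam0 : 1 ≤ lam := hsq1.trans hlamZ
  have hh1 : h ≤ 1 := by rw [hh]; exact Real.exp_le_one_iff.2 (by linarith)
  have hlam16 : lam ≤ Z / 16 := by
    refine hlam2.trans ?_
    have : min (1 / 16) (c1 / 16) ≤ (1 / 16 : ℝ) := min_le_left _ _
    have := mul_le_mul_of_nonneg_right this hZ0.le
    linarith
  have hlamc : lam ≤ c1 * (Z / 16) := by
    refine hlam2.trans ?_
    have : min (1 / 16) (c1 / 16) ≤ (c1 / 16 : ℝ) := min_le_right _ _
    have := mul_le_mul_of_nonneg_right this hZ0.le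
    linarith
  -- parameters
  set w := ⌈Real.exp lam⌉₊ with hw
  have hw1 : Real.exp lam ≤ w := Nat.le_ceil _
  have hw2 : (w : ℝ) ≤ 2 * Real.exp lam := by
    have h1 : (w : ℝ) < Real.exp lam + 1 := Nat.ceil_lt_add_one (Real.exp_pos _).le
    have h2 : 1 ≤ Real.exp lam := Real.one_le_exp (by linarith)
    linarith
  have hw0 : (0 : ℝ) < w := lt_of_lt_of_le (Real.exp_pos _) hw1
  have hwn : 2 ≤ w := by
    have h2 : (2 : ℝ) ≤ w := by
      refine le_trans ?_ hw1
      have := Real.add_one_le_exp lam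
      linarith
    exact_mod_cast h2
  have hlw1 : lam ≤ Real.log w := by rw [Real.le_log_iff_exp_le hw0]; exact hw1
  have hlw2 : Real.log w ≤ lam + 1 := by
    rw [Real.log_le_iff_le_exp hw0, Real.exp_add]
    have h1 : (2 : ℝ) ≤ Real.exp 1 := by linarith [Real.exp_one_gt_d9]
    have h2 := mul_le_mul_of_nonneg_left h1 (Real.exp_pos lam).le
    linarith
  set u0 := ⌈Z / 8⌉₊ with hu0
  have hu0a : Z / 8 ≤ u0 := Nat.le_ceil _
  have hu0pos : 0 < Z / 8 := by positivity
  have hu0b : (u0 : ℝ) ≤ Z / 4 + 1 := by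
    have h1 : (u0 : ℝ) < Z / 8 + 1 := Nat.ceil_lt_add_one hu0pos.le
    linarith
  have hu01 : 1 ≤ u0 := Nat.ceil_pos.2 hu0pos
  set U := ⌈Z + 2⌉₊ with hU
  have hU1 : Z + 2 ≤ U := Nat.le_ceil _
  have hU2 : (U : ℝ) ≤ Z + 3 := by
    have := Nat.ceil_lt_add_one (show 0 ≤ Z + 2 by linarith)
    linarith
  have hu0U : u0 ≤ U := by
    have : (u0 : ℝ) ≤ U := by linarith
    exact_mod_cast this
  set N' := ⌈Real.exp ((U : ℝ) + 4)⌉₊ with hN'
  have hN'4 : Real.exp ((U : ℝ) + 4) ≤ N' := Nat.le_ceil _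
  have hN'1 : Real.exp ((U : ℝ) + 1) ≤ N' := le_trans (Real.exp_le_exp.2 (by linarith)) hN'4
  have hN'0 : (0 : ℝ) < N' := lt_of_lt_of_le (Real.exp_pos _) hN'1
  have hN'n : 1 ≤ N' := by exact_mod_cast (Nat.ceil_pos.2 (Real.exp_pos _))
  have hN'2 : Real.log N' ≤ Z + 8 := by
    rw [Real.log_le_iff_le_exp hN'0]
    have h1 : (N' : ℝ) < Real.exp ((U : ℝ) + 4) + 1 := Nat.ceil_lt_add_one (Real.exp_pos _).le
    have h2 : Real.exp ((U : ℝ) + 4) ≤ Real.exp (Z + 7) := Real.exp_le_exp.2 (by linarith)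
    have h3 : Real.exp (Z + 8) = Real.exp (Z + 7) * Real.exp 1 := by
      rw [← Real.exp_add]; congr 1; ring
    have h4 : 1 ≤ Real.exp (Z + 7) := Real.one_le_exp (by linarith)
    have h5 : (2 : ℝ) ≤ Real.exp 1 := by linarith [Real.exp_one_gt_d9]
    have h6 := mul_le_mul_of_nonneg_left h5 (Real.exp_pos (Z + 7)).le
    rw [h3]
    linarith
  -- smallness of the Moebius sums
  set δ := Cd / Z ^ D with hδ
  have hpowD : Z ^ D ≤ Real.log w ^ (2 * D) := by
    rw [pow_mul]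
    have h1 : Z ≤ Real.log w ^ 2 := by
      have h2 : √Z ≤ Real.log w := hlamZ.trans hlw1
      calc Z = √Z ^ 2 := (Real.sq_sqrt hZ0.le).symm
        _ ≤ _ := by gcongr
    gcongr
  have hδ1 : |mz w| ≤ δ := by
    refine (hmz w hwn).trans ?_
    have : Cz ≤ Cd := le_max_left _ _
    rw [hδ]
    gcongr
  have hδ2 : |ml w + 1| ≤ δ := by
    refine (hml w hwn).trans ?_
    have : Cl ≤ Cd := le_max_right _ _
    rw [hδ]
    gcongr
  have hexp : Real.exp (-lam) ≤ 1 / Z ^ D := by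
    rw [le_div_iff₀ hZD0]
    have h1 : Real.exp (-lam) ≤ Real.exp (-√Z) := Real.exp_le_exp.2 (by linarith)
    have h2 : Real.exp (-lam) * Z ^ D ≤ Real.exp (-√Z) * Z ^ D :=
      mul_le_mul_of_nonneg_right h1 hZD0.le
    have h3 : 0 ≤ Z ^ D * Real.exp (-√Z) := by positivity
    linarith
  have hexp2 : 200 * Real.exp (-(Z / 2)) ≤ 1 / Z ^ D := by
    rw [le_div_iff₀ hZD0]
    linarith
  have hε : w * (32 * Real.exp (u0 - Z) / h ^ 2) ≤ 1 / Z ^ D := by
    refine le_trans ?_ hexp2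
    have e1 : w * (32 * Real.exp (u0 - Z) / h ^ 2) = w * 32 * Real.exp (u0 - Z) * Real.exp (2 * lam) := by
      rw [hh, ← Real.exp_nat_mul, div_eq_mul_inv, ← Real.exp_neg]
      have : -(((2 : ℕ) : ℝ) * -lam) = 2 * lam := by push_cast; ring
      rw [this]
      ring
    rw [e1]
    calc w * 32 * Real.exp (u0 - Z) * Real.exp (2 * lam) ≤
          (2 * Real.exp lam) * 32 * Real.exp (u0 - Z) * Real.exp (2 * lam) := by gcongr
      _ = 64 * (Real.exp lam * Real.exp (u0 - Z) * Real.exp (2 * lam)) := by ring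
      _ = 64 * Real.exp (3 * lam + u0 - Z) := by
          rw [← Real.exp_add, ← Real.exp_add]
          congr 2
          ring
      _ ≤ 64 * Real.exp (-(Z / 2) + 1) :=
          mul_le_mul_of_nonneg_left (Real.exp_le_exp.2 (by linarith)) (by norm_num)
      _ = 64 * Real.exp 1 * Real.exp (-(Z / 2)) := by rw [Real.exp_add]; ring
      _ ≤ 200 * Real.exp (-(Z / 2)) := by
          have := Real.exp_one_lt_d9
          gcongr
          linarith
  have hε2 : 4 * w / Real.exp (Z - u0 - 2) ≤ 1 / Z ^ D := by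
    refine le_trans ?_ hexp2
    have e1 : 4 * w / Real.exp (Z - u0 - 2) = 4 * w * Real.exp (-(Z - u0 - 2)) := by
      rw [Real.exp_neg, div_eq_mul_inv]
    rw [e1]
    calc 4 * w * Real.exp (-(Z - u0 - 2)) ≤ 4 * (2 * Real.exp lam) * Real.exp (-(Z - u0 - 2)) := by
          gcongr
      _ = 8 * Real.exp (lam + (-(Z - u0 - 2))) := by rw [Real.exp_add]; ring
      _ ≤ 8 * Real.exp (-(Z / 2) + 3) :=
          mul_le_mul_of_nonneg_left (Real.exp_le_exp.2 (by linarith)) (by norm_num)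
      _ = 8 * Real.exp 1 ^ 3 * Real.exp (-(Z / 2)) := by
          rw [Real.exp_add, ← Real.exp_nat_mul]
          push_cast
          ring_nf
      _ ≤ 200 * Real.exp (-(Z / 2)) := by
          have h1 := Real.exp_one_lt_d9
          have h2 : Real.exp 1 ^ 3 ≤ 2.72 ^ 3 :=
            pow_le_pow_left₀ (Real.exp_pos 1).le (by linarith) 3
          apply mul_le_mul_of_nonneg_right _ (Real.exp_pos _).le
          linarith
  -- the pointwise error
  set F := fun z : ℝ => ∑ u ∈ Finset.Icc u0 U, FF u h N' (Finset.Ioc 0 N')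
    (fun l => aw w l / l) z with hF
  have hpt : ∀ z, Z ≤ z → z ≤ Z + 1 → |TT h N z - 1 - F z| ≤ K2 * (Z ^ 2 / Z ^ D) := by
    intro z hz1 hz2
    have hzN : Real.exp (z + h) ≤ N := le_trans (Real.exp_le_exp.2 (by linarith)) hN
    have hzN' : Real.exp (z + h) ≤ N' := le_trans (Real.exp_le_exp.2 (by linarith)) hN'1
    rw [TT_indep hh0 hzN' hzN]
    have h1 := KT_ineq hh0 hh1 w N' u0 U (by omega) hz1 hz2 hu01 hu0U hU1 hN'1 (by linarith)
      hδ1 hδ2
    refine h1.trans ?_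
    set ι := 1 / Z ^ D with hι
    have hι0 : 0 < ι := by positivity
    have eδ : δ = Cd * ι := by rw [hδ, hι]; ring
    have t1 : (z + 1) * δ ≤ (2 * Z) * (Cd * ι) := by rw [eδ]; gcongr; linarith
    have t2 : h * (1 + Real.log w) ≤ ι * (2 * Z) := by
      apply mul_le_mul _ (by linarith) (by linarith) hι0.le
      rw [hh]; exact hexp
    have t3 : (1 + z) * (w * (32 * Real.exp (u0 - Z) / h ^ 2)) ≤ (2 * Z) * ι := by
      apply mul_le_mul (by linarith) hε (by positivity) (by positivity)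
    have t4 : u0 * (1 + u0) * (δ + w * (32 * Real.exp (u0 - Z) / h ^ 2)) ≤
        Z ^ 2 * (Cd * ι + ι) := by
      rw [eδ]
      apply mul_le_mul _ (by linarith) (by positivity) (by positivity)
      have h5 : (1 : ℝ) ≤ u0 := by exact_mod_cast hu01
      rw [sq]
      exact mul_le_mul (by linarith) (by linarith) (by linarith) hZ0.le
    have t5 : 3 * ((Real.log N' + 2) * δ + 4 * w / (Real.exp (Z - u0 - 2))) ≤
        3 * ((2 * Z) * (Cd * ι) + ι) := by
      rw [eδ]
      gcongr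
      linarith
    have e : K2 * (Z ^ 2 / Z ^ D) = 60 * (Cd + 1) * Z ^ 2 * ι := by rw [hK2, hι]; ring
    rw [e]
    have hZZ : Z ≤ Z ^ 2 := by
      rw [sq]
      exact le_mul_of_one_le_left hZ0.le (by linarith)
    have h11 : 1 ≤ Z ^ 2 := by linarith
    have hCι : 0 < Cd * ι := by positivity
    have f1 : Z * (Cd * ι) ≤ Z ^ 2 * (Cd * ι) := mul_le_mul_of_nonneg_right hZZ hCι.le
    have f2 : Z * ι ≤ Z ^ 2 * ι := mul_le_mul_of_nonneg_right hZZ hι0.le
    have f3 : 1 * ι ≤ Z ^ 2 * ι := mul_le_mul_of_nonneg_right h11 hι0.le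
    have f4 : 0 ≤ Z ^ 2 * (Cd * ι) := by positivity
    have f5 : 0 ≤ Z ^ 2 * ι := by positivity
    have e2 : 60 * (Cd + 1) * Z ^ 2 * ι = 60 * (Z ^ 2 * (Cd * ι)) + 60 * (Z ^ 2 * ι) := by ring
    rw [e2]
    linarith
  -- the bilinear parts
  have hhA : h ≤ 1 / Z ^ (2 * A + 16) := by
    rw [le_div_iff₀ (by positivity), hh]
    have h1 : Real.exp (-lam) ≤ Real.exp (-√Z) := Real.exp_le_exp.2 (by linarith)
    have h2 : Real.exp (-lam) * Z ^ (2 * A + 16) ≤ Real.exp (-√Z) * Z ^ (2 * A + 16) :=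
      mul_le_mul_of_nonneg_right h1 (by positivity)
    linarith
  have hbil : ∀ u ∈ Finset.Icc u0 U, |∫ y, box h (Z + 1 / 2 - y) * FF u h N' (Finset.Ioc 0 N')
      (fun l => aw w l / l) y| ≤ Z ^ (A + 7) * (Ca / Z ^ (2 * A + 16)) + 112 * Z ^ 4 / Z ^ (A + 7) := by
    intro u hu
    rw [Finset.mem_Icc] at hu
    have hu1 : (u0 : ℝ) ≤ u := by exact_mod_cast hu.1
    have hu2 : (u : ℝ) ≤ U := by exact_mod_cast hu.2
    apply box_FF_le hh0 (u : ℝ) N' _ _ _ _ _ _ (by positivity)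
    · have h3 := tu_sq hh0 hh1 (u : ℝ) N' (16 ^ (2 * A + 16) / Z ^ (2 * A + 16)) (by
        intro j hj
        have hj' : (j : ℝ) ≤ 3 := by exact_mod_cast (by omega : j ≤ 3)
        have hj0 : (0 : ℝ) ≤ j := Nat.cast_nonneg j
        have hZ' : Z / 16 ≤ (u : ℝ) - 2 + j := by linarith
        have hb := hK ((u : ℝ) - 2 + j) lam h (by linarith) hh
          ((Real.sqrt_le_sqrt (by linarith)).trans hlam1)
          (hlamc.trans (mul_le_mul_of_nonneg_left hZ' hc1.le)) N'
          (le_trans (Real.exp_le_exp.2 (by linarith)) hN'4)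
        refine hb.trans ?_
        have hpos : 0 < (u : ℝ) - 2 + j := by linarith
        rw [div_le_div_iff₀ (by positivity) (by positivity), one_mul, ← mul_pow]
        apply pow_le_pow_left₀ hZ0.le
        linarith)
      refine h3.trans ?_
      have h4 : h ^ 2 ≤ 1 / Z ^ (2 * A + 16) := by
        refine le_trans ?_ hhA
        rw [sq]
        exact mul_le_of_le_one_left hh0.le hh1
      calc 32 * (16 ^ (2 * A + 16) / Z ^ (2 * A + 16)) + 32 * h ^ 2 ≤
            32 * (16 ^ (2 * A + 16) / Z ^ (2 * A + 16)) + 32 * (1 / Z ^ (2 * A + 16)) := by linarith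
        _ = _ := by rw [hCa]; ring
    · refine (bb_sq_le hh0 hh1 (Finset.Ioc 0 N') _ (fun l hl => (Finset.mem_Ioc.1 hl).1) ?_).trans ?_
      · intro l hl hne
        have hl0 := (Finset.mem_Ioc.1 hl).1
        have hlw : w < l := by
          by_contra hc
          apply hne
          rw [aw_zero_of hl0 (not_lt.1 hc), zero_div]
        have h4 : Real.exp lam ≤ l := hw1.trans (by exact_mod_cast hlw.le)
        rw [hh]
        calc (1 : ℝ) = Real.exp (-lam) * Real.exp lam := by rw [← Real.exp_add]; simp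
          _ ≤ _ := by gcongr
      · have h4 := aw_sum w N' hN'n
        have h5 : 0 ≤ Real.log N' := Real.log_nonneg (by exact_mod_cast hN'n)
        have h6 : (1 + Real.log N') ^ 4 ≤ (2 * Z) ^ 4 := by
          gcongr
          linarith
        have h7 : (2 * Z) ^ 4 = 16 * Z ^ 4 := by ring
        linarith
  -- conclusion
  have hTc := TT_continuous h N
  have hboxi : Integrable fun y => box h (Z + 1 / 2 - y) := (box_integrable h).comp_sub_left _
  have hbox1 : ∫ y, box h (Z + 1 / 2 - y) = 1 := by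
    rw [integral_sub_left_eq_self (fun y => box h y) volume (Z + 1 / 2)]
    exact integral_box hh0
  have hbzero : ∀ y, ¬ (Z ≤ y ∧ y ≤ Z + 1) → box h (Z + 1 / 2 - y) = 0 := by
    intro y hy
    unfold box
    rw [if_neg]
    intro hc
    apply hy
    rw [abs_le] at hc
    constructor <;> linarith
  have hFc : Continuous F := by
    apply continuous_finsetSum
    intro u _
    exact FF_continuous hh0 u N' _ _
  have hbm : AEStronglyMeasurable (fun y => box h (Z + 1 / 2 - y)) volume := hboxi.aestronglyMeasurable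
  have hFFi : ∀ u ∈ Finset.Icc u0 U, Integrable fun y => box h (Z + 1 / 2 - y) *
      FF u h N' (Finset.Ioc 0 N') (fun l => aw w l / l) y := by
    intro u _
    have hFi : Integrable (FF u h N' (Finset.Ioc 0 N') (fun l => aw w l / l)) :=
      (FF_continuous hh0 u N' _ _).integrable_of_hasCompactSupport (FF_compact hh0 u N' _ _)
    refine hFi.bdd_mul (c := 1 / h) hbm (Eventually.of_forall fun x => ?_)
    rw [Real.norm_of_nonneg (box_nonneg hh0 _)]
    exact box_le hh0 _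
  have hFi : Integrable fun y => box h (Z + 1 / 2 - y) * F y := by
    have e : (fun y => box h (Z + 1 / 2 - y) * F y) = fun y => ∑ u ∈ Finset.Icc u0 U,
        box h (Z + 1 / 2 - y) * FF u h N' (Finset.Ioc 0 N') (fun l => aw w l / l) y := by
      ext y
      rw [hF, Finset.mul_sum]
    rw [e]
    exact integrable_finsetSum _ hFFi
  have hdi : Integrable fun y => box h (Z + 1 / 2 - y) * (TT h N y - 1 - F y) := by
    refine (hboxi.mul_const (K2 * (Z ^ 2 / Z ^ D))).mono' ?_ (Eventually.of_forall fun y => ?_)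
    · exact hbm.mul ((hTc.sub continuous_const).sub hFc).aestronglyMeasurable
    · rw [norm_mul, Real.norm_of_nonneg (box_nonneg hh0 _), Real.norm_eq_abs]
      by_cases hy : Z ≤ y ∧ y ≤ Z + 1
      · exact mul_le_mul_of_nonneg_left (hpt y hy.1 hy.2) (box_nonneg hh0 _)
      · rw [hbzero y hy, zero_mul, zero_mul]
  have hsplit : ∫ y, box h (Z + 1 / 2 - y) * (TT h N y - 1) =
      (∫ y, box h (Z + 1 / 2 - y) * (TT h N y - 1 - F y)) +
      ∑ u ∈ Finset.Icc u0 U, ∫ y, box h (Z + 1 / 2 - y) * FF u h N' (Finset.Ioc 0 N')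
        (fun l => aw w l / l) y := by
    rw [← integral_finsetSum _ hFFi]
    have e : (fun y => ∑ u ∈ Finset.Icc u0 U, box h (Z + 1 / 2 - y) *
        FF u h N' (Finset.Ioc 0 N') (fun l => aw w l / l) y) = fun y => box h (Z + 1 / 2 - y) * F y := by
      ext y
      rw [hF, Finset.mul_sum]
    rw [e, ← integral_add hdi hFi]
    congr 1
    ext y
    ring
  have hp1 : |∫ y, box h (Z + 1 / 2 - y) * (TT h N y - 1 - F y)| ≤ K2 * (Z ^ 2 / Z ^ D) := by
    refine (abs_integral_le_integral_abs).trans ?_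
    calc ∫ y, |box h (Z + 1 / 2 - y) * (TT h N y - 1 - F y)| ≤
          ∫ y, box h (Z + 1 / 2 - y) * (K2 * (Z ^ 2 / Z ^ D)) := by
          apply integral_mono_of_nonneg (Eventually.of_forall fun y => abs_nonneg _)
            (hboxi.mul_const (K2 * (Z ^ 2 / Z ^ D)))
          apply Eventually.of_forall
          intro y
          show |box h (Z + 1 / 2 - y) * (TT h N y - 1 - F y)| ≤ box h (Z + 1 / 2 - y) * (K2 * (Z ^ 2 / Z ^ D))
          rw [abs_mul, abs_of_nonneg (box_nonneg hh0 _)]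
          by_cases hy : Z ≤ y ∧ y ≤ Z + 1
          · exact mul_le_mul_of_nonneg_left (hpt y hy.1 hy.2) (box_nonneg hh0 _)
          · rw [hbzero y hy, zero_mul, zero_mul]
      _ = _ := by rw [integral_mul_const, hbox1, one_mul]
  have hp2 : |∑ u ∈ Finset.Icc u0 U, ∫ y, box h (Z + 1 / 2 - y) * FF u h N' (Finset.Ioc 0 N')
        (fun l => aw w l / l) y| ≤
      (2 * Z) * (Z ^ (A + 7) * (Ca / Z ^ (2 * A + 16)) + 112 * Z ^ 4 / Z ^ (A + 7)) := by
    refine (Finset.abs_sum_le_sum_abs _ _).trans ?_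
    refine (Finset.sum_le_sum hbil).trans ?_
    rw [Finset.sum_const, nsmul_eq_mul]
    apply mul_le_mul_of_nonneg_right _ (by positivity)
    rw [Nat.card_Icc]
    have h4 : ((U + 1 - u0 : ℕ) : ℝ) ≤ ((U : ℕ) : ℝ) := by
      exact_mod_cast (by omega : U + 1 - u0 ≤ U)
    linarith
  rw [hsplit]
  refine (abs_add_le _ _).trans ?_
  have f1 : K2 * (Z ^ 2 / Z ^ D) ≤ K2 / Z ^ (A + 1) := by
    rw [hD, show A + 4 = 2 + (A + 1) + 1 by ring, pow_succ Z (2 + (A + 1)), pow_add Z 2]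
    have e : K2 * (Z ^ 2 / (Z ^ 2 * Z ^ (A + 1) * Z)) = K2 / Z ^ (A + 1) * (1 / Z) := by field_simp
    rw [e]
    apply mul_le_of_le_one_right (by positivity)
    rw [div_le_one hZ0]
    linarith
  have f2 : (2 * Z) * (Z ^ (A + 7) * (Ca / Z ^ (2 * A + 16)) + 112 * Z ^ 4 / Z ^ (A + 7)) ≤
      (2 * Ca + 224) / Z ^ (A + 1) := by
    have e1 : (2 * Z) * (Z ^ (A + 7) * (Ca / Z ^ (2 * A + 16))) = 2 * Ca / Z ^ (A + 1) * (1 / Z ^ 7) := by
      rw [show 2 * A + 16 = (A + 7) + (A + 1) + 7 + 1 by ring, pow_succ, pow_add, pow_add]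
      field_simp
      ring
    have e2 : (2 * Z) * (112 * Z ^ 4 / Z ^ (A + 7)) = 224 / Z ^ (A + 1) * (1 / Z) := by
      rw [show A + 7 = (A + 1) + 5 + 1 by ring, pow_succ, pow_add]
      field_simp
      ring
    have hZ7 : 1 / Z ^ 7 ≤ 1 := by
      rw [div_le_one (by positivity)]
      exact one_le_pow₀ (by linarith)
    have hZ1' : 1 / Z ≤ 1 := by
      rw [div_le_one hZ0]
      linarith
    rw [mul_add, e1, e2]
    have g1 : 2 * Ca / Z ^ (A + 1) * (1 / Z ^ 7) ≤ 2 * Ca / Z ^ (A + 1) := mul_le_of_le_one_right (by positivity) hZ7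
    have g2 : 224 / Z ^ (A + 1) * (1 / Z) ≤ 224 / Z ^ (A + 1) := mul_le_of_le_one_right (by positivity) hZ1'
    have e3 : (2 * Ca + 224) / Z ^ (A + 1) = 2 * Ca / Z ^ (A + 1) + 224 / Z ^ (A + 1) := by ring
    linarith
  have f3 : (K2 + (2 * Ca + 224)) / Z ^ (A + 1) ≤ 1 / Z ^ A := by
    rw [div_le_div_iff₀ (by positivity) (by positivity), pow_succ', one_mul]
    apply mul_le_mul_of_nonneg_right _ (by positivity)
    linarith
  have e4 : (K2 + (2 * Ca + 224)) / Z ^ (A + 1) = K2 / Z ^ (A + 1) + (2 * Ca + 224) / Z ^ (A + 1) := by ring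
  linarith

end Run7.h756.HA
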