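import Pool.Agent.Run7.h756.HA2

set_option autoImplicit false

/-! Primes in all intervals: from the smooth windows to the intervals `(x, x + y]`. -/

namespace Run7.h756.HA

open Filter Topology Set MeasureTheory Metric
open scoped Real Convolution
open Pool.Agent.W66
open ArithmeticFunction (vonMangoldt)

/-- the kernel -/
noncomputable def kk (h : ℝ) : ℝ → ℝ := (tri h) ⋆[ContinuousLinearMap.mul ℝ ℝ] (box h)

lemma kk_eq (h s : ℝ) : kk h s = ∫ t, tri h t * box h (s - t) := by
  unfold kk
  rw [MeasureTheory.convolution_def]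
  rfl

lemma kk_nonneg {h : ℝ} (hh : 0 < h) (s : ℝ) : 0 ≤ kk h s := by
  rw [kk_eq]
  exact integral_nonneg fun t => mul_nonneg (tri_nonneg hh _) (box_nonneg hh _)

lemma kk_integrable {h : ℝ} (hh : 0 < h) : Integrable (kk h) :=
  (tri_integrable hh).integrable_convolution _ (box_integrable h)

lemma kk_integral {h : ℝ} (hh : 0 < h) : ∫ s, kk h s = 1 := by
  unfold kk
  rw [integral_convolution _ (tri_integrable hh) (box_integrable h), integral_tri hh, integral_box hh]
  simp

lemma kk_zero {h : ℝ} (hh : 0 < h) {s : ℝ} (hs : 2 * h ≤ |s|) : kk h s = 0 := by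
  rw [kk_eq]
  have key : ∀ t, tri h t * box h (s - t) = 0 := by
    intro t
    rcases le_or_gt h |t| with h1 | h1
    · rw [tri_zero_of hh h1, zero_mul]
    · unfold box
      rw [if_neg, mul_zero]
      intro hc
      have h2 := abs_add_le (s - t) t
      rw [sub_add_cancel] at h2
      linarith
  simp only [key]
  simp

/-- the smoothed sum -/
lemma box_TT {h : ℝ} (hh : 0 < h) (N : ℕ) (z : ℝ) : ∫ y, box h (z - y) * TT h N y =
    ∑ n ∈ Finset.Ioc 0 N, vonMangoldt n / n * kk h (z - Real.log n) := by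
  have e1 : ∀ y, box h (z - y) * TT h N y =
      ∑ n ∈ Finset.Ioc 0 N, vonMangoldt n / n * (box h (z - y) * tri h (y - Real.log n)) := by
    intro y
    unfold TT
    rw [Finset.mul_sum]
    apply Finset.sum_congr rfl
    intro n _
    ring
  have hint : ∀ a : ℝ, Integrable fun y => box h (z - y) * tri h (y - a) := by
    intro a
    refine ((tri_integrable hh).comp_sub_right a).bdd_mul (c := 1 / h) ?_ (Eventually.of_forall fun x => ?_)
    · exact ((box_integrable h).comp_sub_left z).aestronglyMeasurable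
    · rw [Real.norm_of_nonneg (box_nonneg hh _)]
      exact box_le hh _
  simp only [e1]
  rw [integral_finsetSum _ fun (n : ℕ) _ => (hint (Real.log n)).const_mul _]
  apply Finset.sum_congr rfl
  intro n _
  rw [integral_const_mul]
  congr 1
  rw [kk_eq, ← integral_add_right_eq_self (fun y => box h (z - y) * tri h (y - Real.log n)) (Real.log n)]
  congr 1
  ext t
  rw [add_sub_cancel_right, show z - (t + Real.log n) = z - Real.log n - t by ring]
  ring

lemma box_split {h : ℝ} (hh : 0 < h) (N : ℕ) (z : ℝ) : ∫ y, box h (z - y) * TT h N y =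
    1 + ∫ y, box h (z - y) * (TT h N y - 1) := by
  have hboxi : Integrable fun y => box h (z - y) := (box_integrable h).comp_sub_left _
  have hTi : Integrable fun y => box h (z - y) * TT h N y := by
    have hTs : HasCompactSupport (TT h N) := by
      have e : TT h N = gg h (Finset.Ioc 0 N) (fun n => vonMangoldt n / n) := rfl
      rw [e]
      exact gg_compact hh _ _
    refine ((TT_continuous h N).integrable_of_hasCompactSupport hTs).bdd_mul (c := 1 / h)
      hboxi.aestronglyMeasurable (Eventually.of_forall fun x => ?_)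
    rw [Real.norm_of_nonneg (box_nonneg hh _)]
    exact box_le hh _
  have e : ∀ y, box h (z - y) * (TT h N y - 1) = box h (z - y) * TT h N y - box h (z - y) := fun y => by ring
  simp only [e]
  rw [integral_sub hTi hboxi, integral_sub_left_eq_self (fun y => box h y) volume z, integral_box hh]
  ring

lemma kk_int_le {h : ℝ} (hh : 0 < h) {a b : ℝ} (hab : a ≤ b) (c : ℝ) :
    0 ≤ ∫ z in a..b, kk h (z - c) ∧ ∫ z in a..b, kk h (z - c) ≤ 1 := by
  rw [intervalIntegral.integral_of_le hab]
  have hi : Integrable fun z => kk h (z - c) := (kk_integrable hh).comp_sub_right c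
  constructor
  · exact setIntegral_nonneg measurableSet_Ioc fun z _ => kk_nonneg hh _
  · refine (setIntegral_le_integral hi (Eventually.of_forall fun z => kk_nonneg hh _)).trans ?_
    rw [integral_sub_right_eq_self (fun z => kk h z) c, kk_integral hh]

lemma kk_int_one {h : ℝ} (hh : 0 < h) {a b c : ℝ} (h1 : a ≤ c - 2 * h) (h2 : c + 2 * h ≤ b) :
    ∫ z in a..b, kk h (z - c) = 1 := by
  rw [intervalIntegral.integral_of_le (by linarith), setIntegral_eq_integral_of_forall_compl_eq_zero,
    integral_sub_right_eq_self (fun z => kk h z) c, kk_integral hh]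
  intro z hz
  apply kk_zero hh
  rw [Set.mem_Ioc, not_and_or, not_lt, not_le] at hz
  rw [le_abs]
  rcases hz with hz | hz
  · right; linarith
  · left; linarith

lemma kk_int_zero {h : ℝ} (hh : 0 < h) {a b c : ℝ} (hab : a ≤ b) (h1 : c + 2 * h ≤ a ∨ b ≤ c - 2 * h) :
    ∫ z in a..b, kk h (z - c) = 0 := by
  rw [intervalIntegral.integral_of_le hab]
  apply setIntegral_eq_zero_of_forall_eq_zero
  intro z hz
  apply kk_zero hh
  rw [le_abs]
  rcases h1 with h1 | h1
  · left; linarith [hz.1]
  · right; linarith [hz.2]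

/-- the weighted sum over an interval -/
lemma window {h ι : ℝ} (hh : 0 < h) (x y N : ℕ) (hx : 1 ≤ x) (hy : 1 ≤ y) (hN : x + y ≤ N) (hι : 0 ≤ ι) (hι1 : ι ≤ 1)
    (hS : ∀ z, Real.log x - 2 * h ≤ z → z ≤ Real.log ((x + y : ℕ) : ℝ) + 2 * h →
      |∫ v, box h (z - v) * (TT h N v - 1)| ≤ ι) :
    ∑ n ∈ Finset.Ioc x (x + y), vonMangoldt n / n ≤
      (Real.log ((x + y : ℕ) : ℝ) - Real.log x + 4 * h) * (1 + ι) ∧
    (Real.log ((x + y : ℕ) : ℝ) - Real.log x - 4 * h) * (1 - ι) ≤
      ∑ n ∈ Finset.Ioc x (x + y), vonMangoldt n / n := by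
  obtain ⟨S, hSd⟩ : ∃ S : ℝ → ℝ, S = fun z => ∑ n ∈ Finset.Ioc 0 N, vonMangoldt n / n * kk h (z - Real.log n) := ⟨_, rfl⟩
  obtain ⟨a, ha⟩ : ∃ a, a = Real.log (x : ℝ) := ⟨_, rfl⟩
  obtain ⟨b, hb⟩ : ∃ b, b = Real.log ((x + y : ℕ) : ℝ) := ⟨_, rfl⟩
  rw [← ha, ← hb] at hS ⊢
  have hx0 : (0 : ℝ) < x := by exact_mod_cast hx
  have hab : a ≤ b := by
    rw [ha, hb]
    exact Real.log_le_log hx0 (by exact_mod_cast (by omega : x ≤ x + y))
  have hS' : ∀ z, a - 2 * h ≤ z → z ≤ b + 2 * h → |S z - 1| ≤ ι := by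
    intro z h1 h2
    have h3 := hS z h1 h2
    have h4 := box_split hh N z
    rw [box_TT hh] at h4
    rw [hSd]
    simp only
    rw [h4, add_sub_cancel_left]
    exact h3
  have hki : ∀ c : ℝ, Integrable fun z => kk h (z - c) := fun c => (kk_integrable hh).comp_sub_right c
  have hSi : ∀ c d : ℝ, IntervalIntegrable S volume c d := by
    intro c d
    rw [hSd]
    apply Integrable.intervalIntegrable
    exact integrable_finsetSum _ fun n _ => (hki _).const_mul _
  have hSint : ∀ c d : ℝ, ∫ z in c..d, S z =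
      ∑ n ∈ Finset.Ioc 0 N, vonMangoldt n / n * ∫ z in c..d, kk h (z - Real.log n) := by
    intro c d
    rw [hSd, intervalIntegral.integral_finsetSum]
    · apply Finset.sum_congr rfl
      intro n _
      rw [intervalIntegral.integral_const_mul]
    · intro n _
      exact ((hki _).const_mul _).intervalIntegrable
  have hw0 : ∀ n : ℕ, 0 ≤ vonMangoldt n / (n : ℝ) := fun n =>
    div_nonneg ArithmeticFunction.vonMangoldt_nonneg (Nat.cast_nonneg _)
  have hsub : Finset.Ioc x (x + y) ⊆ Finset.Ioc 0 N := by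
    intro n hn
    rw [Finset.mem_Ioc] at hn ⊢
    omega
  constructor
  · have h1 : ∑ n ∈ Finset.Ioc x (x + y), vonMangoldt n / n ≤ ∫ z in (a - 2 * h)..(b + 2 * h), S z := by
      rw [hSint]
      calc ∑ n ∈ Finset.Ioc x (x + y), vonMangoldt n / n =
            ∑ n ∈ Finset.Ioc x (x + y), vonMangoldt n / n * ∫ z in (a - 2 * h)..(b + 2 * h), kk h (z - Real.log n) := by
            apply Finset.sum_congr rfl
            intro n hn
            rw [Finset.mem_Ioc] at hn
            have hn0 : (0 : ℝ) < n := by exact_mod_cast (by omega : 0 < n)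
            have h2 : a ≤ Real.log n := by
              rw [ha]
              exact Real.log_le_log hx0 (by exact_mod_cast hn.1.le)
            have h3 : Real.log n ≤ b := by
              rw [hb]
              exact Real.log_le_log hn0 (by exact_mod_cast hn.2)
            rw [kk_int_one hh (by linarith) (by linarith), mul_one]
        _ ≤ _ := by
            apply Finset.sum_le_sum_of_subset_of_nonneg hsub
            intro n _ _
            exact mul_nonneg (hw0 n) (kk_int_le hh (by linarith) _).1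
    refine h1.trans ?_
    have h2 : ∫ z in (a - 2 * h)..(b + 2 * h), S z ≤ ∫ _z in (a - 2 * h)..(b + 2 * h), (1 + ι) := by
      apply intervalIntegral.integral_mono_on (by linarith) (hSi _ _) intervalIntegrable_const
      intro z hz
      have := (abs_le.1 (hS' z hz.1 hz.2)).2
      linarith
    rw [intervalIntegral.integral_const, smul_eq_mul] at h2
    refine h2.trans (le_of_eq ?_)
    ring
  · rcases lt_or_ge (b - a) (4 * h) with hlt | hge
    · have h1 : (b - a - 4 * h) * (1 - ι) ≤ 0 := mul_nonpos_of_nonpos_of_nonneg (by linarith) (by linarith)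
      exact h1.trans (Finset.sum_nonneg fun n _ => hw0 n)
    · have h1 : ∫ z in (a + 2 * h)..(b - 2 * h), S z ≤ ∑ n ∈ Finset.Ioc x (x + y), vonMangoldt n / n := by
        rw [hSint, ← Finset.sum_subset hsub]
        · apply Finset.sum_le_sum
          intro n _
          exact mul_le_of_le_one_right (hw0 n) (kk_int_le hh (by linarith) _).2
        · intro n hn hn2
          rw [Finset.mem_Ioc] at hn
          rw [Finset.mem_Ioc, not_and_or, not_lt, not_le] at hn2
          have hn0 : (0 : ℝ) < n := by exact_mod_cast hn.1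
          rw [kk_int_zero hh (by linarith), mul_zero]
          rcases hn2 with h3 | h3
          · left
            have : Real.log n ≤ a := by
              rw [ha]
              exact Real.log_le_log hn0 (by exact_mod_cast h3)
            linarith
          · right
            have : b ≤ Real.log n := by
              rw [hb]
              exact Real.log_le_log (by exact_mod_cast (by omega : 0 < x + y)) (by exact_mod_cast h3.le)
            linarith
      refine le_trans ?_ h1
      have h2 : ∫ _z in (a + 2 * h)..(b - 2 * h), (1 - ι) ≤ ∫ z in (a + 2 * h)..(b - 2 * h), S z := by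
        apply intervalIntegral.integral_mono_on (by linarith) intervalIntegrable_const (hSi _ _)
        intro z hz
        have := (abs_le.1 (hS' z (by linarith [hz.1]) (by linarith [hz.2]))).1
        linarith
      rw [intervalIntegral.integral_const, smul_eq_mul] at h2
      refine le_trans (le_of_eq ?_) h2
      ring

/-- the increment of `θ` -/
lemma theta_window {h ι : ℝ} (hh : 0 < h) (x y N : ℕ) (hx : 1 ≤ x) (hy : 1 ≤ y) (hyx : y ≤ x) (hN : x + y ≤ N)
    (hι : 0 ≤ ι) (hι1 : ι ≤ 1)
    (hS : ∀ z, Real.log x - 2 * h ≤ z → z ≤ Real.log ((x + y : ℕ) : ℝ) + 2 * h →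
      |∫ v, box h (z - v) * (TT h N v - 1)| ≤ ι) :
    |Chebyshev.theta ((x + y : ℕ) : ℝ) - Chebyshev.theta (x : ℝ) - y| ≤
      4 * (y * ι) + 4 * ((y : ℝ) ^ 2 / x) + 16 * (x * h) + 2 * √((x + y : ℕ) : ℝ) * Real.log ((x + y : ℕ) : ℝ) := by
  have hx0 : (0 : ℝ) < x := by exact_mod_cast hx
  have hy0 : (0 : ℝ) < y := by exact_mod_cast hy
  have hyx' : (y : ℝ) ≤ x := by exact_mod_cast hyx
  obtain ⟨P, hP⟩ : ∃ P, P = ∑ n ∈ Finset.Ioc x (x + y), vonMangoldt n / (n : ℝ) := ⟨_, rfl⟩
  obtain ⟨w1, w2⟩ := window hh x y N hx hy hN hι hι1 hS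
  rw [← hP] at w1 w2
  have hpsi : Chebyshev.psi ((x + y : ℕ) : ℝ) - Chebyshev.psi (x : ℝ) = ∑ n ∈ Finset.Ioc x (x + y), vonMangoldt n := by
    unfold Chebyshev.psi
    rw [Nat.floor_natCast, Nat.floor_natCast, ← Finset.sum_Ioc_consecutive _ (Nat.zero_le x) (by omega : x ≤ x + y)]
    ring
  obtain ⟨Q, hQ⟩ : ∃ Q, Q = ∑ n ∈ Finset.Ioc x (x + y), vonMangoldt n := ⟨_, rfl⟩
  rw [← hQ] at hpsi
  have hQ1 : x * P ≤ Q := by
    rw [hP, hQ, Finset.mul_sum]
    apply Finset.sum_le_sum
    intro n hn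
    rw [Finset.mem_Ioc] at hn
    have hn0 : (0 : ℝ) < n := by exact_mod_cast (by omega : 0 < n)
    have hxn : (x : ℝ) ≤ n := by exact_mod_cast hn.1.le
    rw [mul_div_assoc', div_le_iff₀ hn0, mul_comm]
    exact mul_le_mul_of_nonneg_left hxn ArithmeticFunction.vonMangoldt_nonneg
  have hQ2 : Q ≤ (x + y) * P := by
    rw [hP, hQ, Finset.mul_sum]
    apply Finset.sum_le_sum
    intro n hn
    rw [Finset.mem_Ioc] at hn
    have hn0 : (0 : ℝ) < n := by exact_mod_cast (by omega : 0 < n)
    have hxn : (n : ℝ) ≤ x + y := by exact_mod_cast hn.2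
    rw [mul_div_assoc', le_div_iff₀ hn0, mul_comm]
    exact mul_le_mul_of_nonneg_right hxn ArithmeticFunction.vonMangoldt_nonneg
  -- the logarithms
  have hl1 : Real.log ((x + y : ℕ) : ℝ) - Real.log x ≤ y / x := by
    rw [← Real.log_div (by positivity) hx0.ne']
    have := Real.log_le_sub_one_of_pos (show (0 : ℝ) < ((x + y : ℕ) : ℝ) / x by positivity)
    have e : ((x + y : ℕ) : ℝ) / x - 1 = y / x := by push_cast; field_simp; ring
    linarith
  have hl2 : y / x - (y : ℝ) ^ 2 / x ^ 2 ≤ Real.log ((x + y : ℕ) : ℝ) - Real.log x := by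
    rw [← Real.log_div (by positivity) hx0.ne']
    have h1 := Real.one_sub_inv_le_log_of_pos (show (0 : ℝ) < ((x + y : ℕ) : ℝ) / x by positivity)
    refine le_trans ?_ h1
    have e : 1 - (((x + y : ℕ) : ℝ) / x)⁻¹ = y / (x + y) := by push_cast; field_simp; ring
    rw [e, le_div_iff₀ (by positivity)]
    have e2 : (y / x - (y : ℝ) ^ 2 / x ^ 2) * (x + y) = y - y ^ 3 / x ^ 2 := by field_simp; ring
    rw [e2]
    have : 0 ≤ (y : ℝ) ^ 3 / x ^ 2 := by positivity
    linarith
  -- bounds for `Q`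
  have hyx2 : (y : ℝ) ^ 2 / x ≤ y := by
    rw [div_le_iff₀ hx0, sq]
    exact mul_le_mul_of_nonneg_left hyx' hy0.le
  have hxh : 0 ≤ x * h := by positivity
  have hup : Q ≤ y + 4 * (y * ι) + 4 * ((y : ℝ) ^ 2 / x) + 16 * (x * h) := by
    have h1 : P ≤ (y / x + 4 * h) * (1 + ι) := w1.trans (mul_le_mul_of_nonneg_right (by linarith) (by linarith))
    have h2 : Q ≤ (x + y) * ((y / x + 4 * h) * (1 + ι)) := hQ2.trans (mul_le_mul_of_nonneg_left h1 (by positivity))
    have e : (x + y) * ((y / x + 4 * h) * (1 + ι)) = (y + (y : ℝ) ^ 2 / x + 4 * (x + y) * h) * (1 + ι) := by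
      field_simp
    rw [e] at h2
    have h3 : (4 * (x + y) * h) ≤ 8 * (x * h) := by nlinarith
    have h4 : 0 ≤ (4 * (x + y) * h) := by positivity
    have h5 : 0 ≤ (y : ℝ) ^ 2 / x := by positivity
    have h6 : (y : ℝ) ^ 2 / x * ι ≤ y * ι := mul_le_mul_of_nonneg_right hyx2 hι
    have h7 : (4 * (x + y) * h) * ι ≤ 8 * (x * h) * 1 := mul_le_mul h3 hι1 hι (by positivity)
    have h8 : 0 ≤ y * ι := by positivity
    nlinarith
  have hlo : y - 4 * (y * ι) - 4 * ((y : ℝ) ^ 2 / x) - 16 * (x * h) ≤ Q := by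
    have h1 : (y / x - (y : ℝ) ^ 2 / x ^ 2 - 4 * h) * (1 - ι) ≤ P :=
      le_trans (mul_le_mul_of_nonneg_right (by linarith) (by linarith)) w2
    have h2 : x * ((y / x - (y : ℝ) ^ 2 / x ^ 2 - 4 * h) * (1 - ι)) ≤ Q :=
      le_trans (mul_le_mul_of_nonneg_left h1 hx0.le) hQ1
    have e : x * ((y / x - (y : ℝ) ^ 2 / x ^ 2 - 4 * h) * (1 - ι)) =
        (y - (y : ℝ) ^ 2 / x - 4 * (x * h)) * (1 - ι) := by
      field_simp
    rw [e] at h2
    have h5 : 0 ≤ (y : ℝ) ^ 2 / x := by positivity
    have h8 : 0 ≤ y * ι := by positivity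
    have h9 : 0 ≤ (y : ℝ) ^ 2 / x * ι := by positivity
    have h10 : 0 ≤ x * h * ι := by positivity
    nlinarith
  -- prime powers
  have hxy1 : (1 : ℝ) ≤ ((x + y : ℕ) : ℝ) := by exact_mod_cast (by omega : 1 ≤ x + y)
  have p1 := Chebyshev.psi_sub_theta_le hxy1
  have p2 := Chebyshev.psi_sub_theta_le (show (1 : ℝ) ≤ (x : ℝ) by exact_mod_cast hx)
  have p3 := Chebyshev.theta_le_psi ((x + y : ℕ) : ℝ)
  have p4 := Chebyshev.theta_le_psi (x : ℝ)
  have p5 : 2 * √(x : ℝ) * Real.log x ≤ 2 * √((x + y : ℕ) : ℝ) * Real.log ((x + y : ℕ) : ℝ) := by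
    have hle : (x : ℝ) ≤ ((x + y : ℕ) : ℝ) := by exact_mod_cast (by omega : x ≤ x + y)
    apply mul_le_mul
    · exact mul_le_mul_of_nonneg_left (Real.sqrt_le_sqrt hle) (by norm_num)
    · exact Real.log_le_log hx0 hle
    · exact Real.log_natCast_nonneg _
    · positivity
  rw [abs_le]
  constructor <;> linarith

end Run7.h756.HA
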