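import Pool.Agent.Run7.h756.HA3
import Pool.Agent.Cov.PNT
import Pool.Agent.N490.OW.KT
import Pool.Agent.N455.OW.PV

set_option autoImplicit false

/-! The prime number theorem in all intervals `(x, x + y]`, `y ≥ x ^ (1 - κ0)`. -/

namespace Run7.h756.HA

open Filter Topology
open Pool.Agent.W66
open Pool.Agent.N176.OW (S_PV S_KT)

lemma pnt_lin (η : ℝ) (hη : 0 < η) : ∃ C : ℝ, 0 ≤ C ∧ ∀ t : ℝ, 0 ≤ t → |Chebyshev.theta t - t| ≤ η * t + C := by
  have h1 := Pool.Agent.Cov.PNT.theta_div_tendsto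
  rw [Metric.tendsto_atTop] at h1
  obtain ⟨X, hX⟩ := h1 η hη
  have hmono := Chebyshev.theta_mono
  have hX0 : 0 ≤ Chebyshev.theta (max X 1) := Chebyshev.theta_nonneg _
  refine ⟨Chebyshev.theta (max X 1) + max X 1, by positivity, fun t ht => ?_⟩
  rcases le_or_gt (max X 1) t with h | h
  · have h2 := hX t ((le_max_left _ _).trans h)
    have ht0 : 0 < t := lt_of_lt_of_le one_pos ((le_max_right _ _).trans h)
    rw [Real.dist_eq] at h2
    have e : Chebyshev.theta t / t - 1 = (Chebyshev.theta t - t) / t := by field_simp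
    rw [e, abs_div, abs_of_pos ht0, div_lt_iff₀ ht0] at h2
    have : 0 ≤ Chebyshev.theta (max X 1) + max X 1 := by positivity
    linarith
  · have h3 := hmono h.le
    have h4 := Chebyshev.theta_nonneg t
    have h5 : 0 ≤ η * t := by positivity
    rw [abs_le]
    constructor <;> linarith

/-- the prime number theorem in all short intervals -/
theorem hoh : ∃ κ : ℝ, 0 < κ ∧ κ ≤ 1 / 8 ∧ ∀ δ : ℝ, 0 < δ → ∃ Y0 : ℕ, ∀ x y : ℕ, Y0 ≤ y →
    (x : ℝ) ^ (1 - κ) ≤ y →
    |Chebyshev.theta ((x + y : ℕ) : ℝ) - Chebyshev.theta (x : ℝ) - y| ≤ δ * y := by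
  obtain ⟨c0, Z0, hc0, hZ01, hpw⟩ := pw (Pool.Agent.N490.OW.kt Pool.Agent.N455.OW.pv) 1
  refine ⟨min (1 / 8) (c0 / 4), by positivity, min_le_left _ _, fun δ' hδ' => ?_⟩
  obtain ⟨δ, hδ, hδ1, hδδ⟩ : ∃ δ : ℝ, 0 < δ ∧ δ ≤ 1 ∧ δ ≤ δ' := ⟨min 1 δ', by positivity, min_le_left _ _, min_le_right _ _⟩
  obtain ⟨κ, hκ⟩ : ∃ κ, κ = min (1 / 8) (c0 / 4) := ⟨_, rfl⟩
  rw [← hκ]
  have hκ0 : 0 < κ := by rw [hκ]; positivity
  have hκ1 : κ ≤ 1 / 8 := by rw [hκ]; exact min_le_left _ _
  have hκ2 : κ ≤ c0 / 4 := by rw [hκ]; exact min_le_right _ _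
  -- large `y`
  obtain ⟨C, hC0, hC⟩ := pnt_lin (δ ^ 2 / 128) (by positivity)
  -- the logarithmic conditions
  have hev : ∀ᶠ L : ℝ in atTop, 3 ≤ L ∧ Z0 + 2 ≤ L ∧ √(L + 8) ≤ c0 / 2 * L ∧ 16 / δ + 2 ≤ L ∧
      64 / δ ≤ Real.exp (c0 / 4 * L) ∧ 16 * (L + 1) / δ ≤ Real.exp (3 / 8 * L) := by
    have e1 : ∀ᶠ L : ℝ in atTop, √(L + 8) ≤ c0 / 2 * L := by
      filter_upwards [eventually_ge_atTop (8 : ℝ), eventually_ge_atTop (8 / c0 ^ 2)] with L h1 h2
      rw [Real.sqrt_le_left (by positivity)]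
      rw [div_le_iff₀ (by positivity)] at h2
      nlinarith
    have e2 : ∀ᶠ L : ℝ in atTop, 64 / δ ≤ Real.exp (c0 / 4 * L) :=
      (Real.tendsto_exp_atTop.comp (tendsto_id.const_mul_atTop (by positivity : 0 < c0 / 4))).eventually_ge_atTop _
    have e3 : ∀ᶠ L : ℝ in atTop, 16 * (L + 1) / δ ≤ Real.exp (3 / 8 * L) := by
      have h1 : Tendsto (fun L : ℝ => (3 / 8 * L) ^ 2 / 1) atTop atTop := by
        simp only [div_one]
        exact (tendsto_pow_atTop (two_ne_zero)).comp (tendsto_id.const_mul_atTop (by norm_num : (0 : ℝ) < 3 / 8))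
      filter_upwards [eventually_ge_atTop (1 : ℝ), eventually_ge_atTop (1024 / δ)] with L h2 h3
      have h4 := Real.quadratic_le_exp_of_nonneg (show 0 ≤ 3 / 8 * L by positivity)
      have h5 : 16 * (L + 1) / δ ≤ (3 / 8 * L) ^ 2 / 2 := by
        rw [div_le_iff₀ hδ] at h3 ⊢
        nlinarith
      have : 0 ≤ 3 / 8 * L := by positivity
      linarith
    filter_upwards [eventually_ge_atTop (3 : ℝ), eventually_ge_atTop (Z0 + 2), e1, eventually_ge_atTop (16 / δ + 2), e2, e3]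
      with L h1 h2 h3 h4 h5 h6
    exact ⟨h1, h2, h3, h4, h5, h6⟩
  obtain ⟨L0, hL0⟩ := hev.exists_forall_of_atTop
  obtain ⟨Y0, hY0⟩ := exists_nat_ge (max (Real.exp L0) (max 1 (4 * C / δ)))
  have hY1 : Real.exp L0 ≤ Y0 := (le_max_left _ _).trans hY0
  have hY2 : (1 : ℝ) ≤ Y0 := (le_max_left _ _).trans ((le_max_right _ _).trans hY0)
  have hY3 : 4 * C / δ ≤ Y0 := (le_max_right _ _).trans ((le_max_right _ _).trans hY0)
  refine ⟨Y0, fun x y hy hxy => ?_⟩
  have hyY : (Y0 : ℝ) ≤ y := by exact_mod_cast hy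
  have hy1 : (1 : ℝ) ≤ y := hY2.trans hyY
  have hy0 : (0 : ℝ) < y := by linarith
  refine le_trans ?_ (mul_le_mul_of_nonneg_right hδδ hy0.le)
  rcases le_or_gt (x * δ) (16 * y) with hbig | hsmall
  · -- by the prime number theorem
    have h1 := hC ((x + y : ℕ) : ℝ) (Nat.cast_nonneg _)
    have h2 := hC (x : ℝ) (Nat.cast_nonneg _)
    have h3 : C ≤ δ / 4 * y := by
      have := hY3.trans hyY
      rw [div_le_iff₀ hδ] at this
      linarith
    have h4 : δ ^ 2 / 128 * ((x + y : ℕ) : ℝ) + δ ^ 2 / 128 * (x : ℝ) ≤ δ / 2 * y := by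
      push_cast
      have h5 : δ ^ 2 * (x : ℝ) ≤ 16 * δ * y := by nlinarith
      have h6 : δ ^ 2 * (y : ℝ) ≤ δ * y := by
        apply mul_le_mul_of_nonneg_right _ hy0.le
        nlinarith
      nlinarith
    have e : Chebyshev.theta ((x + y : ℕ) : ℝ) - Chebyshev.theta (x : ℝ) - y =
        (Chebyshev.theta ((x + y : ℕ) : ℝ) - ((x + y : ℕ) : ℝ)) - (Chebyshev.theta (x : ℝ) - x) := by
      push_cast; ring
    rw [e]
    refine (abs_sub _ _).trans ?_
    linarith
  · -- short intervals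
    have hyx : (y : ℝ) ≤ x := by nlinarith
    have hyx' : y ≤ x := by exact_mod_cast hyx
    have hx1 : (1 : ℝ) ≤ x := hy1.trans hyx
    have hx0 : (0 : ℝ) < x := by linarith
    obtain ⟨L, hL⟩ : ∃ L, L = Real.log (x : ℝ) := ⟨_, rfl⟩
    have hLL : L0 ≤ L := by
      rw [hL, Real.le_log_iff_exp_le hx0]
      exact hY1.trans (hyY.trans hyx)
    obtain ⟨g1, g2, g3, g4, g5, g6⟩ := hL0 L hLL
    have hxL : Real.exp L = x := by rw [hL, Real.exp_log hx0]
    obtain ⟨lam, hlam⟩ : ∃ lam, lam = c0 / 2 * L := ⟨_, rfl⟩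
    obtain ⟨h, hh⟩ : ∃ h, h = Real.exp (-lam) := ⟨_, rfl⟩
    have hh0 : 0 < h := by rw [hh]; exact Real.exp_pos _
    have hlam0 : 0 ≤ lam := by rw [hlam]; positivity
    have hh4 : h ≤ 1 / 4 := by
      have h1 : 1 ≤ 4 * Real.exp (c0 / 4 * L) := by
        have := Real.add_one_le_exp (c0 / 4 * L)
        nlinarith [show 0 ≤ c0 / 4 * L by positivity]
      rw [hh, Real.exp_neg, hlam, ← one_div, div_le_div_iff₀ (Real.exp_pos _) (by norm_num)]
      have h2 : Real.exp (c0 / 4 * L) ≤ Real.exp (c0 / 2 * L) := Real.exp_le_exp.2 (by nlinarith)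
      have h3 : (64 : ℝ) ≤ 64 / δ := by rw [le_div_iff₀ hδ]; nlinarith
      linarith
    obtain ⟨N, hN⟩ := exists_nat_ge (max (Real.exp (L + 4)) ((x + y : ℕ) : ℝ))
    have hN1 : Real.exp (L + 4) ≤ N := (le_max_left _ _).trans hN
    have hN2 : x + y ≤ N := by exact_mod_cast (le_max_right _ _).trans hN
    have hlogxy : Real.log ((x + y : ℕ) : ℝ) ≤ L + 1 := by
      have h1 : ((x + y : ℕ) : ℝ) ≤ Real.exp (L + 1) := by
        rw [Real.exp_add, hxL]
        have : (2 : ℝ) ≤ Real.exp 1 := by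
          have := Real.add_one_le_exp (1 : ℝ); linarith
        push_cast
        nlinarith
      have h2 := Real.log_le_log (by push_cast; linarith : (0 : ℝ) < ((x + y : ℕ) : ℝ)) h1
      rwa [Real.log_exp] at h2
    have key := theta_window (ι := δ / 16) hh0 x y N (by exact_mod_cast hx1) (by exact_mod_cast hy1) hyx' hN2
      (by positivity) (by linarith) (by
      intro z hz1 hz2
      rw [← hL] at hz1
      have hz3 : L - 1 / 2 ≤ z := by linarith
      have hz4 : z ≤ L + 3 / 2 := by linarith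
      have h1 := hpw (z - 1 / 2) lam h (by linarith) hh (by
        rw [hlam]
        refine le_trans (Real.sqrt_le_sqrt ?_) g3
        linarith) (by
        rw [hlam]
        nlinarith) N (le_trans (Real.exp_le_exp.2 (by linarith)) hN1)
      rw [show z - 1 / 2 + 1 / 2 = z by ring, pow_one] at h1
      refine h1.trans ?_
      rw [div_le_div_iff₀ (by linarith) (by norm_num)]
      have h2 : 16 / δ ≤ z - 1 / 2 := by linarith
      rw [div_le_iff₀ hδ] at h2
      linarith)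
    refine key.trans ?_
    -- the terms
    have t1 : 4 * (y * (δ / 16)) = δ / 4 * y := by ring
    have t2 : 4 * ((y : ℝ) ^ 2 / x) ≤ δ / 4 * y := by
      rw [mul_div_assoc', div_le_iff₀ hx0]
      nlinarith
    have hxp : ∀ s : ℝ, (x : ℝ) ^ s = Real.exp (s * L) := by
      intro s
      rw [Real.rpow_def_of_pos hx0, ← hL, mul_comm]
    have hyE : Real.exp ((1 - κ) * L) ≤ y := by rw [← hxp]; exact hxy
    have t3 : 16 * (x * h) ≤ δ / 4 * y := by
      have h1 : x * h = Real.exp (L - lam) := by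
        rw [hh, ← hxL, ← Real.exp_add]; rfl
      have h2 : Real.exp (L - lam) * Real.exp (c0 / 4 * L) ≤ y := by
        rw [← Real.exp_add]
        refine le_trans (Real.exp_le_exp.2 ?_) hyE
        rw [hlam]
        nlinarith
      have h3 : Real.exp (L - lam) * (64 / δ) ≤ y :=
        (mul_le_mul_of_nonneg_left g5 (Real.exp_pos _).le).trans h2
      rw [h1]
      rw [mul_div_assoc', div_le_iff₀ hδ] at h3
      linarith
    have t4 : 2 * √((x + y : ℕ) : ℝ) * Real.log ((x + y : ℕ) : ℝ) ≤ δ / 4 * y := by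
      have h1 : √((x + y : ℕ) : ℝ) ≤ 2 * Real.exp (L / 2) := by
        rw [Real.sqrt_le_left (by positivity), mul_pow, ← Real.exp_nat_mul]
        rw [show ((2 : ℕ) : ℝ) * (L / 2) = L by push_cast; ring, hxL]
        push_cast
        linarith
      have h2 : Real.exp (L / 2) * Real.exp (3 / 8 * L) ≤ y := by
        rw [← Real.exp_add]
        refine le_trans (Real.exp_le_exp.2 ?_) hyE
        nlinarith
      have h3 : Real.exp (L / 2) * (16 * (L + 1) / δ) ≤ y :=
        (mul_le_mul_of_nonneg_left g6 (Real.exp_pos _).le).trans h2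
      rw [mul_div_assoc', div_le_iff₀ hδ] at h3
      have h4 : 0 ≤ Real.log ((x + y : ℕ) : ℝ) := Real.log_natCast_nonneg _
      calc 2 * √((x + y : ℕ) : ℝ) * Real.log ((x + y : ℕ) : ℝ) ≤ 2 * (2 * Real.exp (L / 2)) * (L + 1) := by
            apply mul_le_mul _ hlogxy h4 (by positivity)
            exact mul_le_mul_of_nonneg_left h1 (by norm_num)
        _ ≤ δ / 4 * y := by linarith
    linarith

end Run7.h756.HA
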