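import Pool.Agent.Run7.h756.HA4
import Pool.Agent.Run7.h756.GD5
import Pool.Agent.H902R3.Task469C

set_option autoImplicit false

/-! Power saving versions: exponential sums of the averages, first moment along a family of nearly minimal
energy (following `Pool.Agent.TH646.TT.sup_par` and `Pool.Agent.TH935.LF.lam_f`). -/

namespace Run7.h756.PS

open Finset Filter Topology
open Pool.Agent.H373R2.T7
open Pool.Agent.H807R2.Dav
open Pool.Agent.W301.SS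
open Pool.Agent.TH646 Pool.Agent.TH646.TT

lemma ev_one : ∀ᶠ N : ℕ in atTop, 1 ≤ N := eventually_ge_atTop 1

set_option maxHeartbeats 1000000 in
theorem psup (B : ℕ) (ε κ1 : ℝ) (hε : 0 < ε) (hκ1 : 0 < κ1) (hκ11 : κ1 ≤ 1 / 2) :
    ∃ κ' : ℝ, 0 < κ' ∧ ∀ᶠ N : ℕ in atTop, 1 ≤ ⌊(N : ℝ) ^ (1 - κ1)⌋₊ ∧
    ∀ y : ℕ, (N : ℝ) ^ ε / 4 ≤ y → y ≤ ⌊(N : ℝ) ^ (1 - κ1)⌋₊ →
      ∀ α : ℝ, ‖∑ n ∈ Icc 1 (2 * ((B + 1) * N)),
        ((av y n - av ⌊(N : ℝ) ^ (1 - κ1)⌋₊ n : ℝ) : ℂ) * ee ((n : ℝ) * α)‖ ≤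
      ((2 * ((B + 1) * N) : ℕ) : ℝ) / (N : ℝ) ^ κ' := by
  obtain ⟨C, hC⟩ := vinoP
  have hC' : VC C := hC
  have hC0 : 0 < C := hC.1
  obtain ⟨κ', hκ'd⟩ : ∃ κ', κ' = min (ε / 2) (κ1 / 4) / 2 := ⟨_, rfl⟩
  have hκ' : 0 < κ' := by rw [hκ'd]; positivity
  have hm1 : 2 * κ' ≤ ε / 2 := by rw [hκ'd]; linarith [min_le_left (ε / 2) (κ1 / 4)]
  have hm2 : 2 * κ' ≤ κ1 / 4 := by rw [hκ'd]; linarith [min_le_right (ε / 2) (κ1 / 4)]
  obtain ⟨c, hc⟩ : ∃ c, c = 6 * C + 26 := ⟨_, rfl⟩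
  have hc0 : 0 < c := by rw [hc]; positivity
  refine ⟨κ', hκ', ?_⟩
  filter_upwards [ev_L (Real.log ((4 * (B + 1) : ℕ) : ℝ) + 4), ev_log 7 (c * (3 ^ 7 * 4 + 1) + 6) κ' hκ',
    ev_one] with N a1 a2 hN1
  have hN0 : (0 : ℝ) < N := by exact_mod_cast hN1
  have hNr : (1 : ℝ) ≤ N := by exact_mod_cast hN1
  obtain ⟨L, hL⟩ : ∃ L, L = Real.log (N : ℝ) := ⟨_, rfl⟩
  rw [← hL] at a1 a2
  have hlB : 0 ≤ Real.log ((4 * (B + 1) : ℕ) : ℝ) := Real.log_natCast_nonneg _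
  have hL4 : 4 ≤ L := by linarith
  have hL1 : 1 ≤ L := by linarith
  have hL0 : 0 < L := by linarith
  obtain ⟨K, hK⟩ : ∃ K, K = ⌊(N : ℝ) ^ (1 - κ1)⌋₊ := ⟨_, rfl⟩
  rw [← hK]
  have hKle : (K : ℝ) ≤ (N : ℝ) ^ (1 - κ1) := by rw [hK]; exact Nat.floor_le (by positivity)
  have hK1 : 1 ≤ K := by
    rw [hK]
    apply Nat.le_floor
    rw [Nat.cast_one]
    exact Real.one_le_rpow hNr (by linarith)
  obtain ⟨X, hX⟩ : ∃ X, X = 2 * ((B + 1) * N) := ⟨_, rfl⟩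
  have hNX : N ≤ X := by
    rw [hX]
    have : N ≤ (B + 1) * N := Nat.le_mul_of_pos_left _ (by omega)
    omega
  have hNXr : (N : ℝ) ≤ X := by exact_mod_cast hNX
  have hX0 : (0 : ℝ) < X := by linarith
  have hKN : (K : ℝ) ≤ N := hKle.trans (by
    calc (N : ℝ) ^ (1 - κ1) ≤ (N : ℝ) ^ (1 : ℝ) := Real.rpow_le_rpow_of_exponent_le hNr (by linarith)
      _ = N := Real.rpow_one _)
  have hKX : K ≤ X := by exact_mod_cast hKN.trans hNXr
  refine ⟨hK1, fun y hy1 hy2 α => ?_⟩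
  rw [← hX]
  have hy0 : (0 : ℝ) < y := lt_of_lt_of_le (by positivity) hy1
  have hy : 1 ≤ y := by exact_mod_cast hy0
  have hQ : (0 : ℝ) < (N : ℝ) ^ (1 - κ1 / 2) := by positivity
  have key := dif_sum hC' X y K hy hy2 hKX ((N : ℝ) ^ (1 - κ1 / 2)) hQ α
  rw [← hc] at key
  refine key.trans ?_
  -- logarithms
  have hlX2 : Real.log ((2 * X : ℕ) : ℝ) = Real.log ((4 * (B + 1) : ℕ) : ℝ) + L := by
    have e : ((2 * X : ℕ) : ℝ) = ((4 * (B + 1) : ℕ) : ℝ) * N := by rw [hX]; push_cast; ring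
    rw [e, Real.log_mul (by positivity) hN0.ne', hL]
  have hlX2' : Real.log ((2 * X : ℕ) : ℝ) + 2 ≤ 3 * L := by rw [hlX2]; linarith
  have hlX : 1 + Real.log (X : ℝ) ≤ 3 * L := by
    have : Real.log (X : ℝ) ≤ Real.log ((2 * X : ℕ) : ℝ) := Real.log_le_log hX0 (by push_cast; linarith)
    linarith
  have hlX0 : 0 ≤ 1 + Real.log (X : ℝ) := by have := Real.log_natCast_nonneg X; linarith
  -- the power
  obtain ⟨D, hD⟩ : ∃ D : ℝ, D = (N : ℝ) ^ (2 * κ') := ⟨_, rfl⟩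
  have hD0 : 0 < D := by rw [hD]; positivity
  have t1 : X / √(y : ℝ) ≤ 2 * (X / D) := by
    have e1 : D / 2 ≤ √(y : ℝ) := by
      apply Real.le_sqrt_of_sq_le
      refine le_trans ?_ hy1
      rw [div_pow, show (2 : ℝ) ^ 2 = 4 by norm_num, hD, ← Real.rpow_natCast, ← Real.rpow_mul hN0.le]
      have : (N : ℝ) ^ (2 * κ' * ((2 : ℕ) : ℝ)) ≤ (N : ℝ) ^ ε :=
        Real.rpow_le_rpow_of_exponent_le hNr (by push_cast; linarith)
      exact div_le_div_of_nonneg_right this (by norm_num)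
    have e2 : 2 * (X / D) = X / (D / 2) := by field_simp
    rw [e2]
    exact div_le_div_of_nonneg_left hX0.le (by positivity) e1
  have t2 : (X : ℝ) ^ (4 / 5 : ℝ) ≤ X / D := by
    rw [le_div_iff₀ hD0]
    calc (X : ℝ) ^ (4 / 5 : ℝ) * D ≤ (X : ℝ) ^ (4 / 5 : ℝ) * (X : ℝ) ^ (1 / 5 : ℝ) := by
          apply mul_le_mul_of_nonneg_left _ (by positivity)
          rw [hD]
          calc (N : ℝ) ^ (2 * κ') ≤ (N : ℝ) ^ (1 / 5 : ℝ) := Real.rpow_le_rpow_of_exponent_le hNr (by linarith)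
            _ ≤ _ := Real.rpow_le_rpow hN0.le hNXr (by norm_num)
      _ = X := by rw [← Real.rpow_add hX0]; norm_num
  have t3 : √(X * (N : ℝ) ^ (1 - κ1 / 2)) ≤ X / D := by
    apply Real.sqrt_le_iff.2
    refine ⟨by positivity, ?_⟩
    rw [div_pow, le_div_iff₀ (by positivity), sq (X : ℝ), mul_assoc]
    apply mul_le_mul_of_nonneg_left _ hX0.le
    rw [hD, ← Real.rpow_natCast, ← Real.rpow_mul hN0.le, ← Real.rpow_add hN0]
    refine le_trans ?_ hNXr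
    calc (N : ℝ) ^ (1 - κ1 / 2 + 2 * κ' * ((2 : ℕ) : ℝ)) ≤ (N : ℝ) ^ (1 : ℝ) :=
          Real.rpow_le_rpow_of_exponent_le hNr (by push_cast; linarith)
      _ = N := Real.rpow_one _
  have t4 : (X : ℝ) * K / (N : ℝ) ^ (1 - κ1 / 2) ≤ X / D := by
    rw [div_le_div_iff₀ hQ hD0, mul_assoc]
    apply mul_le_mul_of_nonneg_left _ hX0.le
    calc (K : ℝ) * D ≤ (N : ℝ) ^ (1 - κ1) * (N : ℝ) ^ (2 * κ') := by
          rw [hD]
          exact mul_le_mul_of_nonneg_right hKle (by positivity)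
      _ = (N : ℝ) ^ (1 - κ1 + 2 * κ') := by rw [Real.rpow_add hN0]
      _ ≤ _ := Real.rpow_le_rpow_of_exponent_le hNr (by linarith)
  have t5 : (K : ℝ) ≤ X / D := by
    rw [le_div_iff₀ hD0]
    refine le_trans ?_ hNXr
    calc (K : ℝ) * D ≤ (N : ℝ) ^ (1 - κ1) * (N : ℝ) ^ (2 * κ') := by
          rw [hD]
          exact mul_le_mul_of_nonneg_right hKle (by positivity)
      _ = (N : ℝ) ^ (1 - κ1 + 2 * κ') := by rw [Real.rpow_add hN0]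
      _ ≤ (N : ℝ) ^ (1 : ℝ) := Real.rpow_le_rpow_of_exponent_le hNr (by linarith)
      _ = N := Real.rpow_one _
  have hXD : 0 ≤ X / D := by positivity
  have t6 : (1 + Real.log (X : ℝ)) ^ 7 * (X / √(y : ℝ) + (X : ℝ) ^ (4 / 5 : ℝ) + √(X * (N : ℝ) ^ (1 - κ1 / 2))) ≤
      3 ^ 7 * 4 * L ^ 7 * (X / D) := by
    calc (1 + Real.log (X : ℝ)) ^ 7 * (X / √(y : ℝ) + (X : ℝ) ^ (4 / 5 : ℝ) + √(X * (N : ℝ) ^ (1 - κ1 / 2)))
        ≤ (3 * L) ^ 7 * (2 * (X / D) + X / D + X / D) := by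
          apply mul_le_mul (pow_le_pow_left₀ hlX0 hlX 7) (by linarith) (by positivity) (by positivity)
      _ = _ := by ring
  have t7 : (K : ℝ) * (Real.log ((2 * X : ℕ) : ℝ) + 2) ≤ X / D * (3 * L) := by
    apply mul_le_mul t5 hlX2' (by have := Real.log_natCast_nonneg (2 * X); linarith) hXD
  have hL7 : L ≤ L ^ 7 := le_self_pow₀ hL1 (by norm_num)
  have hL71 : 1 ≤ L ^ 7 := one_le_pow₀ hL1
  have hfin : (X / D) * ((c * (3 ^ 7 * 4 + 1) + 6) * L ^ 7) ≤ X / (N : ℝ) ^ κ' := by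
    have e : (X : ℝ) / (N : ℝ) ^ κ' = (X / D) * (N : ℝ) ^ κ' := by
      rw [hD, show (2 : ℝ) * κ' = κ' + κ' by ring, Real.rpow_add hN0]
      field_simp
    rw [e]
    exact mul_le_mul_of_nonneg_left a2 hXD
  refine le_trans ?_ hfin
  unfold ERR
  calc c * ((1 + Real.log (X : ℝ)) ^ 7 * (X / √(y : ℝ) + (X : ℝ) ^ (4 / 5 : ℝ) + √(X * (N : ℝ) ^ (1 - κ1 / 2))) +
        X * K / (N : ℝ) ^ (1 - κ1 / 2)) + 2 * (K * (Real.log ((2 * X : ℕ) : ℝ) + 2))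
      ≤ c * (3 ^ 7 * 4 * L ^ 7 * (X / D) + X / D) + 2 * (X / D * (3 * L)) := by gcongr
    _ = (X / D) * (c * (3 ^ 7 * 4 * L ^ 7 + 1) + 6 * L) := by ring
    _ ≤ (X / D) * ((c * (3 ^ 7 * 4 + 1) + 6) * L ^ 7) := by
        apply mul_le_mul_of_nonneg_left _ hXD
        nlinarith

set_option maxHeartbeats 1000000 in
/-- the first moment over a family of shifts of nearly minimal energy -/
theorem lam_pow (p B : ℕ) (κ' : ℝ) (hκ' : 0 < κ') : ∃ κ : ℝ, 0 < κ ∧ κ ≤ 1 ∧ ∀ᶠ N : ℕ in atTop,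
    ∀ (x : ℕ) (s : ℕ → ℤ), (∀ m ∈ Icc 1 x, |s m| ≤ B * N) →
    (energy p x s : ℝ) * N ≤ (N : ℝ) ^ κ * (x : ℝ) ^ (2 * p) →
    ∀ f : ℕ → ℂ,
    (∀ α : ℝ, ‖∑ n ∈ Icc 1 (2 * ((B + 1) * N)), f n * ee ((n : ℝ) * α)‖ ≤ ((2 * ((B + 1) * N) : ℕ) : ℝ) / (N : ℝ) ^ κ') →
    (∀ n ∈ Icc 1 (2 * ((B + 1) * N)), ‖f n‖ ≤ 2 * Real.log N) →
    ∀ A : ℕ, A ≤ (B + 1) * N →
    ∀ G : ℕ → ℂ, (∀ a, ‖G a‖ ≤ 1) →
    ∑ m ∈ Icc 1 x, ‖∑ a ∈ Icc 1 A, G a * fz f (2 * ((B + 1) * N)) (a + s m)‖ ≤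
      N * x / (N : ℝ) ^ (3 * κ) := by
  obtain ⟨κη, hκη⟩ : ∃ κη : ℝ, κη = min κ' 1 / (4 * (p + 1)) := ⟨_, rfl⟩
  have hκη0 : 0 < κη := by rw [hκη]; positivity
  have hκ'η : 4 * (p + 1) * κη ≤ κ' := by
    rw [hκη, mul_div_cancel₀ _ (by positivity)]
    exact min_le_left _ _
  have hκη1 : κη ≤ 1 := by
    rw [hκη, div_le_one (by positivity)]
    have : (0 : ℝ) ≤ p := Nat.cast_nonneg _
    linarith [min_le_right κ' 1]
  obtain ⟨κ, hκ⟩ : ∃ κ : ℝ, κ = κη / 4 := ⟨_, rfl⟩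
  have hκ0 : 0 < κ := by rw [hκ]; positivity
  obtain ⟨B1, hB1⟩ : ∃ B1, B1 = B + 1 := ⟨_, rfl⟩
  have hB1pos : 1 ≤ B1 := by omega
  have hB1r : (1 : ℝ) ≤ B1 := by exact_mod_cast hB1pos
  have hp0 : (0 : ℝ) ≤ p := Nat.cast_nonneg _
  refine ⟨κ, hκ0, by rw [hκ]; linarith, ?_⟩
  filter_upwards [ev_log 0 (2 * ((4 * p + 5) * B1 * (2 * B1))) κ hκ0, ev_log 1 (8 * B1) κ hκ0, ev_one,
    ev_L 1] with N a1 a2 hN1 hL1 x s hs hE fΛ hsup0 hf0 A hA G hG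
  have hN0 : (0 : ℝ) < N := by exact_mod_cast hN1
  have hNr : (1 : ℝ) ≤ N := by exact_mod_cast hN1
  rw [pow_zero, mul_one] at a1
  rw [pow_one] at a2
  rw [← hB1] at hsup0 hf0 hA ⊢
  obtain ⟨L, hL⟩ : ∃ L, L = Real.log (N : ℝ) := ⟨_, rfl⟩
  rw [← hL] at a2 hL1 hf0
  have hL0 : 0 < L := by linarith
  rcases Nat.eq_zero_or_pos x with hx | hx
  · rw [hx]; simp
  have hx0 : (0 : ℝ) < x := by exact_mod_cast hx
  obtain ⟨H, hH⟩ : ∃ H, H = 2 * (B1 * N) := ⟨_, rfl⟩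
  obtain ⟨M, hM⟩ : ∃ M, M = (4 * p + 5) * (B1 * N) := ⟨_, rfl⟩
  rw [← hH] at hsup0 hf0 ⊢
  have hBN : B * N ≤ B1 * N := Nat.mul_le_mul_right _ (by omega)
  have hB1N : 1 ≤ B1 * N := Nat.mul_pos hB1pos (by omega)
  have hHN : N ≤ H := by
    have : N ≤ B1 * N := Nat.le_mul_of_pos_left _ hB1pos
    omega
  have hM5 : 5 * (B1 * N) ≤ M := by
    rw [hM]; exact Nat.mul_le_mul_right _ (by omega)
  have hM1 : 1 ≤ M := by omega
  have hHM : H ≤ M := by omega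
  have hHr : (H : ℝ) = 2 * (B1 * N) := by rw [hH]; push_cast; ring
  have hMr : (M : ℝ) = (4 * p + 5) * (B1 * N) := by rw [hM]; push_cast; ring
  have hcond : ∀ a ∈ Icc 1 A, ∀ m ∈ Icc 1 x, ∀ n ∈ Icc 1 H, |(a : ℤ) + s m - n| < M := by
    intro a ha m hm n hn
    have h4 := abs_le.1 (hs m hm)
    rw [mem_Icc] at ha hn
    have h5 : (a : ℤ) ≤ B1 * N := by exact_mod_cast ha.2.trans hA
    have h6 : (n : ℤ) ≤ 2 * (B1 * N) := by exact_mod_cast (hn.2.trans hH.le)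
    have h7 : (5 : ℤ) * (B1 * N) ≤ M := by exact_mod_cast hM5
    have h8 : (B : ℤ) * N ≤ B1 * N := by exact_mod_cast hBN
    have h9 : (1 : ℤ) ≤ B1 * N := by exact_mod_cast hB1N
    have h10 : (0 : ℤ) ≤ a := by positivity
    have h11 : (0 : ℤ) ≤ n := by positivity
    rw [abs_lt]
    constructor <;> linarith [h4.1, h4.2]
  have hAM : A ≤ M := hA.trans (by omega)
  have hmomE := moment_energy p x s M (B * N) hM1 (fun m hm => by
    have := hs m hm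
    push_cast
    exact this) (by
    have h4 : 2 * p * (B * N) ≤ 2 * p * (B1 * N) := Nat.mul_le_mul_left _ hBN
    have h5 : 2 * p * (B1 * N) < (4 * p + 5) * (B1 * N) := Nat.mul_lt_mul_of_pos_right (by omega) hB1N
    omega)
  obtain ⟨C0, hC0⟩ : ∃ C0 : ℝ, C0 = (4 * p + 5) * B1 * (N : ℝ) ^ κ := ⟨_, rfl⟩
  have hmom : ∑ t ∈ range M, (‖∑ m ∈ Icc 1 x, ee ((t : ℝ) * ((s m : ℝ) / M))‖ / x) ^ (2 * p) ≤ C0 := by
    have h2 : ∑ t ∈ range M, (‖∑ m ∈ Icc 1 x, ee ((t : ℝ) * ((s m : ℝ) / M))‖ / x) ^ (2 * p) =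
        (M * energy p x s) / (x : ℝ) ^ (2 * p) := by
      rw [← hmomE, sum_div]
      exact sum_congr rfl fun t _ => div_pow _ _ _
    rw [h2, div_le_iff₀ (by positivity), hMr]
    calc (4 * (p : ℝ) + 5) * (B1 * N) * energy p x s = (4 * p + 5) * B1 * (energy p x s * N) := by ring
      _ ≤ (4 * p + 5) * B1 * ((N : ℝ) ^ κ * (x : ℝ) ^ (2 * p)) := mul_le_mul_of_nonneg_left hE (by positivity)
      _ = _ := by rw [hC0]; ring
  -- the function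
  have hfs : ∑ n ∈ Icc 1 H, ‖fΛ n‖ ^ 2 ≤ H * (2 * L) ^ 2 := by
    have h4 : ∀ n ∈ Icc 1 H, ‖fΛ n‖ ^ 2 ≤ (2 * L) ^ 2 := by
      intro n hn
      exact pow_le_pow_left₀ (norm_nonneg _) (hf0 n hn) _
    refine (sum_le_sum h4).trans ?_
    rw [sum_const, Nat.card_Icc, nsmul_eq_mul]
    simp
  obtain ⟨η, hηd⟩ : ∃ η : ℝ, η = (N : ℝ) ^ (-κη) := ⟨_, rfl⟩
  have hη : 0 < η := by rw [hηd]; positivity
  obtain ⟨S, hS⟩ : ∃ S : ℕ → ℂ, S = fun m => ∑ a ∈ Icc 1 A, G a * fz fΛ H (a + s m) := ⟨_, rfl⟩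
  have hSm : ∀ m, ∑ a ∈ Icc 1 A, G a * fz fΛ H (a + s m) = S m := fun m => by rw [hS]
  obtain ⟨c, hc⟩ : ∃ c : ℕ → ℂ, c = fun m => (starRingEnd ℂ) (S m) / ‖S m‖ := ⟨_, rfl⟩
  have hc1 : ∀ m, ‖c m‖ ≤ 1 := by
    intro m
    rw [hc]
    simp only [norm_div, RCLike.norm_conj, Complex.norm_real, norm_norm]
    exact div_self_le_one _
  have key := bil_main A H x M hM1 fΛ G c s (H / (N : ℝ) ^ κ') η p C0
    (H * (2 * L) ^ 2) hcond hAM hHM hx hsup0 hG hc1 hmom hfs hη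
  have heq : ∑ a ∈ Icc 1 A, ∑ m ∈ Icc 1 x, G a * c m * fz fΛ H (a + s m) =
      ((∑ m ∈ Icc 1 x, ‖S m‖ : ℝ) : ℂ) := by
    rw [sum_comm]
    push_cast
    apply sum_congr rfl
    intro m _
    have e1 : ∑ a ∈ Icc 1 A, G a * c m * fz fΛ H (a + s m) = c m * S m := by
      rw [hS, mul_sum]
      apply sum_congr rfl
      intro a _
      ring
    rw [e1, hc]
    simp only
    by_cases h0 : ‖S m‖ = 0
    · rw [norm_eq_zero.1 h0]; simp
    · have h0' : ((‖S m‖ : ℝ) : ℂ) ≠ 0 := by exact_mod_cast h0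
      rw [div_mul_eq_mul_div, mul_comm, Complex.mul_conj', pow_two]
      field_simp
  rw [heq, Complex.norm_real, Real.norm_of_nonneg (sum_nonneg fun _ _ => norm_nonneg _)] at key
  simp only [hSm]
  refine key.trans ?_
  have hAr : (A : ℝ) ≤ B1 * N := by exact_mod_cast hA
  have hA0 : (0 : ℝ) ≤ A := Nat.cast_nonneg _
  have hM0 : (0 : ℝ) < M := by exact_mod_cast hM1
  have hAM' : (A : ℝ) ≤ M := by exact_mod_cast hAM
  obtain ⟨P, hP⟩ : ∃ P : ℝ, P = (N : ℝ) ^ κ := ⟨_, rfl⟩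
  have hP0 : 0 < P := by rw [hP]; positivity
  have hPn : ∀ n : ℕ, (N : ℝ) ^ ((n : ℝ) * κ) = P ^ n := by
    intro n
    rw [hP, ← Real.rpow_natCast, ← Real.rpow_mul hN0.le, mul_comm]
  have hP3 : (N : ℝ) ^ (3 * κ) = P ^ 3 := by have := hPn 3; push_cast at this; exact this
  have hη4 : η = 1 / P ^ 4 := by
    rw [hηd, ← hPn 4, show ((4 : ℕ) : ℝ) * κ = κη by rw [hκ]; push_cast; ring, Real.rpow_neg hN0.le, one_div]
  rw [← hP] at a1 a2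
  have t1 : C0 / η ^ (2 * p) * (H / (N : ℝ) ^ κ') * A * x / M ≤ (1 / 2) * (N * x / P ^ 3) := by
    have h4 : (N : ℝ) ^ κ' ≥ P ^ (8 * p + 16) := by
      rw [← hPn]
      apply Real.rpow_le_rpow_of_exponent_le hNr
      push_cast
      rw [hκ]
      nlinarith
    have h5 : C0 / η ^ (2 * p) * (H / (N : ℝ) ^ κ') * A * x / M ≤ C0 / η ^ (2 * p) * (H / (N : ℝ) ^ κ') * x := by
      rw [div_le_iff₀ hM0]
      have h6 : 0 ≤ C0 / η ^ (2 * p) * (H / (N : ℝ) ^ κ') * x := by rw [hC0]; positivity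
      calc C0 / η ^ (2 * p) * (H / (N : ℝ) ^ κ') * A * x = (C0 / η ^ (2 * p) * (H / (N : ℝ) ^ κ') * x) * A := by ring
        _ ≤ _ := mul_le_mul_of_nonneg_left hAM' h6
    refine h5.trans ?_
    have h6 : C0 / η ^ (2 * p) = (4 * p + 5) * B1 * P * P ^ (8 * p) := by
      rw [hC0, hη4, ← hP, div_pow, one_pow, ← pow_mul, show 4 * (2 * p) = 8 * p by ring]
      field_simp
    rw [h6]
    have h7 : (H : ℝ) / (N : ℝ) ^ κ' ≤ H / P ^ (8 * p + 16) :=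
      div_le_div_of_nonneg_left (Nat.cast_nonneg _) (by positivity) h4
    calc (4 * p + 5) * B1 * P * P ^ (8 * p) * (H / (N : ℝ) ^ κ') * x ≤
          (4 * p + 5) * B1 * P * P ^ (8 * p) * (H / P ^ (8 * p + 16)) * x := by gcongr
      _ = ((1 / 2) * (2 * ((4 * p + 5) * B1 * (2 * B1))) * (N * x)) / P ^ 15 := by
          rw [hHr, pow_add, show (16 : ℕ) = 15 + 1 from rfl, pow_succ]
          field_simp
      _ ≤ ((1 / 2) * P * (N * x)) / P ^ 15 := by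
          apply div_le_div_of_nonneg_right _ (by positivity)
          apply mul_le_mul_of_nonneg_right _ (by positivity)
          apply mul_le_mul_of_nonneg_left a1 (by norm_num)
      _ = (1 / 2) * (N * x / P ^ 14) := by
          rw [show (15 : ℕ) = 14 + 1 from rfl, pow_succ]
          field_simp
      _ ≤ _ := by
          apply mul_le_mul_of_nonneg_left _ (by norm_num)
          apply div_le_div_of_nonneg_left (by positivity) (by positivity)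
          apply pow_le_pow_right₀ _ (by norm_num)
          rw [hP]
          exact Real.one_le_rpow hNr hκ0.le
  have t2 : η * x * Real.sqrt (H * (2 * L) ^ 2 * A) ≤ (1 / 2) * (N * x / P ^ 3) := by
    have h4 : Real.sqrt (H * (2 * L) ^ 2 * A) ≤ 2 * (B1 * N) * (2 * L) := by
      rw [Real.sqrt_le_left (by positivity), hHr]
      have h5 : 2 * ((B1 : ℝ) * N) * (2 * L) ^ 2 * A ≤ 2 * (B1 * N) * (2 * L) ^ 2 * (B1 * N) := mul_le_mul_of_nonneg_left hAr (by positivity)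
      have h6 : 0 ≤ (B1 : ℝ) * N := by positivity
      refine h5.trans ?_
      have h7 : 0 ≤ ((B1 : ℝ) * N) * (B1 * N) * (2 * L) ^ 2 := by positivity
      nlinarith
    calc η * x * Real.sqrt (H * (2 * L) ^ 2 * A) ≤ η * x * (2 * (B1 * N) * (2 * L)) :=
          mul_le_mul_of_nonneg_left h4 (by positivity)
      _ = (1 / 2) * (8 * B1 * L * (N * x)) / P ^ 4 := by rw [hη4]; ring
      _ ≤ (1 / 2) * (P * (N * x)) / P ^ 4 := by
          apply div_le_div_of_nonneg_right _ (by positivity)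
          apply mul_le_mul_of_nonneg_left _ (by norm_num)
          exact mul_le_mul_of_nonneg_right a2 (by positivity)
      _ = _ := by
          rw [show (4 : ℕ) = 3 + 1 from rfl, pow_succ]
          field_simp
  rw [hP3]
  linarith

end Run7.h756.PS
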