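import Pool.Agent.Run7.h756.PS1

set_option autoImplicit false

/-! Power saving versions: weighted sums over one family, and the induction over the number of translates. -/

namespace Run7.h756.PS

open Finset Filter Topology
open Pool.Agent.H373R2.T7
open Pool.Agent.H807R2.Dav
open Pool.Agent.W301.SS
open Pool.Agent.TH646 Pool.Agent.TH646.TT
open Run7.h756.GD

lemma av_theta (n y : ℕ) (hy : 1 ≤ y) : av y n - 1 =
    (Chebyshev.theta ((n + y : ℕ) : ℝ) - Chebyshev.theta (n : ℝ) - y) / y := by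
  have hy0 : (0 : ℝ) < y := by exact_mod_cast hy
  unfold av
  rw [sum_om_Ioc]
  field_simp

/-- the averages over the intervals of length at least `N ^ (1 - κ1)` -/
lemma long_av : ∃ κ1 : ℝ, 0 < κ1 ∧ κ1 ≤ 1 / 2 ∧ ∀ δ : ℝ, 0 < δ → ∀ᶠ N : ℕ in atTop,
    ∀ y n : ℕ, ⌊(N : ℝ) ^ (1 - κ1)⌋₊ ≤ y → n ≤ 2 * N → |av y n - 1| ≤ δ := by
  obtain ⟨κ0, hκ0, hκ01, h⟩ := Run7.h756.HA.hoh
  refine ⟨κ0 / 2, by positivity, by linarith, fun δ hδ => ?_⟩
  obtain ⟨Y0, hY0⟩ := h δ hδ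
  have e1 : ∀ᶠ N : ℕ in atTop, ((Y0 : ℝ) + 4) ≤ (N : ℝ) ^ (κ0 / 2) :=
    ((tendsto_rpow_atTop (by positivity)).comp tendsto_natCast_atTop_atTop).eventually_ge_atTop _
  filter_upwards [e1, eventually_ge_atTop 1] with N h1 hN1 y n hy hn
  have hN0 : (0 : ℝ) < N := by exact_mod_cast hN1
  have hNr : (1 : ℝ) ≤ N := by exact_mod_cast hN1
  have hY00 : (0 : ℝ) ≤ Y0 := Nat.cast_nonneg _
  have h2 := Nat.lt_floor_add_one ((N : ℝ) ^ (1 - κ0 / 2))
  have hy' : (N : ℝ) ^ (1 - κ0 / 2) - 1 ≤ y := by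
    have : ((⌊(N : ℝ) ^ (1 - κ0 / 2)⌋₊ : ℕ) : ℝ) ≤ y := by exact_mod_cast hy
    linarith
  have h3 : (N : ℝ) ^ (κ0 / 2) ≤ (N : ℝ) ^ (1 - κ0 / 2) := Real.rpow_le_rpow_of_exponent_le hNr (by linarith)
  have hyY : Y0 ≤ y := by
    have : (Y0 : ℝ) ≤ y := by linarith
    exact_mod_cast this
  have hy1 : 1 ≤ y := by
    have : (1 : ℝ) ≤ y := by linarith
    exact_mod_cast this
  have hy0 : (0 : ℝ) < y := by exact_mod_cast hy1
  have h4 : (n : ℝ) ^ (1 - κ0) ≤ y := by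
    have h5 : (n : ℝ) ^ (1 - κ0) ≤ (2 * N : ℝ) ^ (1 - κ0) := by
      apply Real.rpow_le_rpow (Nat.cast_nonneg _) _ (by linarith)
      exact_mod_cast hn
    have h6 : (2 * N : ℝ) ^ (1 - κ0) ≤ 2 * (N : ℝ) ^ (1 - κ0) := by
      rw [Real.mul_rpow (by norm_num) hN0.le]
      apply mul_le_mul_of_nonneg_right _ (by positivity)
      calc (2 : ℝ) ^ (1 - κ0) ≤ (2 : ℝ) ^ (1 : ℝ) := Real.rpow_le_rpow_of_exponent_le (by norm_num) (by linarith)
        _ = 2 := Real.rpow_one _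
    have h7 : (N : ℝ) ^ (1 - κ0 / 2) = (N : ℝ) ^ (1 - κ0) * (N : ℝ) ^ (κ0 / 2) := by
      rw [← Real.rpow_add hN0]
      congr 1
      ring
    have h8 : 1 ≤ (N : ℝ) ^ (1 - κ0) := Real.one_le_rpow hNr (by linarith)
    rw [h7] at hy'
    nlinarith
  rw [av_theta n y hy1, abs_div, abs_of_pos hy0, div_le_iff₀ hy0]
  exact hY0 n y hyY h4

/-- the upper bound of the averages -/
lemma av_bdd (ε : ℝ) (hε : 0 < ε) : ∀ᶠ N : ℕ in atTop, ∀ y n : ℕ, (N : ℝ) ^ ε / 4 ≤ y → n + y ≤ 4 * N →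
    av y n ≤ 12 / ε := by
  obtain ⟨Y0, hY02, hbt⟩ := Pool.Agent.H902R3.C469.bt2 1 one_pos
  have e1 : ∀ᶠ N : ℕ in atTop, 4 * (Y0 : ℝ) ≤ (N : ℝ) ^ ε :=
    ((tendsto_rpow_atTop hε).comp tendsto_natCast_atTop_atTop).eventually_ge_atTop _
  filter_upwards [e1, ev_log4 1 one_pos, ev_L (6 / ε), eventually_ge_atTop 1] with N h1 h2 h3 hN1 y n hy hn
  have hN0 : (0 : ℝ) < N := by exact_mod_cast hN1
  have hyY : Y0 ≤ y := by
    have : (Y0 : ℝ) ≤ y := by linarith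
    exact_mod_cast this
  have hy1 : 2 ≤ y := by omega
  have hy0 : (0 : ℝ) < y := by exact_mod_cast (by omega : 0 < y)
  have hb := hbt n y hyY
  have hlog4 : Real.log (4 : ℝ) ≤ 3 := by
    have := Real.log_le_sub_one_of_pos (show (0 : ℝ) < 4 by norm_num)
    linarith
  have hly : ε / 2 * Real.log N ≤ Real.log y := by
    have h4 := Real.log_le_log (by positivity : (0 : ℝ) < (N : ℝ) ^ ε / 4) hy
    rw [Real.log_div (by positivity) (by norm_num), Real.log_rpow hN0] at h4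
    rw [div_le_iff₀ hε] at h3
    linarith
  have hlN : 0 < Real.log (N : ℝ) := lt_of_lt_of_le (by positivity) h3
  have hly0 : 0 < Real.log (y : ℝ) := lt_of_lt_of_le (by positivity) hly
  have h5 : ∑ h ∈ Ioc 0 y, om (n + h) ≤ (pn n y : ℝ) * (2 * Real.log N) := by
    rw [pn_eq, sum_mul]
    apply sum_le_sum
    intro h hh
    rw [mem_Ioc] at hh
    unfold om
    split_ifs with hp
    · rw [one_mul]
      have : Real.log ((n + h : ℕ) : ℝ) ≤ Real.log ((4 * N : ℕ) : ℝ) :=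
        Real.log_le_log (by exact_mod_cast (by omega : 0 < n + h)) (by exact_mod_cast (by omega : n + h ≤ 4 * N))
      linarith
    · rw [zero_mul]
  have h6 : (pn n y : ℝ) ≤ 3 * y / Real.log y := by
    have : pn n y = ((Ioc n (n + y)).filter Nat.Prime).card := rfl
    rw [this]
    refine hb.trans (le_of_eq ?_)
    norm_num
  unfold av
  rw [div_le_iff₀ hy0]
  refine h5.trans ?_
  calc (pn n y : ℝ) * (2 * Real.log N) ≤ 3 * y / Real.log y * (2 * Real.log N) :=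
        mul_le_mul_of_nonneg_right h6 (by positivity)
    _ ≤ 3 * y / (ε / 2 * Real.log N) * (2 * Real.log N) := by
        apply mul_le_mul_of_nonneg_right _ (by positivity)
        exact div_le_div_of_nonneg_left (by positivity) (by positivity) hly
    _ = _ := by
        field_simp
        ring

set_option maxHeartbeats 1000000 in
theorem wpow (p B : ℕ) (ε δ G0 : ℝ) (hε : 0 < ε) (hδ : 0 < δ) (hG0 : 0 < G0) : ∃ κ : ℝ, 0 < κ ∧
    ∀ᶠ N : ℕ in atTop, ∀ (x : ℕ) (s : ℕ → ℤ),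
    (∀ m ∈ Icc 1 x, |s m| ≤ B * N) →
    (energy p x s : ℝ) * N ≤ (N : ℝ) ^ κ * (x : ℝ) ^ (2 * p) →
    ∀ M : ℕ, (N : ℝ) ^ (1 - κ) ≤ M →
    ∀ G : ℕ → ℝ, (∀ n, |G n| ≤ G0) → ∑ n ∈ Icc 1 N, |G n| ≤ G0 * M →
    ∀ y : ℕ, (N : ℝ) ^ ε / 4 ≤ y → y ≤ 2 * N →
    ∀ S : Finset ℕ, S ⊆ Icc 1 x → (∀ m ∈ S, 0 < s m ∧ s m ≤ N ∧
      δ * M < |∑ n ∈ Icc 1 N, G n * (av y (n + (s m).toNat) - 1)|) →
    (S.card : ℝ) ≤ x / (N : ℝ) ^ κ := by
  obtain ⟨κ1, hκ1, hκ11, hlong⟩ := long_av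
  obtain ⟨κ', hκ', hsup⟩ := psup B ε κ1 hε hκ1 hκ11
  obtain ⟨κ, hκ, hκle, hlam⟩ := lam_pow p B κ' hκ'
  refine ⟨κ, hκ, ?_⟩
  filter_upwards [hsup, hlam, hlong (δ / (4 * G0)) (by positivity), ev_log 0 (2 * G0 / δ) κ hκ,
    ev_L (Real.log ((4 * (B + 1) : ℕ) : ℝ) + 4), ev_one] with N h1 hl h3 h4 h5 hN1
    x s hs hE M hM G hG hG1 y hy1 hy2 S hSx hS
  classical
  obtain ⟨hK1, h2⟩ := h1
  have hN0 : (0 : ℝ) < N := by exact_mod_cast hN1
  have hNr : (1 : ℝ) ≤ N := by exact_mod_cast hN1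
  rw [pow_zero, mul_one] at h4
  obtain ⟨L, hL⟩ : ∃ L, L = Real.log (N : ℝ) := ⟨_, rfl⟩
  rw [← hL] at h5 hl
  have hlB : 0 ≤ Real.log ((4 * (B + 1) : ℕ) : ℝ) := Real.log_natCast_nonneg _
  have hL1 : 1 ≤ L := by linarith
  obtain ⟨K, hK⟩ : ∃ K, K = ⌊(N : ℝ) ^ (1 - κ1)⌋₊ := ⟨_, rfl⟩
  rw [← hK] at hK1 h2 h3
  have hM0 : (0 : ℝ) < M := lt_of_lt_of_le (by positivity) hM
  have hy0 : (0 : ℝ) < y := lt_of_lt_of_le (by positivity) hy1
  have hy : 1 ≤ y := by exact_mod_cast hy0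
  have hlong : ∀ K' : ℕ, K ≤ K' → ∀ m ∈ S,
      |∑ n ∈ Icc 1 N, G n * (av K' (n + (s m).toNat) - 1)| ≤ δ / 4 * M := by
    intro K' hK' m hm
    obtain ⟨g1, g2, _⟩ := hS m hm
    have g3 : (s m).toNat ≤ N := by omega
    refine (abs_sum_le_sum_abs _ _).trans ?_
    have e2 : ∀ a ∈ Icc 1 N, |G a * (av K' (a + (s m).toNat) - 1)| ≤ |G a| * (δ / (4 * G0)) := by
      intro a ha
      have := (mem_Icc.1 ha).2
      rw [abs_mul]
      exact mul_le_mul_of_nonneg_left (h3 K' _ hK' (by omega)) (abs_nonneg _)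
    refine (sum_le_sum e2).trans ?_
    rw [← sum_mul]
    calc (∑ n ∈ Icc 1 N, |G n|) * (δ / (4 * G0)) ≤ (G0 * M) * (δ / (4 * G0)) :=
          mul_le_mul_of_nonneg_right hG1 (by positivity)
      _ = _ := by field_simp
  rcases le_or_gt y K with hyK | hyK
  · -- short intervals
    obtain ⟨H, hH⟩ : ∃ H, H = 2 * ((B + 1) * N) := ⟨_, rfl⟩
    have hKN : K ≤ N := by
      have e1 : (K : ℝ) ≤ (N : ℝ) ^ (1 - κ1) := by rw [hK]; exact Nat.floor_le (by positivity)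
      have e2 : (N : ℝ) ^ (1 - κ1) ≤ (N : ℝ) ^ (1 : ℝ) := Real.rpow_le_rpow_of_exponent_le hNr (by linarith)
      rw [Real.rpow_one] at e2
      exact_mod_cast e1.trans e2
    have hNB : N ≤ (B + 1) * N := Nat.le_mul_of_pos_left _ (by omega)
    have hNH : 2 * N ≤ H := by omega
    have hlogH : Real.log ((2 * H : ℕ) : ℝ) ≤ 2 * L := by
      have e : ((2 * H : ℕ) : ℝ) = ((4 * (B + 1) : ℕ) : ℝ) * N := by rw [hH]; push_cast; ring
      rw [e, Real.log_mul (by positivity) hN0.ne', ← hL]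
      linarith
    obtain ⟨f, hf⟩ : ∃ f : ℕ → ℂ, f = fun n => ((av y n - av K n : ℝ) : ℂ) := ⟨_, rfl⟩
    have b6 := hl x s hs hE f (fun α => by rw [hf]; exact_mod_cast h2 y hy1 hyK α) (by
      intro n hn
      rw [mem_Icc, ← hH] at hn
      have e1 := av_le y n (2 * H) hy (by omega)
      have e2 := av_le K n (2 * H) hK1 (by omega)
      rw [abs_of_nonneg (av_nonneg _ _)] at e1 e2
      have e3 := av_nonneg y n
      have e4 := av_nonneg K n
      rw [hf]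
      simp only
      rw [Complex.norm_real, Real.norm_eq_abs, abs_le]
      constructor <;> linarith) N hNB (fun a => ((G a / G0 : ℝ) : ℂ)) (by
      intro a
      rw [Complex.norm_real, Real.norm_eq_abs, abs_div, abs_of_pos hG0, div_le_one hG0]
      exact hG a)
    rw [← hH] at b6
    have b7 : ∀ m ∈ S, (δ / (2 * G0)) * M ≤ ‖∑ a ∈ Icc 1 N, ((G a / G0 : ℝ) : ℂ) * fz f H (a + s m)‖ := by
      intro m hm
      obtain ⟨g1, g2, g3⟩ := hS m hm
      have g4 := hlong K le_rfl m hm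
      have e1 : ∑ a ∈ Icc 1 N, ((G a / G0 : ℝ) : ℂ) * fz f H (a + s m) =
          (((∑ a ∈ Icc 1 N, G a * (av y (a + (s m).toNat) - av K (a + (s m).toNat))) / G0 : ℝ) : ℂ) := by
        rw [sum_div]
        push_cast
        apply sum_congr rfl
        intro a ha
        have e2 := mem_Icc.1 ha
        have e3 : (a : ℤ) + s m = ((a + (s m).toNat : ℕ) : ℤ) := by
          push_cast
          rw [Int.toNat_of_nonneg g1.le]
        unfold fz
        rw [e3, Int.toNat_natCast, if_pos ⟨by exact_mod_cast (by omega : 1 ≤ a + (s m).toNat),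
          by exact_mod_cast (by omega : a + (s m).toNat ≤ H)⟩, hf]
        push_cast
        ring
      rw [e1, Complex.norm_real, Real.norm_eq_abs, abs_div, abs_of_pos hG0, le_div_iff₀ hG0]
      have e2 : ∑ a ∈ Icc 1 N, G a * (av y (a + (s m).toNat) - 1) =
          ∑ a ∈ Icc 1 N, G a * (av y (a + (s m).toNat) - av K (a + (s m).toNat)) +
          ∑ a ∈ Icc 1 N, G a * (av K (a + (s m).toNat) - 1) := by
        rw [← sum_add_distrib]
        apply sum_congr rfl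
        intro a _
        ring
      rw [e2] at g3
      have e3 := abs_add_le (∑ a ∈ Icc 1 N, G a * (av y (a + (s m).toNat) - av K (a + (s m).toNat)))
        (∑ a ∈ Icc 1 N, G a * (av K (a + (s m).toNat) - 1))
      have e4 : δ / (2 * G0) * M * G0 = δ / 2 * M := by field_simp
      rw [e4]
      have e5 : 0 < δ * M := by positivity
      linarith
    have b8 : (S.card : ℝ) * ((δ / (2 * G0)) * M) ≤ N * x / (N : ℝ) ^ (3 * κ) := by
      refine le_trans ?_ b6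
      calc (S.card : ℝ) * ((δ / (2 * G0)) * M) = ∑ m ∈ S, (δ / (2 * G0)) * M := by
            rw [sum_const, nsmul_eq_mul]
        _ ≤ ∑ m ∈ S, ‖∑ a ∈ Icc 1 N, ((G a / G0 : ℝ) : ℂ) * fz f H (a + s m)‖ := sum_le_sum b7
        _ ≤ _ := sum_le_sum_of_subset_of_nonneg hSx fun _ _ _ => norm_nonneg _
    have b9 : (S.card : ℝ) * ((δ / (2 * G0)) * (N : ℝ) ^ (1 - κ)) ≤ N * x / (N : ℝ) ^ (3 * κ) := by
      refine le_trans ?_ b8
      gcongr
    obtain ⟨P, hP⟩ : ∃ P : ℝ, P = (N : ℝ) ^ κ := ⟨_, rfl⟩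
    have hP0 : 0 < P := by rw [hP]; positivity
    have hP3 : (N : ℝ) ^ (3 * κ) = P ^ 3 := by
      rw [hP, ← Real.rpow_natCast, ← Real.rpow_mul hN0.le]
      congr 1
      push_cast
      ring
    have hP1 : (N : ℝ) ^ (1 - κ) = N / P := by rw [hP, Real.rpow_sub hN0, Real.rpow_one]
    rw [hP3, hP1] at b9
    rw [← hP] at h4 ⊢
    rw [le_div_iff₀ hP0]
    have e1 : (S.card : ℝ) * (δ / (2 * G0) * (N / P)) * (P ^ 2 * (2 * G0 / δ)) = (S.card : ℝ) * P * N := by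
      field_simp
    have e2 : N * x / P ^ 3 * (P ^ 2 * (2 * G0 / δ)) = (2 * G0 / δ) / P * x * N := by
      field_simp
    have e3 : (S.card : ℝ) * P * N ≤ (2 * G0 / δ) / P * x * N := by
      rw [← e1, ← e2]
      exact mul_le_mul_of_nonneg_right b9 (by positivity)
    have e4 : (S.card : ℝ) * P ≤ (2 * G0 / δ) / P * x := le_of_mul_le_mul_right e3 hN0
    refine e4.trans ?_
    apply mul_le_of_le_one_left (Nat.cast_nonneg _)
    rw [div_le_one hP0]
    exact h4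
  · have hSe : S = ∅ := by
      rw [eq_empty_iff_forall_notMem]
      intro m hm
      have g4 := hlong y hyK.le m hm
      have g5 := (hS m hm).2.2
      have : 0 < δ * M := by positivity
      linarith
    rw [hSe, card_empty, Nat.cast_zero]
    positivity

end Run7.h756.PS
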