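import Pool.Agent.Run7.h756.PS2

set_option autoImplicit false

/-! Power saving versions: the induction over the number of translates. -/

namespace Run7.h756.PS

open Finset Filter Topology
open Pool.Agent.H373R2.T7
open Pool.Agent.W301.SS
open Pool.Agent.TH646 Pool.Agent.TH646.TT
open Run7.h756.GD

lemma PR_le2 {k N : ℕ} (Q : ℝ) (y : Fin k → ℕ) (u : Fin k → ℕ → ℕ) (t : Fin k → ℕ) (i : ℕ) (P : ℕ → Prop)
    (hQ : ∀ y n : ℕ, P y → n + y ≤ 4 * N → av y n ≤ Q)
    (hy : ∀ j, P (y j) ∧ y j ≤ 2 * N) (hu : ∀ j, u j i ≤ N) (ht : ∀ j, t j ≤ N) :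
    PR y u t i ≤ Q ^ k := by
  unfold PR
  calc ∏ j, av (y j) (u j i + t j) ≤ ∏ _j : Fin k, Q := by
        apply prod_le_prod (fun _ _ => av_nonneg _ _)
        intro j _
        have h1 := hu j
        have h2 := ht j
        have h3 := hy j
        exact hQ _ _ h3.1 (by omega)
    _ = _ := by rw [prod_const, card_univ, Fintype.card_fin]

set_option maxHeartbeats 4000000 in
theorem pcore (B : ℕ) (ε : ℝ) (hε : 0 < ε) : ∀ (k : ℕ) (p : Fin k → ℕ) (δ : ℝ), 0 < δ → ∃ κ : ℝ, 0 < κ ∧
    ∀ᶠ N : ℕ in atTop, ∀ (x : Fin k → ℕ) (s : Fin k → ℕ → ℤ),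
    (∀ j, ∀ m ∈ Icc 1 (x j), |s j m| ≤ B * N) →
    (∀ j, (energy (p j) (x j) (s j) : ℝ) * N ≤ (N : ℝ) ^ κ * (x j : ℝ) ^ (2 * p j)) →
    ∀ (M : ℕ) (u : Fin k → ℕ → ℕ), (N : ℝ) ^ (1 - κ) ≤ M → (∀ j, Set.InjOn (u j) (Icc 1 M)) →
    (∀ j, ∀ i ∈ Icc 1 M, u j i ∈ Icc 1 N) →
    ∀ y : Fin k → ℕ, (∀ j, (N : ℝ) ^ ε / 4 ≤ y j ∧ y j ≤ 2 * N) →
    ∀ S : Finset (Fin k → ℕ),
    (∀ m ∈ S, (∀ j, m j ∈ Icc 1 (x j) ∧ 0 < s j (m j) ∧ s j (m j) ≤ N) ∧
      δ * M < |∑ i ∈ Icc 1 M, PR y u (fun j => (s j (m j)).toNat) i - M|) →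
    (S.card : ℝ) ≤ (∏ j, (x j : ℝ)) / (N : ℝ) ^ κ := by
  classical
  intro k
  induction k with
  | zero =>
    intro p δ hδ
    refine ⟨1, one_pos, ?_⟩
    filter_upwards [ev_one] with N hN x s _ _ M u hM _ _ y _ S hS
    have hSe : S = ∅ := by
      rw [eq_empty_iff_forall_notMem]
      intro m hm
      have h1 := (hS m hm).2
      have e : ∑ i ∈ Icc 1 M, PR y u (fun j => (s j (m j)).toNat) i - (M : ℝ) = 0 := by
        unfold PR
        simp
      rw [e, abs_zero] at h1
      have : 0 ≤ δ * (M : ℝ) := by positivity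
      linarith
    rw [hSe, card_empty, Nat.cast_zero]
    positivity
  | succ k ih =>
    intro p δ hδ
    obtain ⟨κa, hκa, h1⟩ := ih (fun j => p j.castSucc) (δ / 2) (by positivity)
    obtain ⟨κb, hκb, h2⟩ := wpow (p (Fin.last k)) B ε (δ / 2) ((12 / ε) ^ k) hε (by positivity) (by positivity)
    obtain ⟨κ, hκ⟩ : ∃ κ, κ = min κa κb / 2 := ⟨_, rfl⟩
    have hκ0 : 0 < κ := by rw [hκ]; positivity
    have hκκa : 2 * κ ≤ κa := by rw [hκ]; linarith [min_le_left κa κb]
    have hκκb : 2 * κ ≤ κb := by rw [hκ]; linarith [min_le_right κa κb]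
    refine ⟨κ, hκ0, ?_⟩
    filter_upwards [h1, h2, av_bdd ε hε, ev_log 0 2 κ hκ0, ev_one] with N h1 h2 h3 h4 hN1
      x s hs hE M u hM hu hu2 y hy S hS
    have hN0 : (0 : ℝ) < N := by exact_mod_cast hN1
    have hNr : (1 : ℝ) ≤ N := by exact_mod_cast hN1
    rw [pow_zero, mul_one] at h4
    have hM0 : (0 : ℝ) < M := lt_of_lt_of_le (by positivity) hM
    have hEa : ∀ κ2 : ℝ, κ ≤ κ2 → ∀ j, (energy (p j) (x j) (s j) : ℝ) * N ≤ (N : ℝ) ^ κ2 * (x j : ℝ) ^ (2 * p j) := by
      intro κ2 h j
      refine (hE j).trans ?_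
      apply mul_le_mul_of_nonneg_right _ (by positivity)
      exact Real.rpow_le_rpow_of_exponent_le hNr h
    have hMa : ∀ κ2 : ℝ, κ ≤ κ2 → (N : ℝ) ^ (1 - κ2) ≤ M := by
      intro κ2 h
      refine le_trans ?_ hM
      exact Real.rpow_le_rpow_of_exponent_le hNr (by linarith)
    have b1' := h1 (fun j => x j.castSucc) (fun j => s j.castSucc)
      (fun j => hs j.castSucc) (fun j => hEa κa (by linarith) j.castSucc) M (fun j => u j.castSucc)
      (hMa κa (by linarith))
      (fun j => hu j.castSucc) (fun j => hu2 j.castSucc) (fun j => y j.castSucc) (fun j => hy j.castSucc)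
    have b2 := h2 (x (Fin.last k)) (s (Fin.last k)) (hs (Fin.last k)) (hEa κb (by linarith) (Fin.last k))
      M (hMa κb (by linarith))
    -- notation
    obtain ⟨PI, hPI⟩ : ∃ PI : (Fin k → ℕ) → ℕ → ℝ, PI = fun v i =>
      PR (fun j => y j.castSucc) (fun j => u j.castSucc) (fun j => (s j.castSucc (v j)).toNat) i := ⟨_, rfl⟩
    have hsplit : ∀ m : Fin (k + 1) → ℕ, ∑ i ∈ Icc 1 M, PR y u (fun j => (s j (m j)).toNat) i - M =
        ∑ i ∈ Icc 1 M, PI (fun j => m j.castSucc) i *
          (av (y (Fin.last k)) (u (Fin.last k) i + (s (Fin.last k) (m (Fin.last k))).toNat) - 1) +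
        (∑ i ∈ Icc 1 M, PI (fun j => m j.castSucc) i - M) := by
      intro m
      have e : ∀ i ∈ Icc 1 M, PR y u (fun j => (s j (m j)).toNat) i =
          PI (fun j => m j.castSucc) i *
          (av (y (Fin.last k)) (u (Fin.last k) i + (s (Fin.last k) (m (Fin.last k))).toNat) - 1) +
          PI (fun j => m j.castSucc) i := by
        intro i _
        rw [hPI]
        unfold PR
        rw [Fin.prod_univ_castSucc]
        ring
      rw [sum_congr rfl e, sum_add_distrib]
      ring
    obtain ⟨S1, hS1⟩ : ∃ S1 : Finset (Fin (k + 1) → ℕ), S1 = S.filter (fun m =>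
      δ / 2 * M < |∑ i ∈ Icc 1 M, PI (fun j => m j.castSucc) i - M|) := ⟨_, rfl⟩
    obtain ⟨S2, hS2⟩ : ∃ S2 : Finset (Fin (k + 1) → ℕ), S2 = S.filter (fun m =>
      δ / 2 * M < |∑ i ∈ Icc 1 M, PI (fun j => m j.castSucc) i *
          (av (y (Fin.last k)) (u (Fin.last k) i + (s (Fin.last k) (m (Fin.last k))).toNat) - 1)|) := ⟨_, rfl⟩
    have hcov : S ⊆ S1 ∪ S2 := by
      intro m hm
      rw [mem_union, hS1, hS2, mem_filter, mem_filter]
      by_contra hcon
      rw [not_or] at hcon
      have c1 : ¬ (δ / 2 * M < |∑ i ∈ Icc 1 M, PI (fun j => m j.castSucc) i - M|) :=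
        fun h => hcon.1 ⟨hm, h⟩
      have c2 : ¬ (δ / 2 * M < |∑ i ∈ Icc 1 M, PI (fun j => m j.castSucc) i *
          (av (y (Fin.last k)) (u (Fin.last k) i + (s (Fin.last k) (m (Fin.last k))).toNat) - 1)|) :=
        fun h => hcon.2 ⟨hm, h⟩
      rw [not_lt] at c1 c2
      have c3 := (hS m hm).2
      rw [hsplit m] at c3
      have c4 := abs_add_le (∑ i ∈ Icc 1 M, PI (fun j => m j.castSucc) i *
          (av (y (Fin.last k)) (u (Fin.last k) i + (s (Fin.last k) (m (Fin.last k))).toNat) - 1))
          (∑ i ∈ Icc 1 M, PI (fun j => m j.castSucc) i - M)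
      linarith
    have hprod : ∏ j, (x j : ℝ) = (∏ j : Fin k, (x j.castSucc : ℝ)) * x (Fin.last k) :=
      Fin.prod_univ_castSucc _
    -- first part
    have c1 : (S1.card : ℝ) ≤ (∏ j, (x j : ℝ)) / (N : ℝ) ^ κa := by
      have e1 : (((S1.image (fun m => fun j : Fin k => m j.castSucc)).card : ℕ) : ℝ) ≤
          (∏ j : Fin k, (x j.castSucc : ℝ)) / (N : ℝ) ^ κa := by
        apply b1'
        intro v hv
        rw [mem_image] at hv
        obtain ⟨m, hm, rfl⟩ := hv
        rw [hS1, mem_filter] at hm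
        refine ⟨fun j => (hS m hm.1).1 j.castSucc, ?_⟩
        have := hm.2
        rw [hPI] at this
        exact this
      have e2 : S1.card ≤ (S1.image (fun m => fun j : Fin k => m j.castSucc)).card *
          x (Fin.last k) := by
        have e3 : x (Fin.last k) = (Icc 1 (x (Fin.last k))).card := by
          rw [Nat.card_Icc, Nat.add_sub_cancel]
        rw [e3, ← card_product]
        apply card_le_card_of_injOn (fun m => ((fun j : Fin k => m j.castSucc), m (Fin.last k)))
        · intro m hm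
          have hm' : m ∈ S1 := hm
          rw [mem_coe, mem_product]
          refine ⟨mem_image_of_mem _ hm', ?_⟩
          rw [hS1, mem_filter] at hm'
          exact ((hS m hm'.1).1 (Fin.last k)).1
        · intro m _ m' _ h
          have h1 := congrArg Prod.fst h
          have h2 := congrArg Prod.snd h
          funext j
          refine Fin.lastCases ?_ (fun j => ?_) j
          · exact h2
          · exact congrFun h1 j
      calc (S1.card : ℝ) ≤ ((S1.image (fun m => fun j : Fin k => m j.castSucc)).card : ℝ) *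
            x (Fin.last k) := by exact_mod_cast e2
        _ ≤ (∏ j : Fin k, (x j.castSucc : ℝ)) / (N : ℝ) ^ κa * x (Fin.last k) :=
            mul_le_mul_of_nonneg_right e1 (Nat.cast_nonneg _)
        _ = _ := by rw [hprod]; ring
    -- second part
    have c2 : (S2.card : ℝ) ≤ (∏ j, (x j : ℝ)) / (N : ℝ) ^ κb := by
      have hfib : ∀ v ∈ S2.image (fun m => fun j : Fin k => m j.castSucc),
          ((S2.filter (fun m => (fun j : Fin k => m j.castSucc) = v)).card : ℝ) ≤
            x (Fin.last k) / (N : ℝ) ^ κb := by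
        intro v hv
        rw [mem_image] at hv
        obtain ⟨m0, hm0, rfl⟩ := hv
        rw [hS2, mem_filter] at hm0
        have hm0' := (hS m0 hm0.1).1
        obtain ⟨P, hP⟩ : ∃ P : ℕ → ℝ, P = PI (fun j : Fin k => m0 j.castSucc) := ⟨_, rfl⟩
        have hP0 : ∀ i, 0 ≤ P i := by
          intro i
          rw [hP, hPI]
          exact PR_nonneg _ _ _ _
        have hP1 : ∀ i ∈ Icc 1 M, P i ≤ (12 / ε) ^ k := by
          intro i hi
          rw [hP, hPI]
          refine PR_le2 (N := N) (12 / ε) _ _ _ _ (fun z : ℕ => (N : ℝ) ^ ε / 4 ≤ z) h3 (fun j => ⟨(hy _).1, (hy _).2⟩)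
            (fun j => (mem_Icc.1 (hu2 j.castSucc i hi)).2) (fun j => ?_)
          have := (hm0' j.castSucc).2
          show (s j.castSucc (m0 j.castSucc)).toNat ≤ N
          omega
        obtain ⟨G, hG⟩ : ∃ G : ℕ → ℝ, G = fun n =>
          ∑ i ∈ (Icc 1 M).filter (fun i => u (Fin.last k) i = n), P i := ⟨_, rfl⟩
        have hG0 : ∀ n, 0 ≤ G n := by
          intro n
          rw [hG]
          exact sum_nonneg fun i _ => hP0 i
        have hG1 : ∀ n, |G n| ≤ (12 / ε) ^ k := by
          intro n
          rw [abs_of_nonneg (hG0 n), hG]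
          simp only
          rcases ((Icc 1 M).filter (fun i => u (Fin.last k) i = n)).eq_empty_or_nonempty with h | ⟨i, hi⟩
          · rw [h, sum_empty]; positivity
          · have e1 : (Icc 1 M).filter (fun i => u (Fin.last k) i = n) = {i} := by
              ext i'
              rw [mem_singleton]
              constructor
              · intro hi'
                rw [mem_filter] at hi hi'
                exact hu (Fin.last k) (mem_coe.2 hi'.1) (mem_coe.2 hi.1) (hi'.2.trans hi.2.symm)
              · rintro rfl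
                exact hi
            rw [e1, sum_singleton]
            rw [mem_filter] at hi
            exact hP1 i hi.1
        have hG2 : ∀ f : ℕ → ℝ, ∑ n ∈ Icc 1 N, G n * f n = ∑ i ∈ Icc 1 M, P i * f (u (Fin.last k) i) := by
          intro f
          rw [← sum_fiberwise_of_maps_to (s := Icc 1 M) (t := Icc 1 N) (g := u (Fin.last k))
            (fun i hi => hu2 (Fin.last k) i hi)]
          apply sum_congr rfl
          intro n _
          rw [hG]
          simp only
          rw [sum_mul]
          apply sum_congr rfl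
          intro i hi
          rw [mem_filter] at hi
          rw [hi.2]
        have hG3 : ∑ n ∈ Icc 1 N, |G n| ≤ (12 / ε) ^ k * M := by
          have e1 : ∑ n ∈ Icc 1 N, |G n| = ∑ n ∈ Icc 1 N, G n * (fun _ => (1 : ℝ)) n := by
            apply sum_congr rfl
            intro n _
            rw [abs_of_nonneg (hG0 n), mul_one]
          rw [e1, hG2]
          calc ∑ i ∈ Icc 1 M, P i * 1 ≤ ∑ _i ∈ Icc 1 M, (12 / ε) ^ k := by
                apply sum_le_sum
                intro i hi
                rw [mul_one]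
                exact hP1 i hi
            _ = _ := by rw [sum_const, nsmul_eq_mul, Nat.card_Icc, Nat.add_sub_cancel, mul_comm]
        have e1 := b2 G hG1 hG3 (y (Fin.last k)) (hy _).1 (hy _).2
          ((S2.filter (fun m => (fun j : Fin k => m j.castSucc) = (fun j : Fin k => m0 j.castSucc))).image
            (fun m => m (Fin.last k))) (by
            intro a ha
            rw [mem_image] at ha
            obtain ⟨m, hm, rfl⟩ := ha
            rw [mem_filter, hS2, mem_filter] at hm
            exact ((hS m hm.1.1).1 (Fin.last k)).1) (by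
            intro a ha
            rw [mem_image] at ha
            obtain ⟨m, hm, rfl⟩ := ha
            rw [mem_filter, hS2, mem_filter] at hm
            obtain ⟨⟨g1, g2⟩, g3⟩ := hm
            obtain ⟨_, g5, g6⟩ := (hS m g1).1 (Fin.last k)
            refine ⟨g5, g6, ?_⟩
            rw [hG2 (fun n => av (y (Fin.last k)) (n + (s (Fin.last k) (m (Fin.last k))).toNat) - 1)]
            rw [g3, ← hP] at g2
            exact g2)
        refine le_trans ?_ e1
        have e2 : (S2.filter (fun m => (fun j : Fin k => m j.castSucc) = (fun j : Fin k => m0 j.castSucc))).card =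
          ((S2.filter (fun m => (fun j : Fin k => m j.castSucc) = (fun j : Fin k => m0 j.castSucc))).image
            (fun m => m (Fin.last k))).card := by
          rw [card_image_of_injOn]
          intro m hm m' hm' h
          rw [mem_coe, mem_filter] at hm hm'
          funext j
          refine Fin.lastCases ?_ (fun j => ?_) j
          · exact h
          · exact congrFun (hm.2.trans hm'.2.symm) j
        rw [e2]
      have himg : ((S2.image (fun m => fun j : Fin k => m j.castSucc)).card : ℝ) ≤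
          ∏ j : Fin k, (x j.castSucc : ℝ) := by
        have e1 : S2.image (fun m => fun j : Fin k => m j.castSucc) ⊆
            Fintype.piFinset (fun j : Fin k => Icc 1 (x j.castSucc)) := by
          intro v hv
          rw [mem_image] at hv
          obtain ⟨m, hm, rfl⟩ := hv
          rw [hS2, mem_filter] at hm
          rw [Fintype.mem_piFinset]
          intro j
          exact ((hS m hm.1).1 j.castSucc).1
        have e2 := card_le_card e1
        rw [Fintype.card_piFinset] at e2
        simp only [Nat.card_Icc, Nat.add_sub_cancel] at e2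
        exact_mod_cast e2
      have e3 : (S2.card : ℝ) = ∑ v ∈ S2.image (fun m => fun j : Fin k => m j.castSucc),
          ((S2.filter (fun m => (fun j : Fin k => m j.castSucc) = v)).card : ℝ) := by
        have := card_eq_sum_card_image (fun m : Fin (k + 1) → ℕ => fun j : Fin k => m j.castSucc) S2
        exact_mod_cast this
      rw [e3]
      refine (sum_le_sum hfib).trans ?_
      rw [sum_const, nsmul_eq_mul, hprod]
      calc _ ≤ (∏ j : Fin k, (x j.castSucc : ℝ)) * (x (Fin.last k) / (N : ℝ) ^ κb) :=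
            mul_le_mul_of_nonneg_right himg (by positivity)
        _ = _ := by ring
    have hX0 : 0 ≤ ∏ j, (x j : ℝ) := prod_nonneg fun _ _ => Nat.cast_nonneg _
    have hpow : ∀ κ2 : ℝ, 2 * κ ≤ κ2 → 2 * ((∏ j, (x j : ℝ)) / (N : ℝ) ^ κ2) ≤ (∏ j, (x j : ℝ)) / (N : ℝ) ^ κ := by
      intro κ2 h
      have hP0 : 0 < (N : ℝ) ^ κ := by positivity
      have e1 : (N : ℝ) ^ κ * 2 ≤ (N : ℝ) ^ κ2 := by
        calc (N : ℝ) ^ κ * 2 ≤ (N : ℝ) ^ κ * (N : ℝ) ^ κ := mul_le_mul_of_nonneg_left h4 hP0.le
          _ = (N : ℝ) ^ (2 * κ) := by rw [← Real.rpow_add hN0]; congr 1; ring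
          _ ≤ _ := Real.rpow_le_rpow_of_exponent_le hNr h
      calc 2 * ((∏ j, (x j : ℝ)) / (N : ℝ) ^ κ2) ≤ 2 * ((∏ j, (x j : ℝ)) / ((N : ℝ) ^ κ * 2)) := by
            apply mul_le_mul_of_nonneg_left _ (by norm_num)
            exact div_le_div_of_nonneg_left hX0 (by positivity) e1
        _ = _ := by field_simp
    have hc : (S.card : ℝ) ≤ S1.card + S2.card := by
      exact_mod_cast (card_le_card hcov).trans (card_union_le _ _)
    have := hpow κa hκκa
    have := hpow κb hκκb
    linarith

end Run7.h756.PS
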