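import Pool.Agent.Run7.h756.PS3

set_option autoImplicit false

/-! Power saving versions: from the grid of lengths to all real lengths. -/

namespace Run7.h756.PS

open Finset Filter
open Pool.Agent.H373R2.T7
open Pool.Agent.W301.SS
open Pool.Agent.TH646 Pool.Agent.TH646.TT
open Run7.h756.GD

/-- the grid lengths around a real length -/
lemma grid_mem2 (η ℓ T : ℝ) (hη : 0 < η) (hη1 : η ≤ 1 / 8) (hℓ : 2 / η + 8 ≤ ℓ) (hT : 1 ≤ T) (N : ℕ) (H : ℝ)
    (hH : 4 * T ≤ H) (hH1 : ℓ ≤ H) (hHN : H ≤ N) :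
    ∃ j : ℕ, (1 + η) ^ j ≤ (N : ℝ) ∧ gr η j ≤ ⌊H⌋₊ ∧ ⌊H⌋₊ ≤ gr η (j + 1) ∧
      (gr η (j + 1) : ℝ) ≤ (1 + η) * ⌊H⌋₊ ∧ (1 - 2 * η) * ⌊H⌋₊ ≤ gr η j ∧ T ≤ gr η j ∧
      gr η (j + 1) ≤ 2 * N ∧ H ≤ (1 + η) * ⌊H⌋₊ ∧ 1 ≤ gr η j := by
  have h2η : 0 < 2 / η := by positivity
  have hℓ1 : 1 ≤ ℓ := by linarith
  have hH0 : 0 < H := by linarith
  have hfl := Nat.lt_floor_add_one H
  have hfl2 := Nat.floor_le hH0.le
  have h2 : 1 / η + 1 ≤ (⌊H⌋₊ : ℝ) := by
    have : 2 / η = 1 / η + 1 / η := by ring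
    have h8 : (8 : ℝ) ≤ 1 / η := by
      rw [le_div_iff₀ hη]; linarith
    linarith
  have h1η : 0 < 1 / η := by positivity
  obtain ⟨j, g1, g2, g3, g4, g5⟩ := gr_mem hη (by linarith) ⌊H⌋₊
    (by
      have : (1 : ℝ) ≤ (⌊H⌋₊ : ℝ) := by linarith
      exact_mod_cast this) (by linarith)
  have hH2 : H ≤ (1 + η) * ⌊H⌋₊ := by
    have e1 : 1 ≤ η * ⌊H⌋₊ := by
      have : 1 / η ≤ (⌊H⌋₊ : ℝ) := by linarith
      rw [div_le_iff₀ hη] at this
      linarith
    linarith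
  have hK : T ≤ gr η j := by
    refine le_trans ?_ g5
    have e1 : H / 2 ≤ (⌊H⌋₊ : ℝ) := by nlinarith
    have e2 : (1 / 2) * (⌊H⌋₊ : ℝ) ≤ (1 - 2 * η) * ⌊H⌋₊ := by
      apply mul_le_mul_of_nonneg_right _ (by linarith)
      linarith
    linarith
  refine ⟨j, ?_, g2, g3, g4, g5, hK, ?_, hH2, ?_⟩
  · exact g1.trans (hfl2.trans hHN)
  · have h3 : (gr η (j + 1) : ℝ) ≤ 2 * N := by
      refine g4.trans ?_
      have h5 : (0 : ℝ) ≤ N := by linarith
      nlinarith
    exact_mod_cast h3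
  · have : (1 : ℝ) ≤ gr η j := hT.trans hK
    exact_mod_cast this

/-- the mean value of the product of the densities for all lengths, from the grid -/
lemma all_len2 {k : ℕ} (N M : ℕ) (u : Fin k → ℕ → ℕ) (t : Fin k → ℕ) (η ε ℓ X T : ℝ) (hT : 1 ≤ T)
    (hη : 0 < η) (hη1 : η ≤ 1 / 8) (hℓN : ℓ = Real.log N) (hℓ : 2 / η + 8 ≤ ℓ)
    (hu : ∀ j, Set.InjOn (u j) (Icc 1 M)) (hu2 : ∀ j, ∀ i ∈ Icc 1 M, u j i ∈ Icc 1 N)
    (ht : ∀ j, t j ≤ N)
    (hX : (1 - η) * ℓ ≤ Real.log X) (hX0 : 0 < X) (hXM : k * X * ℓ ^ (2 * k) ≤ η * M)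
    (h4N : Real.log ((4 * N : ℕ) : ℝ) ≤ (1 + η) * ℓ) (hlog4 : Real.log ((4 * N : ℕ) : ℝ) ≤ ℓ ^ 2)
    (he1 : (1 + η) ^ (k + 1) ≤ 1 + ε) (he2 : 1 - ε ≤ (1 - 5 * η) ^ k * (1 - 2 * η))
    (hgrid : ∀ i : Fin k → ℕ, (∀ j, T ≤ gr η (i j) ∧ gr η (i j) ≤ 2 * N ∧
        (i j : ℝ) ≤ ℓ / Real.log (1 + η) + 1) →
      |∑ a ∈ Icc 1 M, PR (fun j => gr η (i j)) u t a - M| ≤ η * M)
    (H : Fin k → ℝ) (hH : ∀ j, 4 * T ≤ H j ∧ ℓ ≤ H j ∧ H j ≤ N) :
    |∑ a ∈ Icc 1 M, ∏ j, dens (u j a + t j) (H j) - M| ≤ ε * M := by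
  classical
  have h2η : 0 < 2 / η := by positivity
  have hℓ0 : 0 < ℓ := by linarith
  have hlr : 0 < Real.log (1 + η) := Real.log_pos (by linarith)
  have hM0 : (0 : ℝ) ≤ M := Nat.cast_nonneg M
  choose i g1 g2 g3 g4 g5 g6 g7 g8 g9 using fun j => grid_mem2 η ℓ T hη hη1 hℓ hT N (H j) (hH j).1 (hH j).2.1 (hH j).2.2
  have hH0 : ∀ j, 0 < H j := fun j => lt_of_lt_of_le (by positivity) (hH j).2.1
  have hij : ∀ j, (i j : ℝ) ≤ ℓ / Real.log (1 + η) := by
    intro j
    rw [le_div_iff₀ hlr, ← Real.log_pow, hℓN]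
    exact Real.log_le_log (by positivity) (g1 j)
  have hgg : ∀ j, (gr η (i j) : ℝ) ≤ gr η (i j + 1) := fun j => by exact_mod_cast (g2 j).trans (g3 j)
  have n1 := abs_le.1 (hgrid i (fun j => ⟨g6 j, by
    have := g2 j
    have := g3 j
    have := g7 j
    omega, by linarith [hij j]⟩))
  have n2 := abs_le.1 (hgrid (fun j => i j + 1) (fun j => ⟨(g6 j).trans (hgg j), g7 j, by
    push_cast
    linarith [hij j]⟩))
  have hη5 : 0 ≤ 1 - 5 * η := by linarith
  rw [abs_le]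
  constructor
  · -- lower bound
    obtain ⟨Bd, hBd⟩ : ∃ Bd : Finset ℕ, Bd = (Icc 1 M).filter (fun a => ∃ j, ((u j a : ℕ) : ℝ) < X) := ⟨_, rfl⟩
    have hBdsub : Bd ⊆ Icc 1 M := by rw [hBd]; exact filter_subset _ _
    have hBdc : (Bd.card : ℝ) ≤ k * X := by
      have e1 : Bd ⊆ (univ : Finset (Fin k)).biUnion (fun j => (Icc 1 M).filter (fun a => ((u j a : ℕ) : ℝ) < X)) := by
        intro a ha
        rw [hBd, mem_filter] at ha
        obtain ⟨ha, j, hj⟩ := ha
        rw [mem_biUnion]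
        exact ⟨j, mem_univ _, mem_filter.2 ⟨ha, hj⟩⟩
      have e2 : ∀ j : Fin k, (((Icc 1 M).filter (fun a => ((u j a : ℕ) : ℝ) < X)).card : ℝ) ≤ X := by
        intro j
        have e3 : ((Icc 1 M).filter (fun a => ((u j a : ℕ) : ℝ) < X)).card ≤ (Icc 1 ⌊X⌋₊).card := by
          apply card_le_card_of_injOn (u j)
          · intro a ha
            rw [mem_coe, mem_filter] at ha
            rw [mem_coe, mem_Icc]
            exact ⟨(mem_Icc.1 (hu2 j a ha.1)).1, Nat.le_floor ha.2.le⟩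
          · intro a ha b hb hab
            rw [mem_coe, mem_filter] at ha hb
            exact hu j (mem_coe.2 ha.1) (mem_coe.2 hb.1) hab
        rw [Nat.card_Icc, Nat.add_sub_cancel] at e3
        have e4 := Nat.floor_le hX0.le
        have e5 : (((Icc 1 M).filter (fun a => ((u j a : ℕ) : ℝ) < X)).card : ℝ) ≤ (⌊X⌋₊ : ℝ) := by
          exact_mod_cast e3
        linarith
      have e3 : (Bd.card : ℝ) ≤ ∑ j : Fin k, (((Icc 1 M).filter (fun a => ((u j a : ℕ) : ℝ) < X)).card : ℝ) := by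
        exact_mod_cast (card_le_card e1).trans card_biUnion_le
      refine e3.trans ((sum_le_sum fun j _ => e2 j).trans (le_of_eq ?_))
      rw [sum_const, card_univ, Fintype.card_fin, nsmul_eq_mul]
    have hBds : ∑ a ∈ Bd, PR (fun j => gr η (i j)) u t a ≤ η * M := by
      refine le_trans ?_ hXM
      calc ∑ a ∈ Bd, PR (fun j => gr η (i j)) u t a ≤ ∑ _a ∈ Bd, ℓ ^ (2 * k) := by
            apply sum_le_sum
            intro a ha
            refine (PR_le (N := N) _ _ _ _ (fun j => ⟨g9 j, ?_⟩)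
              (fun j => (mem_Icc.1 (hu2 j a (hBdsub ha))).2) ht).trans ?_
            · have := g2 j
              have := g3 j
              have := g7 j
              omega
            · rw [pow_mul]
              exact pow_le_pow_left₀ (Real.log_natCast_nonneg _) hlog4 k
        _ = Bd.card * ℓ ^ (2 * k) := by rw [sum_const, nsmul_eq_mul]
        _ ≤ _ := mul_le_mul_of_nonneg_right hBdc (by positivity)
    have hgood : (1 - 5 * η) ^ k * ∑ a ∈ Icc 1 M \ Bd, PR (fun j => gr η (i j)) u t a ≤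
        ∑ a ∈ Icc 1 M \ Bd, ∏ j, dens (u j a + t j) (H j) := by
      rw [mul_sum]
      apply sum_le_sum
      intro a ha
      rw [Finset.mem_sdiff] at ha
      unfold PR
      have e1 : (1 - 5 * η) ^ k = ∏ _j : Fin k, (1 - 5 * η) := by
        rw [prod_const, card_univ, Fintype.card_fin]
      rw [e1, ← prod_mul_distrib]
      apply Finset.prod_le_prod
      · intro j _
        exact mul_nonneg hη5 (av_nonneg _ _)
      · intro j _
        have hXa : X ≤ (u j a : ℝ) := by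
          by_contra hcon
          apply ha.2
          rw [hBd, mem_filter]
          exact ⟨ha.1, j, not_le.1 hcon⟩
        have hua := (mem_Icc.1 (hu2 j a ha.1)).2
        have htj := ht j
        have hg2N : gr η (i j) ≤ 2 * N := by
          have := g2 j
          have := g3 j
          have := g7 j
          omega
        apply dens_low (u j a + t j) (gr η (i j)) (H j) η ℓ hℓ0 hη hη1 _ _ (g9 j) (g2 j) (g5 j) (hH0 j) (g8 j)
        · refine hX.trans (Real.log_le_log hX0 ?_)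
          push_cast
          have : (0 : ℝ) ≤ t j := Nat.cast_nonneg _
          linarith
        · refine le_trans (Real.log_le_log ?_ ?_) h4N
          · exact_mod_cast (by have := g9 j; omega : 0 < u j a + t j + gr η (i j))
          · exact_mod_cast (by omega : u j a + t j + gr η (i j) ≤ 4 * N)
    have hsum : ∑ a ∈ Icc 1 M \ Bd, PR (fun j => gr η (i j)) u t a =
        ∑ a ∈ Icc 1 M, PR (fun j => gr η (i j)) u t a - ∑ a ∈ Bd, PR (fun j => gr η (i j)) u t a := by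
      rw [← sum_sdiff hBdsub]
      ring
    have hle : ∑ a ∈ Icc 1 M \ Bd, ∏ j, dens (u j a + t j) (H j) ≤
        ∑ a ∈ Icc 1 M, ∏ j, dens (u j a + t j) (H j) := by
      apply sum_le_sum_of_subset_of_nonneg sdiff_subset
      intro a _ _
      exact prod_nonneg fun j _ => dens_nonneg _ (hH0 j).le
    have h5k : 0 ≤ (1 - 5 * η) ^ k := by positivity
    have e1 : (1 - 5 * η) ^ k * ((1 - 2 * η) * M) ≤
        (1 - 5 * η) ^ k * ∑ a ∈ Icc 1 M \ Bd, PR (fun j => gr η (i j)) u t a := by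
      apply mul_le_mul_of_nonneg_left _ h5k
      rw [hsum]
      linarith [n1.1]
    have e2 : (1 - ε) * M ≤ (1 - 5 * η) ^ k * (1 - 2 * η) * M := mul_le_mul_of_nonneg_right he2 hM0
    nlinarith
  · -- upper bound
    have e1 : ∑ a ∈ Icc 1 M, ∏ j, dens (u j a + t j) (H j) ≤
        (1 + η) ^ k * ∑ a ∈ Icc 1 M, PR (fun j => gr η (i j + 1)) u t a := by
      rw [mul_sum]
      apply sum_le_sum
      intro a _
      unfold PR
      have e1 : (1 + η) ^ k = ∏ _j : Fin k, (1 + η) := by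
        rw [prod_const, card_univ, Fintype.card_fin]
      rw [e1, ← prod_mul_distrib]
      apply Finset.prod_le_prod
      · intro j _
        exact dens_nonneg _ (hH0 j).le
      · intro j _
        apply dens_up (u j a + t j) (gr η (i j + 1)) (H j) η (hH0 j) _ (g3 j) (g4 j) hη.le
        have := g9 j
        have := g2 j
        have := g3 j
        omega
    have e2 : (1 + η) ^ k * ∑ a ∈ Icc 1 M, PR (fun j => gr η (i j + 1)) u t a ≤ (1 + η) ^ k * ((1 + η) * M) := by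
      apply mul_le_mul_of_nonneg_left _ (by positivity)
      linarith [n2.2]
    have e3 : (1 + η) ^ k * ((1 + η) * M) = (1 + η) ^ (k + 1) * M := by rw [pow_succ]; ring
    have e4 : (1 + η) ^ (k + 1) * M ≤ (1 + ε) * M := mul_le_mul_of_nonneg_right he1 hM0
    linarith

end Run7.h756.PS
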