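import Pool.Agent.Run7.h756.PS4

set_option autoImplicit false

/-! Power saving versions: the final form for general families. -/

namespace Run7.h756.PS

open Finset Filter Topology
open Pool.Agent.H373R2.T7
open Pool.Agent.W301.SS
open Pool.Agent.TH646 Pool.Agent.TH646.TT
open Run7.h756.GD

lemma ev_tau2 (k : ℕ) (δ ε κ : ℝ) (hδ : 0 < δ) (hκ : 0 < κ) (h1 : 2 * κ ≤ δ) (h2 : 2 * κ ≤ ε)
    (h3 : 2 * κ ≤ 3 / 4) : ∀ᶠ N : ℕ in atTop,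
    ∀ M : ℕ, (N : ℝ) ^ (1 - κ) ≤ M → ∀ y : ℕ, (N : ℝ) ^ ε ≤ 2 * y →
        k * tau N δ y * Real.log N ^ (2 * k) ≤ δ * M := by
  filter_upwards [ev_log (2 * k + 18) (k * ((3 + 4 * 2 ^ 16) * (4 / δ ^ 2) + 2 / δ) / δ) κ hκ, ev_L 1, ev_one]
    with N a1 hℓ1 hN1 M hM y hy
  have hN0 : (0 : ℝ) < N := by exact_mod_cast hN1
  have hNr : (1 : ℝ) ≤ N := by exact_mod_cast hN1
  obtain ⟨ℓ, hℓ⟩ : ∃ ℓ, ℓ = Real.log (N : ℝ) := ⟨_, rfl⟩
  unfold tau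
  rw [← hℓ] at a1 hℓ1 ⊢
  have hℓ0 : 0 < ℓ := by linarith
  obtain ⟨W, hW⟩ : ∃ W : ℝ, W = (N : ℝ) ^ (1 - 2 * κ) := ⟨_, rfl⟩
  have hW0 : 0 < W := by rw [hW]; positivity
  have hy0 : (0 : ℝ) < y := by
    have : 0 < (N : ℝ) ^ ε := by positivity
    linarith
  have e1 : (N : ℝ) ^ (1 - δ) ≤ W := by rw [hW]; exact Real.rpow_le_rpow_of_exponent_le hNr (by linarith)
  have e2 : 2 * (N : ℝ) / y ≤ 4 * W := by
    rw [div_le_iff₀ hy0]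
    have e3 : (N : ℝ) ≤ W * (N : ℝ) ^ ε := by
      rw [hW, ← Real.rpow_add hN0]
      calc (N : ℝ) = (N : ℝ) ^ (1 : ℝ) := (Real.rpow_one _).symm
        _ ≤ _ := Real.rpow_le_rpow_of_exponent_le hNr (by linarith)
    have e4 : W * (N : ℝ) ^ ε ≤ W * (2 * y) := mul_le_mul_of_nonneg_left hy hW0.le
    linarith
  have e3 : (N : ℝ) ^ (1 / 4 : ℝ) ≤ W := by rw [hW]; exact Real.rpow_le_rpow_of_exponent_le hNr (by linarith)
  have hq : ∀ a b : ℕ, a ≤ b → ℓ ^ a ≤ ℓ ^ b := fun a b h => pow_le_pow_right₀ hℓ1 h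
  have e4 : (3 * (N : ℝ) ^ (1 - δ) + (2 * N / y) * (2 * ℓ) ^ 16) * (4 * ℓ ^ 2 / δ ^ 2) +
      (N : ℝ) ^ (1 / 4 : ℝ) * (2 * ℓ / δ) ≤ W * (((3 + 4 * 2 ^ 16) * (4 / δ ^ 2) + 2 / δ) * ℓ ^ 18) := by
    calc (3 * (N : ℝ) ^ (1 - δ) + (2 * N / y) * (2 * ℓ) ^ 16) * (4 * ℓ ^ 2 / δ ^ 2) +
      (N : ℝ) ^ (1 / 4 : ℝ) * (2 * ℓ / δ) ≤ (3 * W + (4 * W) * (2 * ℓ) ^ 16) * (4 * ℓ ^ 2 / δ ^ 2) +
          W * (2 * ℓ / δ) := by gcongr
      _ = W * ((3 * ℓ ^ 2 + 4 * 2 ^ 16 * ℓ ^ 18) * (4 / δ ^ 2) + 2 / δ * ℓ ^ 1) := by ring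
      _ ≤ W * ((3 * ℓ ^ 18 + 4 * 2 ^ 16 * ℓ ^ 18) * (4 / δ ^ 2) + 2 / δ * ℓ ^ 18) := by
          have := hq 2 18 (by norm_num)
          have := hq 1 18 (by norm_num)
          gcongr
      _ = _ := by ring
  calc (k : ℝ) * ((3 * (N : ℝ) ^ (1 - δ) + (2 * N / y) * (2 * ℓ) ^ 16) * (4 * ℓ ^ 2 / δ ^ 2) +
      (N : ℝ) ^ (1 / 4 : ℝ) * (2 * ℓ / δ)) * ℓ ^ (2 * k) ≤
        k * (W * (((3 + 4 * 2 ^ 16) * (4 / δ ^ 2) + 2 / δ) * ℓ ^ 18)) * ℓ ^ (2 * k) := by gcongr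
    _ = δ * (W * ((k * ((3 + 4 * 2 ^ 16) * (4 / δ ^ 2) + 2 / δ) / δ) * ℓ ^ (2 * k + 18))) := by
        rw [pow_add]
        field_simp
    _ ≤ δ * (W * (N : ℝ) ^ κ) := by gcongr
    _ = δ * (N : ℝ) ^ (1 - κ) := by
        rw [hW, ← Real.rpow_add hN0]
        congr 2
        ring
    _ ≤ _ := mul_le_mul_of_nonneg_left hM hδ.le

lemma ev_X2 (k : ℕ) (η κ : ℝ) (hη : 0 < η) (hκ : 2 * κ ≤ η) : ∀ᶠ N : ℕ in atTop,
    ∀ M : ℕ, (N : ℝ) ^ (1 - κ) ≤ M → k * (N : ℝ) ^ (1 - η) * Real.log N ^ (2 * k) ≤ η * M := by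
  filter_upwards [ev_log (2 * k) (k / η) (η / 2) (by positivity), ev_one] with N h1 h3 M hM
  have hN0 : (0 : ℝ) < N := by exact_mod_cast h3
  have hNr : (1 : ℝ) ≤ N := by exact_mod_cast h3
  calc k * (N : ℝ) ^ (1 - η) * Real.log N ^ (2 * k) =
        η * ((k / η * Real.log N ^ (2 * k)) * (N : ℝ) ^ (1 - η)) := by field_simp
    _ ≤ η * ((N : ℝ) ^ (η / 2) * (N : ℝ) ^ (1 - η)) := by gcongr
    _ = η * (N : ℝ) ^ (1 - η / 2) := by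
        rw [← Real.rpow_add hN0]
        congr 2
        ring
    _ ≤ η * (N : ℝ) ^ (1 - κ) := by
        apply mul_le_mul_of_nonneg_left _ hη.le
        exact Real.rpow_le_rpow_of_exponent_le hNr (by linarith)
    _ ≤ _ := mul_le_mul_of_nonneg_left hM hη.le

/-- the statement for one tuple of translations -/
def GoodP (k N M : ℕ) (ε δ : ℝ) (u : Fin k → ℕ → ℕ) (t : Fin k → ℕ) : Prop :=
  ∀ H : Fin k → ℝ, (∀ j, (N : ℝ) ^ ε ≤ H j ∧ H j ≤ N) →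
    |∑ a ∈ Icc 1 M, ∏ j, dens (u j a + t j) (H j) - M| ≤ δ * M ∧
    ((1 / 4 : ℝ) ^ k - δ) * M ≤
      (({a : ℕ | a ∈ Icc 1 M ∧ ∀ j, δ ≤ dens (u j a + t j) (H j)} : Set ℕ).ncard : ℝ)

set_option maxHeartbeats 4000000 in
theorem main (B k : ℕ) (p : Fin k → ℕ) (ε δ : ℝ) (hε : 0 < ε) (hδ : 0 < δ) : ∃ κ : ℝ, 0 < κ ∧
    ∀ᶠ N : ℕ in atTop, ∀ (x : Fin k → ℕ) (s : Fin k → ℕ → ℤ),
    (∀ j, ∀ m ∈ Icc 1 (x j), |s j m| ≤ B * N) →
    (∀ j, (energy (p j) (x j) (s j) : ℝ) * N ≤ (N : ℝ) ^ κ * (x j : ℝ) ^ (2 * p j)) →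
    ∀ (M : ℕ) (u : Fin k → ℕ → ℕ), (N : ℝ) ^ (1 - κ) ≤ M → (∀ j, Set.InjOn (u j) (Icc 1 M)) →
    (∀ j, ∀ i ∈ Icc 1 M, u j i ∈ Icc 1 N) →
    ∀ S : Finset (Fin k → ℕ), (∀ m ∈ S, (∀ j, m j ∈ Icc 1 (x j) ∧ 0 < s j (m j) ∧ s j (m j) ≤ N) ∧
      ¬ GoodP k N M ε δ u (fun j => (s j (m j)).toNat)) →
    (S.card : ℝ) ≤ (∏ j, (x j : ℝ)) / (N : ℝ) ^ κ := by
  classical
  obtain ⟨δ1, hδ1, hδ11, hδδ, hconst⟩ := consts k δ hδ
  obtain ⟨η, hη, hη1, he1, he2⟩ := consts2 k δ1 hδ1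
  obtain ⟨κ3, hκ3, hcore⟩ := pcore B ε hε k p η hη
  have hlr : 0 < Real.log (1 + η) := Real.log_pos (by linarith)
  obtain ⟨κ, hκd⟩ : ∃ κ, κ = min κ3 (min η (min δ1 (min ε (1 / 4)))) / 2 := ⟨_, rfl⟩
  have hκ : 0 < κ := by rw [hκd]; positivity
  have hκκ3 : 2 * κ ≤ κ3 := by rw [hκd]; linarith [min_le_left κ3 (min η (min δ1 (min ε (1 / 4))))]
  have hr1 := min_le_right κ3 (min η (min δ1 (min ε (1 / 4))))
  have hr2 := min_le_right η (min δ1 (min ε (1 / 4)))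
  have hr3 := min_le_right δ1 (min ε (1 / 4))
  have hκη : 2 * κ ≤ η := by rw [hκd]; linarith [min_le_left η (min δ1 (min ε (1 / 4)))]
  have hκδ : 2 * κ ≤ δ1 := by rw [hκd]; linarith [min_le_left δ1 (min ε (1 / 4))]
  have hκε : 2 * κ ≤ ε := by rw [hκd]; linarith [min_le_left ε (1 / 4)]
  have hκ4 : 2 * κ ≤ 3 / 4 := by rw [hκd]; linarith [min_le_right ε (1 / 4)]
  refine ⟨κ, hκ, ?_⟩
  filter_upwards [hcore, ev_X2 k η κ hη hκη, ev_tau2 k δ1 ε κ hδ1 hκ hκδ hκε hκ4, ev_log4 η hη,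
    ev_log4 δ1 hδ1, ev_L (2 / η + 1 / Real.log (1 + η) + 8), bad_few δ1 hδ1 (by linarith),
    ev_log 0 4 ε hε, ev_log 1 1 ε hε, ev_log (2 * k) 1 κ hκ, ev_one]
    with N hcore' c1 c2 c3 c4 c5 c6 c7 c8 c9 hN1 x s hs hE M u hM hu hu2 S hS
  have hN0 : (0 : ℝ) < N := by exact_mod_cast hN1
  have hNr : (1 : ℝ) ≤ N := by exact_mod_cast hN1
  rw [pow_zero, mul_one] at c7
  rw [pow_one, one_mul] at c8
  rw [one_mul] at c9
  have h2η : 0 < 2 / η := by positivity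
  have h1r : 0 < 1 / Real.log (1 + η) := by positivity
  have hlog4 := log4 (N := N) hN1 (by linarith)
  have c1' := c1 M hM
  have c2' := c2 M hM
  have hEa : ∀ j, (energy (p j) (x j) (s j) : ℝ) * N ≤ (N : ℝ) ^ κ3 * (x j : ℝ) ^ (2 * p j) := by
    intro j
    refine (hE j).trans ?_
    apply mul_le_mul_of_nonneg_right _ (by positivity)
    exact Real.rpow_le_rpow_of_exponent_le hNr (by linarith)
  have hMa : (N : ℝ) ^ (1 - κ3) ≤ M := by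
    refine le_trans ?_ hM
    exact Real.rpow_le_rpow_of_exponent_le hNr (by linarith)
  have hcore2 := hcore' x s hs hEa M u hMa hu hu2
  obtain ⟨ℓ, hℓ⟩ : ∃ ℓ, ℓ = Real.log (N : ℝ) := ⟨_, rfl⟩
  have hX : (1 - η) * ℓ ≤ Real.log ((N : ℝ) ^ (1 - η)) := by
    rw [Real.log_rpow hN0, hℓ]
  have hS' : ∀ m ∈ S, (∀ j, m j ∈ Icc 1 (x j) ∧ 0 < s j (m j) ∧ s j (m j) ≤ N) ∧
      ¬ GoodP k N M ε δ u (fun j => (s j (m j)).toNat) := hS
  unfold GoodP at hS'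
  rw [← hℓ] at c1' c2' c3 c4 c5 c8 c9 hlog4
  have hℓ1 : 1 ≤ ℓ := by linarith
  have hℓ0 : 0 < ℓ := by linarith
  have hM0 : (0 : ℝ) < M := lt_of_lt_of_le (by positivity) hM
  obtain ⟨T, hT⟩ : ∃ T : ℝ, T = (N : ℝ) ^ ε / 4 := ⟨_, rfl⟩
  have hT1 : 1 ≤ T := by rw [hT]; linarith
  have hT4 : 4 * T = (N : ℝ) ^ ε := by rw [hT]; ring
  rw [← hT] at hcore2
  obtain ⟨J, hJ⟩ : ∃ J : ℕ, J = ⌊ℓ / Real.log (1 + η) + 1⌋₊ + 1 := ⟨_, rfl⟩
  have hJℓ : (J : ℝ) ≤ ℓ ^ 2 := by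
    have e1 : (J : ℝ) ≤ ℓ / Real.log (1 + η) + 2 := by
      rw [hJ]; push_cast
      have := Nat.floor_le (show 0 ≤ ℓ / Real.log (1 + η) + 1 by positivity)
      linarith
    have e2 : ℓ / Real.log (1 + η) = ℓ * (1 / Real.log (1 + η)) := by ring
    rw [e2] at e1
    have e3 : ℓ * (1 / Real.log (1 + η)) ≤ ℓ * (ℓ - 8) := by
      apply mul_le_mul_of_nonneg_left _ hℓ0.le
      linarith
    nlinarith
  obtain ⟨SI, hSI⟩ : ∃ SI : (Fin k → ℕ) → Finset (Fin k → ℕ), SI = fun i => S.filter (fun m =>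
    (∀ j, T ≤ gr η (i j) ∧ gr η (i j) ≤ 2 * N) ∧
    η * M < |∑ a ∈ Icc 1 M, PR (fun j => gr η (i j)) u (fun j => (s j (m j)).toNat) a - M|) :=
    ⟨_, rfl⟩
  have hSIc : ∀ i, ((SI i).card : ℝ) ≤ (∏ j, (x j : ℝ)) / (N : ℝ) ^ κ3 := by
    intro i
    by_cases hi : ∀ j, T ≤ gr η (i j) ∧ gr η (i j) ≤ 2 * N
    · apply hcore2 (fun j => gr η (i j)) hi
      intro m hm
      rw [hSI] at hm
      have := mem_filter.1 hm
      exact ⟨(hS' m this.1).1, this.2.2⟩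
    · have : SI i = ∅ := by
        rw [hSI]
        simp only
        rw [filter_eq_empty_iff]
        intro m _ hm
        exact hi hm.1
      rw [this, card_empty, Nat.cast_zero]
      have : 0 ≤ ∏ j, (x j : ℝ) := prod_nonneg fun _ _ => Nat.cast_nonneg _
      positivity
  have hcov : S ⊆ (Fintype.piFinset fun _ : Fin k => range J).biUnion SI := by
    intro m hm
    by_contra hcon
    apply (hS' m hm).2
    have hm1 := (hS' m hm).1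
    have htN : ∀ j, (s j (m j)).toNat ≤ N := fun j => by have := (hm1 j).2; omega
    have htN1 : ∀ j, (s j (m j)).toNat ∈ Icc 1 N := fun j => by
      have := (hm1 j).2
      rw [mem_Icc]
      omega
    have hgrid : ∀ i : Fin k → ℕ, (∀ j, T ≤ gr η (i j) ∧ gr η (i j) ≤ 2 * N ∧
        (i j : ℝ) ≤ ℓ / Real.log (1 + η) + 1) →
      |∑ a ∈ Icc 1 M, PR (fun j => gr η (i j)) u (fun j => (s j (m j)).toNat) a - M| ≤ η * M := by
      intro i hi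
      by_contra hc
      rw [not_le] at hc
      apply hcon
      rw [mem_biUnion]
      refine ⟨i, ?_, ?_⟩
      · rw [Fintype.mem_piFinset]
        intro j
        rw [mem_range, hJ]
        have := Nat.le_floor (hi j).2.2
        omega
      · rw [hSI]
        exact mem_filter.2 ⟨hm, fun j => ⟨(hi j).1, (hi j).2.1⟩, hc⟩
    intro H hH
    have hHK : ∀ j, 4 * T ≤ H j ∧ ℓ ≤ H j ∧ H j ≤ N := fun j =>
      ⟨by rw [hT4]; exact (hH j).1, c8.trans (hH j).1, (hH j).2⟩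
    have hH1 : ∀ j, 1 ≤ H j := fun j => hℓ1.trans (hHK j).2.1
    have hmean := all_len2 (ε := δ1) N M u (fun j => (s j (m j)).toNat) η ℓ ((N : ℝ) ^ (1 - η)) T hT1 hη hη1 hℓ
      (by linarith) hu hu2 htN hX (by positivity) c1' c3 hlog4 he1 he2 hgrid H hHK
    refine ⟨hmean.trans (mul_le_mul_of_nonneg_right hδδ hM0.le), ?_⟩
    have hm2 := many_pts N M u (fun j => (s j (m j)).toNat) δ1 δ ℓ hδ1 hδ11 hδ hℓ hℓ1 hu hu2 htN1 c4 hlog4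
      hconst c6 H hH1 (by
      intro j
      apply c2'
      have h1 := (hH j).1
      have h3 := Nat.lt_floor_add_one (H j)
      have h4 : (1 : ℝ) ≤ (⌊H j⌋₊ : ℝ) := by exact_mod_cast Nat.le_floor (by exact_mod_cast hH1 j)
      linarith) (by
      have := (abs_le.1 hmean).1
      linarith)
    have e : ({a : ℕ | a ∈ Icc 1 M ∧ ∀ j, δ ≤ dens (u j a + (s j (m j)).toNat) (H j)} : Set ℕ) =
        (((Icc 1 M).filter (fun a => ∀ j, δ ≤ dens (u j a + (s j (m j)).toNat) (H j)) : Finset ℕ) : Set ℕ) := by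
      ext a
      rw [Set.mem_setOf_eq, mem_coe, mem_filter]
    rw [e, Set.ncard_coe_finset]
    exact hm2
  have hX0 : 0 ≤ ∏ j, (x j : ℝ) := prod_nonneg fun _ _ => Nat.cast_nonneg _
  have h1 : (S.card : ℝ) ≤ ∑ i ∈ Fintype.piFinset fun _ : Fin k => range J, ((SI i).card : ℝ) := by
    exact_mod_cast (card_le_card hcov).trans card_biUnion_le
  have hP0 : 0 < (N : ℝ) ^ κ := by positivity
  calc (S.card : ℝ) ≤ ∑ i ∈ Fintype.piFinset fun _ : Fin k => range J, ((SI i).card : ℝ) := h1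
    _ ≤ ∑ _i ∈ Fintype.piFinset fun _ : Fin k => range J, (∏ j, (x j : ℝ)) / (N : ℝ) ^ κ3 :=
        sum_le_sum fun i _ => hSIc i
    _ = (J : ℝ) ^ k * ((∏ j, (x j : ℝ)) / (N : ℝ) ^ κ3) := by
        rw [sum_const, nsmul_eq_mul, Fintype.card_piFinset]
        simp
    _ ≤ (ℓ ^ 2) ^ k * ((∏ j, (x j : ℝ)) / (N : ℝ) ^ κ3) := by
        apply mul_le_mul_of_nonneg_right _ (by positivity)
        exact pow_le_pow_left₀ (Nat.cast_nonneg _) hJℓ k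
    _ ≤ (N : ℝ) ^ κ * ((∏ j, (x j : ℝ)) / (N : ℝ) ^ κ3) := by
        apply mul_le_mul_of_nonneg_right _ (by positivity)
        rw [← pow_mul]
        exact c9
    _ ≤ (N : ℝ) ^ κ * ((∏ j, (x j : ℝ)) / (N : ℝ) ^ (2 * κ)) := by
        apply mul_le_mul_of_nonneg_left _ hP0.le
        apply div_le_div_of_nonneg_left hX0 (by positivity)
        exact Real.rpow_le_rpow_of_exponent_le hNr hκκ3
    _ = _ := by
        rw [show 2 * κ = κ + κ by ring, Real.rpow_add hN0]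
        field_simp

end Run7.h756.PS
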