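import Pool.Agent.Run7.h756.CanMain
import Pool.Agent.TH125.Gal.Lef

/-!
# Products and the Lefschetz standard conjecture in one degree
-/

open CategoryTheory AlgebraicGeometry Finset Polynomial

set_option linter.unusedSectionVars false

universe u₁ v₁ u v

namespace Run7.h756.Can

section Alg

variable {K : Type*} [Field K] [CharZero K] {V : Type*} [AddCommGroup V] [Module K V]
  [Module.Finite K V] {P : Module.End K V} {A J : Submodule K (Module.End K V)}

lemma idem_pow {P : Module.End K V} (hP : P * P = P) (m : ℕ) : P ^ (m + 1) = P := by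
  induction m with
  | zero => simp
  | succ m ih => rw [pow_succ, ih, hP]

lemma pow_mem_alg (h1 : 1 ∈ A) (hmul : ∀ a ∈ A, ∀ b ∈ A, a * b ∈ A) {a : Module.End K V}
    (ha : a ∈ A) (m : ℕ) : a ^ m ∈ A := by
  induction m with
  | zero => rw [pow_zero]; exact h1
  | succ m ih => rw [pow_succ]; exact hmul _ ih _ ha

/-- A right unit in the traces. -/
lemma exists_unitK (hP : P * P = P) (hJA : J ≤ A) (hc : ∀ a ∈ A, P * a = a * P)
    (hJ : ∀ a ∈ A, ∀ c ∈ J, a * c ∈ J) :
    ∃ e ∈ J, ∀ c ∈ J, LinearMap.trace K V (e * c * P) = LinearMap.trace K V (c * P) := by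
  let B : J →ₗ[K] Module.Dual K J :=
    { toFun := fun e =>
        { toFun := fun c => LinearMap.trace K V (e.1 * c.1 * P)
          map_add' := fun x y => by
            rw [Submodule.coe_add, mul_add, add_mul, map_add]
          map_smul' := fun r x => by
            rw [Submodule.coe_smul, mul_smul_comm, smul_mul_assoc, map_smul]
            rfl }
      map_add' := fun x y => by
        ext c
        change LinearMap.trace K V ((x + y).1 * c.1 * P) = LinearMap.trace K V (x.1 * c.1 * P) +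
          LinearMap.trace K V (y.1 * c.1 * P)
        rw [Submodule.coe_add, add_mul, add_mul, map_add]
      map_smul' := fun r x => by
        ext c
        change LinearMap.trace K V ((r • x).1 * c.1 * P) = r • LinearMap.trace K V (x.1 * c.1 * P)
        rw [Submodule.coe_smul, smul_mul_assoc, smul_mul_assoc, map_smul] }
  let τ : Module.Dual K J :=
    { toFun := fun c => LinearMap.trace K V (c.1 * P)
      map_add' := fun x y => by
        rw [Submodule.coe_add, add_mul, map_add]
      map_smul' := fun r x => by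
        rw [Submodule.coe_smul, smul_mul_assoc, map_smul]
        rfl }
  have hmem : τ ∈ LinearMap.range B := by
    by_contra hnot
    obtain ⟨f, hf1, hf2⟩ := Submodule.exists_le_ker_of_notMem hnot
    obtain ⟨y, rfl⟩ := (Module.evalEquiv K J).surjective f
    have h1 : ∀ e ∈ J, LinearMap.trace K V (e * y.1 * P) = 0 := by
      intro e he
      have h2 : B ⟨e, he⟩ ∈ LinearMap.range B := ⟨_, rfl⟩
      exact hf2 h2
    apply hf1
    change LinearMap.trace K V (y.1 * P) = 0
    have hPy : Commute P y.1 := hc _ (hJA y.2)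
    have hypow : ∀ m : ℕ, y.1 ^ (m + 1) ∈ J := by
      intro m
      induction m with
      | zero => rw [zero_add, pow_one]; exact y.2
      | succ m ih => rw [pow_succ']; exact hJ _ (hJA y.2) _ ih
    have hnil : IsNilpotent ((y.1 * P) ^ 2) := by
      apply Pool.Agent.H914.isNilpotent_of_trace_pow
      intro r
      rw [← pow_mul, hPy.symm.mul_pow, show 2 * (r + 1) = 2 * r + 1 + 1 by ring, idem_pow hP,
        pow_succ]
      exact h1 _ (hypow _)
    have hnil' : IsNilpotent (y.1 * P) := by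
      obtain ⟨N, hN⟩ := hnil
      exact ⟨2 * N, by rw [pow_mul]; exact hN⟩
    exact (LinearMap.isNilpotent_trace_of_isNilpotent hnil').eq_zero
  obtain ⟨e, he⟩ := hmem
  exact ⟨e.1, e.2, fun c hc => congrArg (fun F : Module.Dual K J => F ⟨c, hc⟩) he⟩

/-- Maximal idempotents in left ideals. -/
lemma exists_maximalK (hP : P * P = P) (h1 : 1 ∈ A) (hmul : ∀ a ∈ A, ∀ b ∈ A, a * b ∈ A)
    (hJA : J ≤ A) (hc : ∀ a ∈ A, P * a = a * P) (hJ : ∀ a ∈ A, ∀ c ∈ J, a * c ∈ J) :
    ∃ E ∈ J, E * E * P = E * P ∧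
      ∀ c ∈ J, LinearMap.trace K V (E * c * P) = LinearMap.trace K V (c * P) := by
  obtain ⟨e, he, hunit⟩ := exists_unitK hP hJA hc hJ
  have heA := hJA he
  have hpow : ∀ m : ℕ, ∀ c ∈ J, LinearMap.trace K V (e ^ m * c * P) =
      LinearMap.trace K V (c * P) := by
    intro m
    induction m with
    | zero => intro c _; rw [pow_zero, one_mul]
    | succ m ih =>
      intro c hc
      rw [pow_succ, mul_assoc (e ^ m), ih _ (hJ _ heA c hc)]
      exact hunit c hc
  set d := e * (1 - e) with hd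
  have h1e : 1 - e ∈ A := Submodule.sub_mem _ h1 heA
  have hdA : d ∈ A := hmul _ heA _ h1e
  have hd0 : ∀ b ∈ A, LinearMap.trace K V (d * b * P) = 0 := by
    intro b hb
    have h2 := hunit _ (hJ b hb e he)
    have h3 : LinearMap.trace K V (d * b * P) =
        LinearMap.trace K V ((1 - e) * (b * e) * P) := by
      rw [hd, mul_assoc e, mul_assoc e, LinearMap.trace_mul_comm]
      congr 1
      rw [mul_assoc ((1 - e) * b), hc _ heA]
      simp only [mul_assoc]
    rw [h3, sub_mul, sub_mul, one_mul, map_sub, h2, sub_self]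
  have hnil : IsNilpotent (d * P) := by
    apply Pool.Agent.H914.isNilpotent_of_trace_pow
    intro r
    have hcd : Commute P d := hc _ hdA
    rw [hcd.symm.mul_pow, idem_pow hP, pow_succ']
    exact hd0 _ (pow_mem_alg h1 hmul hdA r)
  obtain ⟨N₀, hN₀⟩ := hnil
  set N := N₀ + 1 with hN
  have hdN : d ^ N * P = 0 := by
    have hcd : Commute P d := hc _ hdA
    have h2 : (d * P) ^ N = 0 := by rw [hN, pow_succ, hN₀, zero_mul]
    rw [hcd.symm.mul_pow, hN, idem_pow hP] at h2
    exact h2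
  set E := 1 - (1 - e ^ N) ^ N with hE
  have hEJ : E ∈ J := by
    have h2 : E = (∑ k ∈ range N, (1 - e ^ N) ^ k) * e ^ N₀ * e := by
      have := geom_sum_mul_neg (1 - e ^ N) N
      rw [sub_sub_cancel] at this
      rw [hE, ← this, hN, pow_succ, mul_assoc]
    rw [h2]
    refine hJ _ (hmul _ (Submodule.sum_mem _ fun k _ => pow_mem_alg h1 hmul
      (Submodule.sub_mem _ h1 (pow_mem_alg h1 hmul heA _)) k) _ (pow_mem_alg h1 hmul heA _)) _ he
  refine ⟨E, hEJ, ?_, fun c hc => ?_⟩
  · have hdvd : ((Polynomial.X : K[X]) * (1 - Polynomial.X)) ^ N ∣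
        (1 - (1 - Polynomial.X ^ N) ^ N) * (1 - Polynomial.X ^ N) ^ N := by
      rw [mul_pow]
      apply mul_dvd_mul
      · have h1 := sub_dvd_pow_sub_pow (1 : K[X]) (1 - Polynomial.X ^ N) N
        rwa [one_pow, sub_sub_cancel] at h1
      · apply pow_dvd_pow_of_dvd
        have h1 := sub_dvd_pow_sub_pow (1 : K[X]) Polynomial.X N
        rwa [one_pow] at h1
    obtain ⟨q, hq⟩ := hdvd
    have h2 := congrArg (aeval e) hq
    simp only [map_mul, map_pow, map_sub, map_one, aeval_X] at h2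
    have h3 : E * (1 - E) * P = 0 := by
      rw [hE, sub_sub_cancel, h2]
      have h4 : (e * (1 - e)) ^ N * (aeval e) q = (aeval e) q * d ^ N := by
        have h5 : e * (1 - e) = aeval e (Polynomial.X * (1 - Polynomial.X) : K[X]) := by simp
        rw [hd, h5, ← map_pow, ← map_mul, ← map_mul, mul_comm]
      rw [h4, mul_assoc, hdN, mul_zero]
    rw [mul_sub, mul_one, sub_mul, sub_eq_zero] at h3
    exact h3.symm
  · rw [hE, sub_mul, sub_mul, one_mul, map_sub]
    have hc' : (1 - e ^ N) ^ N₀ * c ∈ J :=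
      hJ _ (pow_mem_alg h1 hmul (Submodule.sub_mem _ h1 (pow_mem_alg h1 hmul heA N)) N₀) c hc
    have h2 : (1 - e ^ N) ^ N * c = (1 - e ^ N) ^ N₀ * c - e ^ N * ((1 - e ^ N) ^ N₀ * c) := by
      have h3 : (1 - e ^ N) ^ N = (1 - e ^ N) * (1 - e ^ N) ^ N₀ := pow_succ' _ _
      rw [h3, sub_mul, one_mul, sub_mul, mul_assoc]
    rw [h2, sub_mul, map_sub, hpow N _ hc', sub_self, sub_zero]

end Alg

open Pool.Agent.H914 Pool.Agent.W537 Pool.Agent.Y106.One Pool.Agent.R907 Pool.Agent.N190.CB
  Pool.Agent.H914.VarClass Pool.Agent.H914.VarClass.Obj Pool.Agent.H914.WeilCohomology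

variable {k : Type u} [Field k] {𝒱 : VarClass k} {ops : CycleOps 𝒱} {X Z : 𝒱.Obj}
  {W : WeilCohomology.{u, v} ops}

/-- The left ideal of operators which factor through the power `b` of a divisor. -/
noncomputable def factorIdeal (W : WeilCohomology.{u, v} ops) (Z : 𝒱.Obj) (D : Z.Cycles) (b : ℕ) :
    Submodule W.K (Module.End W.K (W.H Z)) :=
  (KOp W Z Z (-(b : ℤ))).map (LinearMap.mulRight W.K (LL D W ^ b))

lemma mem_factorIdeal {D : Z.Cycles} {b : ℕ} {T : Module.End W.K (W.H Z)} :
    T ∈ factorIdeal W Z D b ↔ ∃ S ∈ KOp W Z Z (-(b : ℤ)), S * LL D W ^ b = T := Iff.rfl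

lemma KOp_comm {i : ℕ} {a : Module.End W.K (W.H X)} (ha : a ∈ KOp W X X 0) :
    proj (W.isInternal X) i * a = a * proj (W.isInternal X) i := by
  apply gr_ext (W.isInternal X)
  intro j x hx
  have h1 := KOp.gr_mem ha hx
  rw [Module.End.mul_apply, Module.End.mul_apply]
  by_cases hij : j = i
  · subst hij
    rw [proj_same _ hx, proj_same _ h1]
  · rw [proj_ne _ hx hij, proj_ne _ h1 hij, map_zero]

/-- An algebraic operator which is orthogonal to the operators which factor through high powers of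
the divisor. -/
lemma exists_primitive {D : Z.Cycles} (hD : Z.IsCyc 1 D) {j b₀ : ℕ}
    (hZ : AlgebraicProjector W Z j)
    (hprim : ∃ b ∈ W.gr Z j, b ≠ 0 ∧ (LL D W ^ b₀) b = 0) :
    ∃ Q ∈ KOp W Z Z 0, proj (W.isInternal Z) j * Q = Q ∧ str W Z Q ≠ 0 ∧
      ∀ b : ℕ, b₀ ≤ b → ∀ T ∈ KOp W Z Z (-(b : ℤ)), str W Z (T * (LL D W ^ b * Q)) = 0 := by
  have hPj := proj_mem_KOp hZ
  set P := proj (W.isInternal Z) j with hP
  have hPP : P * P = P := proj_mul_proj _ j
  have hmul : ∀ a ∈ KOp W Z Z 0, ∀ b ∈ KOp W Z Z 0, a * b ∈ KOp W Z Z 0 :=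
    fun a ha b hb => KOp.cast (KOp.comp ha hb) (by ring)
  have hJA : factorIdeal W Z D b₀ ≤ KOp W Z Z 0 := by
    rintro _ ⟨S, hS, rfl⟩
    exact KOp.cast (KOp.comp hS (LL_pow_mem hD b₀)) (by ring)
  have hJ : ∀ a ∈ KOp W Z Z 0, ∀ c ∈ factorIdeal W Z D b₀, a * c ∈ factorIdeal W Z D b₀ := by
    rintro a ha _ ⟨S, hS, rfl⟩
    refine mem_factorIdeal.2 ⟨a * S, KOp.cast (KOp.comp ha hS) (by ring), ?_⟩
    rw [LinearMap.mulRight_apply, mul_assoc]
  obtain ⟨E, hEJ, hE1, hE2⟩ := exists_maximalK hPP (KOp.id Z) hmul hJA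
    (fun a ha => KOp_comm ha) hJ
  have hEA := hJA hEJ
  have hPE : P * E = E * P := KOp_comm hEA
  have h1E : P * ((1 - E) * P) = (1 - E) * P := by
    rw [sub_mul, one_mul, mul_sub, hPP, ← mul_assoc, hPE, mul_assoc, hPP]
  refine ⟨(1 - E) * P, hmul _ (Submodule.sub_mem _ (KOp.id Z) hEA) _ hPj, h1E, ?_, ?_⟩
  · rw [str_mul_proj]
    apply mul_ne_zero (pow_ne_zero _ (by norm_num))
    intro h0
    have hidem : ((1 - E) * P) * ((1 - E) * P) = (1 - E) * P := by
      rw [mul_assoc, h1E, ← mul_assoc]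
      have h3 : (1 - E) * (1 - E) = 1 - E - (E - E * E) := by
        rw [mul_sub, mul_one, sub_mul, one_mul]
      rw [h3, sub_mul _ (E - E * E), sub_mul E (E * E), hE1, sub_self, sub_zero]
    have h2 := eq_zero_of_idem_of_trace_eq_zero hidem h0
    obtain ⟨b, hb, hb0, hb1⟩ := hprim
    obtain ⟨S, -, hS⟩ := hEJ
    have h3 := congrArg (fun F => F b) h2
    beta_reduce at h3
    rw [Module.End.mul_apply, hP, proj_same _ hb, LinearMap.sub_apply, Module.End.one_apply,
      LinearMap.zero_apply, ← hS, LinearMap.mulRight_apply, Module.End.mul_apply, hb1, map_zero,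
      sub_zero] at h3
    exact hb0 h3
  · intro b hb T hT
    have hcJ : T * LL D W ^ b ∈ factorIdeal W Z D b₀ := by
      refine mem_factorIdeal.2 ⟨T * LL D W ^ (b - b₀),
        KOp.cast (KOp.comp hT (LL_pow_mem hD _)) (by rw [Nat.cast_sub hb]; ring), ?_⟩
      rw [mul_assoc, ← pow_add, Nat.sub_add_cancel hb]
    have h3 := hE2 _ hcJ
    have h4 : T * (LL D W ^ b * ((1 - E) * P)) = (T * LL D W ^ b * (1 - E)) * P := by
      simp only [mul_assoc]
    rw [h4, str_mul_proj, mul_sub, mul_one, sub_mul, map_sub]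
    have h5 : LinearMap.trace W.K _ (T * LL D W ^ b * E * P) =
        LinearMap.trace W.K _ (E * (T * LL D W ^ b) * P) := by
      rw [mul_assoc (T * LL D W ^ b), LinearMap.trace_mul_comm]
      have h6 : P * (T * LL D W ^ b) = T * LL D W ^ b * P := KOp_comm (hJA hcJ)
      rw [mul_assoc E P, h6]
      simp only [mul_assoc]
    rw [h5, h3, sub_self, mul_zero]

end Run7.h756.Can
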