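import Pool.Agent.Run7.h756.Pr

/-!
# Products and the Lefschetz standard conjecture in one degree: the theorem
-/

open CategoryTheory AlgebraicGeometry Finset Polynomial

set_option linter.unusedSectionVars false

universe u₁ v₁ u v

namespace Run7.h756.Can

open Pool.Agent.H914 Pool.Agent.W537 Pool.Agent.Y106.One Pool.Agent.R907 Pool.Agent.N190.CB
  Pool.Agent.H914.VarClass Pool.Agent.H914.VarClass.Obj Pool.Agent.H914.WeilCohomology

variable {k : Type u} [Field k] {𝒱 : VarClass k} {ops : CycleOps 𝒱} {X Z : 𝒱.Obj}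
  {W : WeilCohomology.{u, v} ops}

lemma extOp_pow (φ : Module.End W.K (W.H X)) (ψ : Module.End W.K (W.H Z)) (m : ℕ) :
    extOp W φ ψ ^ m = extOp W (φ ^ m) (ψ ^ m) := by
  induction m with
  | zero => rw [pow_zero, pow_zero, pow_zero, extOp_one]
  | succ m ih => rw [pow_succ, ih, extOp_mul, pow_succ, pow_succ]

lemma LL_prod {D : X.Cycles} {D' : Z.Cycles} (hD' : Z.IsCyc 1 D') :
    LL (ops.pull (fst X Z) D + ops.pull (snd X Z) D') W =
      extOp W (LL D W) 1 + extOp W 1 (LL D' W) := by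
  apply ext_kunneth_lin
  intro a b
  rw [LinearMap.add_apply, extOp_tmul, extOp_tmul, LL, LL, LL, LinearMap.mulLeft_apply,
    LinearMap.mulLeft_apply, LinearMap.mulLeft_apply, map_add, W.cl_pull, W.cl_pull, add_mul,
    Module.End.one_apply, Module.End.one_apply, map_mul, map_mul, mul_assoc]
  congr 1
  have h1 : W.map (snd X Z) (W.cl Z D') ∈ W.gr (X.prod Z) (2 * 1) := W.map_mem _ (W.cl_mem hD')
  rw [← mul_assoc, W.even_comm h1, mul_assoc]

lemma LL_prod_pow {D : X.Cycles} {D' : Z.Cycles} (hD' : Z.IsCyc 1 D') (M : ℕ) :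
    LL (ops.pull (fst X Z) D + ops.pull (snd X Z) D') W ^ M =
      ∑ m ∈ range (M + 1), ((M.choose m : ℕ) : W.K) • extOp W (LL D W ^ m) (LL D' W ^ (M - m)) := by
  have hc : Commute (extOp W (LL D W) (1 : Module.End W.K (W.H Z)))
      (extOp W (1 : Module.End W.K (W.H X)) (LL D' W)) := by
    change _ * _ = _ * _
    rw [extOp_mul, extOp_mul, mul_one, one_mul, one_mul, mul_one]
  rw [LL_prod hD', hc.add_pow]
  refine Finset.sum_congr rfl fun m _ => ?_
  rw [extOp_pow, extOp_pow, one_pow, one_pow, extOp_mul, mul_one, one_mul, ← nsmul_eq_mul',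
    Nat.cast_smul_eq_nsmul]

/-- The Lefschetz operator of another divisor. -/
lemma inj_of_other {Y : 𝒱.Obj} {D₁ D₂ : Y.Cycles} (hD₁ : Y.IsCyc 1 D₁) (hD₂ : Y.IsCyc 1 D₂)
    {d : ℕ} (hd : d ≤ Y.dim) {γ : W.H (Y.prod Y)} (hγ : γ ∈ spanCycles W (Y.prod Y) (d : ℤ))
    (h : InjectsOn (W.gr Y d) (corrLef W Y D₁ d γ))
    (hL : ∀ a ∈ W.gr Y d, (LL D₂ W ^ (Y.dim - d)) a = 0 → a = 0) :
    ∀ a ∈ W.gr Y d, (W.corr γ * LL D₂ W ^ (Y.dim - d)) a = 0 → a = 0 := by
  have hγm : W.corr γ ∈ KOp W Y Y (-((Y.dim - d : ℕ) : ℤ)) := by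
    refine mem_KOp_iff.2 ⟨γ, ?_, rfl⟩
    rwa [show ((Y.dim : ℤ) + -((Y.dim - d : ℕ) : ℤ)) = (d : ℤ) by omega]
  have hM : corrLef W Y D₁ d γ ∈ KOp W Y Y 0 := by
    rw [corrLef_eq]
    exact KOp.cast (KOp.comp hγm (LL_pow_mem hD₁ _)) (by ring)
  obtain ⟨q, hq⟩ := exists_inv_on (E := corrLef W Y D₁ d γ) (S := W.gr Y d)
    (fun a ha => KOp.gr_mem hM ha) h
  intro a ha h0
  have hd' : Y.dim - (Y.dim - d) = d := by omega
  have hb : (LL D₂ W ^ (Y.dim - d)) a ∈ W.gr Y (Y.dim + (Y.dim - d)) := by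
    have := pow_L_mem (LL_isHom hD₂ W) ha (Y.dim - d)
    rwa [show d + 2 * (Y.dim - d) = Y.dim + (Y.dim - d) by omega] at this
  obtain ⟨a', ha', hab⟩ := surj_of_left hD₁ W (c := Y.dim - d) (Nat.sub_le _ _)
    (T := aeval (corrLef W Y D₁ d γ) q * W.corr γ) (by
      intro x hx
      rw [hd'] at hx
      have := hq x hx
      rw [corrLef_eq] at this ⊢
      exact this) hb
  rw [hd'] at ha'
  rw [Module.End.mul_apply, ← hab, ← Module.End.mul_apply, ← corrLef_eq] at h0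
  have h1 := h a' ha' h0
  rw [h1, map_zero] at hab
  exact hL a ha hab.symm

lemma mem_KOp_of_real {E : Fam.{u, v} ops X} (hE : Realized ops X 0 E) : E W ∈ KOp W X X 0 := by
  rw [← mem_KS_iff]
  exact Submodule.subset_span ⟨E, hE, rfl⟩

/-- **The Lefschetz standard conjecture for products, in one degree.** -/
theorem oneCycle_of_prod {k₀ : Type u₁} [Field k₀] {𝒱₀ : VarClass k₀} {ops₀ : CycleOps 𝒱₀}
    (R : Reduction X 𝒱₀) (hW : Reduction.Pure.{u₁, v₁} R ops₀ W) {D : X.Cycles}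
    (hD : X.IsCyc 1 D) {i : ℕ} (hi : i ≤ X.dim) {D' : Z.Cycles} (hD' : Z.IsCyc 1 D') {j : ℕ}
    (hj : j ≤ Z.dim) (hX : AlgebraicProjector W X i) (hZ : AlgebraicProjector W Z j)
    (hLX : HardLefschetz W X D) (hLZ : HardLefschetz W Z D')
    (hprim : ∃ b ∈ W.gr Z j, b ≠ 0 ∧ W.cl Z D' ^ (Z.dim - j + 1) * b = 0)
    {D'' : (X.prod Z).Cycles} (hD'' : (X.prod Z).IsCyc 1 D'')
    (h : InjectsLefschetz W (X.prod Z) D'' (i + j)) :
    OneCycleForAll.{u, v} (ops := ops) (Reduction.Pure.{u₁, v₁} R ops₀) X D i := by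
  obtain ⟨γ, hγ, hinj⟩ := h
  have hJ := lefIdeal_isLeftIdeal.{u, v} (ops := ops) hD hi
  obtain ⟨E, hEJ, hE⟩ := exists_maximal hJ (sameTraces_of_reduction R hW hW i)
  have hEu := hE W (sameTraces_of_reduction R hW hW i)
  have hEr := hJ.real E hEJ
  have hPi := proj_mem_KOp hX
  set Pi := proj (W.isInternal X) i with hPi'
  obtain ⟨Q, hQ, hPQ, hQ0, hQ1⟩ := exists_primitive hD' (b₀ := Z.dim - j + 1) hZ (by
    obtain ⟨b, hb, hb0, hb1⟩ := hprim
    refine ⟨b, hb, hb0, ?_⟩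
    rw [LinearMap.pow_mulLeft, LinearMap.mulLeft_apply]
    exact hb1)
  set F : (X.prod Z).Cycles := ops.pull (fst X Z) D + ops.pull (snd X Z) D' with hF
  have hFm : (X.prod Z).IsCyc 1 F := SmVar.IsCyc.add (ops.pull_mem _ hD) (ops.pull_mem _ hD')
  have hHL : HardLefschetz W (X.prod Z) F :=
    Pool.Agent.TH125.Gal.hardLefschetz_prod hD hD' hLX hLZ
  have hd : i + j ≤ (X.prod Z).dim := by rw [dim_prod]; omega
  set M := (X.prod Z).dim - (i + j) with hM
  have hMeq : M = (X.dim - i) + (Z.dim - j) := by rw [hM, dim_prod]; omega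
  set G := W.corr γ with hG
  have hGm : G ∈ KOp W (X.prod Z) (X.prod Z) (-(M : ℤ)) := by
    refine mem_KOp_iff.2 ⟨γ, ?_, rfl⟩
    rwa [show (((X.prod Z).dim : ℤ) + -(M : ℤ)) = ((i + j : ℕ) : ℤ) by omega]
  set T := G * LL F W ^ M with hT
  have hTm : T ∈ KOp W (X.prod Z) (X.prod Z) 0 :=
    KOp.cast (KOp.comp hGm (LL_pow_mem hFm M)) (by ring)
  have hTinj : ∀ a ∈ W.gr (X.prod Z) (i + j), T a = 0 → a = 0 :=
    inj_of_other hD'' hFm hd hγ hinj (hHL _ hd).1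
  obtain ⟨q, hq⟩ := exists_inv_on (E := T) (S := W.gr (X.prod Z) (i + j))
    (fun a ha => KOp.gr_mem hTm ha) hTinj
  set N := extOp W ((1 - E W) * Pi) Q with hN
  have hPE : Pi * ((1 - E W) * Pi) = (1 - E W) * Pi := by
    have hc : Pi * (1 - E W) = (1 - E W) * Pi := by
      rw [mul_sub, sub_mul, mul_one, one_mul, real_comm hEr W i]
    rw [← mul_assoc, hc, mul_assoc, proj_mul_proj]
  have hNN : extOp W Pi (proj (W.isInternal Z) j) * N = N := by
    rw [hN, extOp_mul, hPE, hPQ]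
  have hNgr : ∀ x, N x ∈ W.gr (X.prod Z) (i + j) := by
    intro x
    rw [← hNN, Module.End.mul_apply]
    exact part_le i j (ext_mem_part i j _)
  set A := aeval T q * G with hA
  have hAm : A ∈ KOp W (X.prod Z) (X.prod Z) (-(M : ℤ)) :=
    KOp.cast (KOp.comp (aeval_mem_KOp hTm q) hGm) (by ring)
  have hkey : N = ∑ m ∈ range (M + 1), ((M.choose m : ℕ) : W.K) •
      (A * extOp W (LL D W ^ m * ((1 - E W) * Pi)) (LL D' W ^ (M - m) * Q)) := by
    have h1 : N = A * (LL F W ^ M * N) := by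
      apply LinearMap.ext
      intro x
      have h2 := hq _ (hNgr x)
      rw [hA]
      simp only [Module.End.mul_apply] at h2 ⊢
      exact h2.symm
    rw [hF, LL_prod_pow hD', Finset.sum_mul, Finset.mul_sum] at h1
    rw [h1]
    refine Finset.sum_congr rfl fun m _ => ?_
    rw [smul_mul_assoc, mul_smul_comm, hN, extOp_mul]
  refine oneCycle_of_ext R hW hD hi hEJ hEu hQ hQ0 ?_
  change str W (X.prod Z) N = 0
  rw [hkey, map_sum]
  refine Finset.sum_eq_zero fun m hm => ?_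
  rw [Finset.mem_range] at hm
  rw [map_smul]
  have hQm : LL D' W ^ (M - m) * Q ∈ KOp W Z Z ((M - m : ℕ) : ℤ) :=
    KOp.cast (KOp.comp (LL_pow_mem hD' _) hQ) (by ring)
  by_cases hma : X.dim - i ≤ m
  · obtain ⟨S, hS, hS2⟩ := exists_ptrace_op hAm hQm
    rw [hS2, str_eq_zero_of_unit hD hi hEu hma (KOp.cast hS (by omega)), smul_zero]
  · have hφ : LL D W ^ m * ((1 - E W) * Pi) ∈ KOp W X X (m : ℤ) :=
      KOp.cast (KOp.comp (LL_pow_mem hD m) (KOp.comp (Submodule.sub_mem _ (KOp.id X)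
        (mem_KOp_of_real hEr)) hPi)) (by ring)
    obtain ⟨S, hS, hS2⟩ := exists_ptrace' hAm hφ
    obtain ⟨g, hg, hg2⟩ := mem_KOp_iff.1 hQm
    have hg3 : g ∈ spanCycles W (Z.prod Z) ((Z.dim + (M - m) : ℕ) : ℤ) := by
      rwa [Nat.cast_add]
    rw [← hg2, hS2 (Pool.Agent.H447.span_gr hg3), hg2,
      hQ1 (M - m) (by omega) S (KOp.cast hS (by omega)), smul_zero]

end Run7.h756.Can
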