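import Pool.Agent.W498.Dom.ClassDefs
import Pool.Agent.Y106.One.Defs

/-!
# Sums of twists in one weight: definitions
-/

open CategoryTheory AlgebraicGeometry

universe u v

namespace Run7.h756.Sum

open Pool.Agent.H914 Pool.Agent.Y106.One Pool.Agent.H914.VarClass Pool.Agent.H914.VarClass.Obj
  Pool.Agent.H914.WeilCohomology

variable {k : Type u} [Field k] {𝒱 : VarClass k} {ops : CycleOps 𝒱}

/-- For all `s` such that `v := w - 2 a s` is not negative one has `v ≤ dim (X s)`, and there are a
divisor on `X s`, with class `ξ`, and a combination `γ` of classes of cycles of codimension `v` on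
`X s × X s`, with coefficients in the coefficient field of `W`, such that `γ ∘ ξ ^ (dim (X s) - v)` is
injective on `H^v(X s)`. -/
def InjectsInWeight (W : WeilCohomology.{u, v} ops) {m : ℕ} (X : Fin m → 𝒱.Obj)
    (a : Fin m → ℕ) (w : ℕ) : Prop :=
  ∀ s, 2 * a s ≤ w → w ≤ (X s).dim + 2 * a s ∧ ∃ D, (X s).IsCyc 1 D ∧
    InjectsLefschetz W (X s) D (w - 2 * a s)

/-- For all `s` such that `v := w - 2 a s` is not negative one has `v ≤ dim (X s)`, and
`ξ ^ (dim (X s) - v)` is injective on `H^v(X s)` for the class `ξ` of some divisor on `X s`. -/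
def LefschetzInWeight (W : WeilCohomology.{u, v} ops) {m : ℕ} (X : Fin m → 𝒱.Obj)
    (a : Fin m → ℕ) (w : ℕ) : Prop :=
  ∀ s, 2 * a s ≤ w → w ≤ (X s).dim + 2 * a s ∧ ∃ D, (X s).IsCyc 1 D ∧
    InjectsOn (W.gr (X s) (w - 2 * a s))
      (Pool.Agent.W537.lefPow W (X s) D ((X s).dim - (w - 2 * a s)))

end Run7.h756.Sum
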