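import Pool.Agent.W550.B.AddTop
import Pool.Agent.Run7.h756.SumDefs
import Pool.Agent.Y106.One.Main

/-!
# Sums of twists in one weight
-/

open CategoryTheory AlgebraicGeometry Finset

set_option linter.unusedSectionVars false

universe u₁ v₁ u v

namespace Run7.h756.Sum

open Pool.Agent.H914 Pool.Agent.H447 Pool.Agent.W537 Pool.Agent.Y106.One
  Pool.Agent.H914.VarClass Pool.Agent.H914.VarClass.Obj Pool.Agent.H914.WeilCohomology
  Pool.Agent.W550.B

variable {k : Type u} [Field k] {𝒱 : VarClass k} {ops : CycleOps 𝒱}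
  {W : WeilCohomology.{u, v} ops}

/-- A combination of correspondences embeds the dual of `H^w(X)` in `H^w(X)`. -/
def DualEmb (W : WeilCohomology.{u, v} ops) (X : 𝒱.Obj) (w : ℤ) : Prop :=
  ∃ ν ∈ KOp W X X (w - X.dim), ∀ a ∈ grZ (W.gr X) (2 * X.dim - w), ν a = 0 → a = 0

/-- A combination of correspondences embeds `H^w(X)` in its dual. -/
def SelfEmb (W : WeilCohomology.{u, v} ops) (X : 𝒱.Obj) (w : ℤ) : Prop :=
  ∃ μ ∈ KOp W X X (X.dim - w), ∀ a ∈ grZ (W.gr X) w, μ a = 0 → a = 0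

variable {r s : ℕ} {X : Fin r → 𝒱.Obj} {Y : Fin s → 𝒱.Obj}

/-- **Additivity in one weight.** -/
theorem additivity_w {m : Fin r → ℤ} {l : Fin s → ℤ} {w : ℤ}
    {G : ∀ (j : Fin r) (i : Fin s), W.H (Y i) →ₗ[W.K] W.H (X j)}
    (hG : ∀ j i, G j i ∈ KOp W (Y i) (X j) (l i - m j)) (hbij : Function.Bijective (tot G))
    (hX : ∀ j, SelfEmb W (X j) (w - 2 * m j)) (hY : ∀ i, DualEmb W (Y i) (w - 2 * l i)) :
    ∀ j, DualEmb W (X j) (w - 2 * m j) := by
  classical
  choose Gt hGt hGt' using fun i j => KOp.exists_adjoint (hG j i)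
  choose θ hθ hθinj using hY
  have hμ : ∀ i, ∃ μ ∈ KOp W (X i) (X i) ((X i).dim - w + 2 * m i),
      ∀ a ∈ grZ (W.gr (X i)) (w - 2 * m i), μ a = 0 → a = 0 := by
    intro i
    obtain ⟨μ, h1, h2⟩ := hX i
    exact ⟨μ, KOp.cast h1 (by ring), h2⟩
  intro j
  set GT : (∀ j, W.H (X j)) →ₗ[W.K] (∀ i, W.H (Y i)) := tot (fun i j => Gt i j) with hGT
  set Ω : Module.End W.K (∀ j, W.H (X j)) :=
    tot G ∘ₗ (∑ i, diagOp i (θ i)) ∘ₗ GT with hΩ
  have hΩe : ∀ j' j'', entry Ω j' j'' = ∑ i, G j' i ∘ₗ θ i ∘ₗ Gt i j'' := by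
    intro j' j''
    apply LinearMap.ext
    intro a
    change tot G ((∑ i, diagOp i (θ i) : Module.End W.K (∀ i, W.H (Y i)))
      (GT (LinearMap.single W.K (fun j => W.H (X j)) j'' a))) j' = _
    have e2 : (∑ i, G j' i ∘ₗ θ i ∘ₗ Gt i j'') a = ∑ i, G j' i (θ i (Gt i j'' a)) := by
      rw [LinearMap.sum_apply]
      rfl
    rw [tot_apply, e2]
    apply Finset.sum_congr rfl
    intro i _
    rw [sum_diagOp_apply, hGT, tot_apply, Finset.sum_eq_single j'']
    · simp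
    · intro l _ hl
      simp [hl]
    · intro hi
      exact absurd (Finset.mem_univ _) hi
  have hgr : ∀ a : ∀ j, W.H (X j),
      (∀ j, a j ∈ grZ (W.gr (X j)) (2 * (X j).dim + 2 * m j - w)) →
      ∀ i, GT a i ∈ grZ (W.gr (Y i)) (2 * (Y i).dim - (w - 2 * l i)) := by
    intro a ha i
    rw [hGT, tot_apply]
    refine Submodule.sum_mem _ (fun j' _ => ?_)
    have h1 := KOp.isHom (hGt i j') _ _ (ha j')
    rwa [show 2 * ((X j').dim : ℤ) + 2 * m j' - w +
      2 * (l i - m j' + (Y i).dim - (X j').dim) = 2 * (Y i).dim - (w - 2 * l i) by ring] at h1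
  have hGTinj : ∀ a, GT a = 0 → a = 0 := by
    intro a ha
    funext j'
    apply nondeg_right
    intro x
    obtain ⟨c', hc'⟩ := hbij.2 (LinearMap.single W.K (fun j => W.H (X j)) j' x)
    have h1 : ∑ j, W.tr (X j) (tot G c' j * a j) = 0 := by
      have h2 : ∀ j, W.tr (X j) (tot G c' j * a j) =
          ∑ i, W.tr (Y i) (c' i * Gt i j (a j)) := by
        intro j
        rw [tot_apply, Finset.sum_mul, map_sum]
        exact Finset.sum_congr rfl (fun i _ => hGt' i j _ _)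
      rw [Finset.sum_congr rfl (fun j _ => h2 j), Finset.sum_comm]
      apply Finset.sum_eq_zero
      intro i _
      rw [← map_sum, ← Finset.mul_sum]
      have h3 : ∑ j, Gt i j (a j) = 0 := by
        rw [← tot_apply (fun i j => Gt i j) a i, ← hGT, ha]
        rfl
      rw [h3, mul_zero, map_zero]
    rw [hc', Finset.sum_eq_single j'] at h1
    · simpa using h1
    · intro i _ hi
      simp [hi]
    · intro hi
      exact absurd (Finset.mem_univ _) hi
  obtain ⟨ν, hν, hνinj⟩ := step (m := m) (w := w) (Ω := Ω) (by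
    intro j' j''
    rw [hΩe]
    refine Submodule.sum_mem _ (fun i _ => ?_)
    exact KOp.cast (KOp.comp (hG j' i) (KOp.comp (hθ i) (hGt i j''))) (by ring)) (by
    intro a ha h0
    apply hGTinj
    have h1 : (∑ i, diagOp i (θ i) : Module.End W.K (∀ i, W.H (Y i))) (GT a) = 0 := by
      apply hbij.1
      rw [map_zero]
      exact h0
    funext i
    apply hθinj i _ (hgr a ha i)
    rw [← sum_diagOp_apply θ (GT a) i, h1]
    rfl) hμ j
  refine ⟨ν, KOp.cast hν (by ring), fun a ha => hνinj a ?_⟩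
  rwa [show 2 * ((X j).dim : ℤ) + 2 * m j - w = 2 * (X j).dim - (w - 2 * m j) by ring]

/-- The Lefschetz operator as an embedding in the dual. -/
lemma selfEmb_of_lef {X : 𝒱.Obj} {D : X.Cycles} (hD : X.IsCyc 1 D) {i : ℕ} (hi : i ≤ X.dim)
    (hL : InjectsOn (W.gr X i) (lefPow W X D (X.dim - i))) : SelfEmb W X i := by
  refine ⟨(LinearMap.mulLeft W.K (W.cl X D)) ^ (X.dim - i), ?_, ?_⟩
  · rw [← mem_KS_iff]
    exact Submodule.subset_span (rop_opAlg.cast (rop_opAlg.pow (rop_mulLeft hD) (X.dim - i))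
      (by push_cast [Nat.cast_sub hi]; ring))
  · intro a ha h0
    rw [grZ_natCast] at ha
    exact hL a ha (by rwa [LinearMap.pow_mulLeft] at h0)

lemma selfEmb_neg {X : 𝒱.Obj} {w : ℤ} (hw : w < 0) : SelfEmb W X w := by
  refine ⟨0, Submodule.zero_mem _, fun a ha _ => ?_⟩
  rw [grZ_of_neg hw] at ha
  exact (Submodule.mem_bot _).1 ha

lemma dualEmb_neg {X : 𝒱.Obj} {w : ℤ} (hw : w < 0) : DualEmb W X w := by
  refine ⟨0, Submodule.zero_mem _, fun a ha _ => ?_⟩
  obtain ⟨c, hc⟩ := Int.eq_ofNat_of_zero_le (show 0 ≤ 2 * (X.dim : ℤ) - w by omega)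
  rw [hc, grZ_natCast, W.gr_eq_bot X c (by omega)] at ha
  exact (Submodule.mem_bot _).1 ha

lemma lef_surj {X : 𝒱.Obj} {D : X.Cycles} (hD : X.IsCyc 1 D) {i : ℕ} (hi : i ≤ X.dim)
    (hL : InjectsOn (W.gr X i) (lefPow W X D (X.dim - i))) {b : W.H X}
    (hb : b ∈ W.gr X (2 * X.dim - i)) :
    ∃ a ∈ W.gr X i, lefPow W X D (X.dim - i) a = b := by
  have hmem : ∀ a ∈ W.gr X i, lefPow W X D (X.dim - i) a ∈ W.gr X (2 * X.dim - i) := by
    intro a ha
    have h1 := pow_L_mem (LL_isHom hD W) ha (X.dim - i)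
    rw [LinearMap.pow_mulLeft, show i + 2 * (X.dim - i) = 2 * X.dim - i by omega] at h1
    exact h1
  set φ : W.gr X i →ₗ[W.K] W.gr X (2 * X.dim - i) :=
    (lefPow W X D (X.dim - i)).restrict hmem with hφ
  have hinj : Function.Injective φ := by
    rw [← LinearMap.ker_eq_bot, LinearMap.ker_eq_bot']
    rintro ⟨a, ha⟩ h0
    apply Subtype.ext
    exact hL a ha (congrArg Subtype.val h0)
  have hdim : Module.finrank W.K (W.gr X i) = Module.finrank W.K (W.gr X (2 * X.dim - i)) :=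
    le_antisymm (betti_le W (by omega)) (betti_le W (by omega))
  obtain ⟨a, ha⟩ := (LinearMap.injective_iff_surjective_of_finrank_eq_finrank hdim).1 hinj ⟨b, hb⟩
  exact ⟨a, a.2, congrArg Subtype.val ha⟩

lemma dualEmb_of_injects {X : 𝒱.Obj} {D : X.Cycles} (hD : X.IsCyc 1 D) {i : ℕ} (hi : i ≤ X.dim)
    (h : InjectsLefschetz W X D i) : DualEmb W X i := by
  obtain ⟨γ, hγ, hinj⟩ := h
  refine ⟨W.corr γ, ?_, ?_⟩
  · rw [mem_KOp_iff]
    refine ⟨γ, ?_, rfl⟩
    rwa [show (X.dim : ℤ) + (i - X.dim) = i by ring]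
  · intro a ha h0
    have e : 2 * (X.dim : ℤ) - i = ((2 * X.dim - i : ℕ) : ℤ) := by omega
    rw [e, grZ_natCast] at ha
    have hL : InjectsOn (W.gr X i) (lefPow W X D (X.dim - i)) := by
      intro b hb hb0
      apply hinj b hb
      change W.corr γ (lefPow W X D (X.dim - i) b) = 0
      rw [hb0, map_zero]
    obtain ⟨b, hb, rfl⟩ := lef_surj hD hi hL ha
    have hb0 : b = 0 := hinj b hb h0
    rw [hb0, map_zero]

lemma injects_of_dualEmb {X : 𝒱.Obj} {D : X.Cycles} (hD : X.IsCyc 1 D) {i : ℕ} (hi : i ≤ X.dim)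
    (hL : InjectsOn (W.gr X i) (lefPow W X D (X.dim - i))) (h : DualEmb W X i) :
    InjectsLefschetz W X D i := by
  obtain ⟨ν, hν, hinj⟩ := h
  obtain ⟨γ, hγ, rfl⟩ := mem_KOp_iff.1 hν
  rw [show (X.dim : ℤ) + (i - X.dim) = i by ring] at hγ
  refine ⟨γ, hγ, fun a ha h0 => hL a ha ?_⟩
  apply hinj _ _ h0
  have h1 := pow_L_mem (LL_isHom hD W) ha (X.dim - i)
  rw [LinearMap.pow_mulLeft, show i + 2 * (X.dim - i) = 2 * X.dim - i by omega] at h1
  rw [show 2 * (X.dim : ℤ) - i = ((2 * X.dim - i : ℕ) : ℤ) by omega, grZ_natCast]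
  exact h1

/-- **Sums of twists in one weight**, for one theory. -/
theorem sums_w {m r : ℕ} {X : Fin m → 𝒱.Obj} {a : Fin m → ℕ} {Y : Fin r → 𝒱.Obj}
    {b : Fin r → ℕ}
    (h : Pool.Agent.W498.Dom.SumsBijectively W X (fun s => (a s : ℤ)) Y (fun t => (b t : ℤ)))
    {w : ℕ}
    (hX : InjectsInWeight W X a w) (hY : LefschetzInWeight W Y b w)
    (t : Fin r) : DualEmb W (Y t) ((w : ℤ) - 2 * b t) := by
  obtain ⟨F, hF, h1⟩ := h
  set G : ∀ (t : Fin r) (s : Fin m), W.H (X s) →ₗ[W.K] W.H (Y t) :=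
    fun t s => W.corr (F s t) with hGdef
  have key : ∀ x t, tot G x t = ∑ s, W.corr (F s t) (x s) := fun x t => tot_apply G x t
  have hbij : Function.Bijective (tot G) := by
    refine ⟨?_, ?_⟩
    · intro x x' hx
      exact (h1 (tot G x)).unique (fun t => (key x t).symm)
        (fun t => by rw [hx]; exact (key x' t).symm)
    · intro y
      obtain ⟨x, hx, -⟩ := h1 y
      exact ⟨x, funext fun t => (key x t).trans (hx t)⟩
  have hG : ∀ t s, G t s ∈ KOp W (X s) (Y t) ((a s : ℤ) - b t) := by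
    intro t s
    rw [mem_KOp_iff]
    refine ⟨F s t, ?_, rfl⟩
    have := hF s t
    rwa [show ((X s).dim : ℤ) + ((a s : ℤ) - b t) = (X s).dim + a s - b t by ring]
  refine additivity_w (m := fun t => (b t : ℤ)) (l := fun s => (a s : ℤ)) (w := w) hG hbij
    ?_ ?_ t
  · intro t
    by_cases ht : 2 * b t ≤ w
    · obtain ⟨hw, E, hE, hL⟩ := hY t ht
      have := selfEmb_of_lef hE (i := w - 2 * b t) (by omega) hL
      rwa [show ((w - 2 * b t : ℕ) : ℤ) = (w : ℤ) - 2 * b t by omega] at this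
    · exact selfEmb_neg (by omega)
  · intro s
    by_cases hs : 2 * a s ≤ w
    · obtain ⟨hw, D, hD, hL⟩ := hX s hs
      have := dualEmb_of_injects hD (i := w - 2 * a s) (by omega) hL
      rwa [show ((w - 2 * a s : ℕ) : ℤ) = (w : ℤ) - 2 * a s by omega] at this
    · exact dualEmb_neg (by omega)

variable {k₀ : Type u₁} [Field k₀] {𝒱₀ : VarClass k₀} {ops₀ : CycleOps 𝒱₀}

/-- **Sums of twists in one weight**: from one theory to one cycle for all theories. -/
theorem sums_oneCycle {m r : ℕ} {X : Fin m → 𝒱.Obj} {a : Fin m → ℕ} {Y : Fin r → 𝒱.Obj}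
    {b : Fin r → ℕ}
    (h : Pool.Agent.W498.Dom.SumsBijectively W X (fun s => (a s : ℤ)) Y (fun t => (b t : ℤ)))
    {w : ℕ}
    (hX : InjectsInWeight W X a w) (hY : LefschetzInWeight W Y b w)
    (t : Fin r) (ht : 2 * b t ≤ w) (R : Reduction (Y t) 𝒱₀)
    (hW : Reduction.Pure.{u₁, v₁} R ops₀ W) {E : (Y t).Cycles} (hE : (Y t).IsCyc 1 E)
    (hL : LefschetzForOne.{u, v} (ops := ops) (Reduction.Pure.{u₁, v₁} R ops₀) (Y t) E
      (w - 2 * b t)) :
    OneCycleForAll.{u, v} (ops := ops) (Reduction.Pure.{u₁, v₁} R ops₀) (Y t) E (w - 2 * b t) := by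
  have h1 := sums_w h hX hY t
  obtain ⟨hw, E', hE', hL'⟩ := hY t ht
  rw [show (w : ℤ) - 2 * b t = ((w - 2 * b t : ℕ) : ℤ) by omega] at h1
  have hi : w - 2 * b t ≤ (Y t).dim := by omega
  exact oneCycle_of_one R hi ⟨W, E', hW, hE', injects_of_dualEmb hE' hi hL' h1⟩ hE hL

end Run7.h756.Sum
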